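import Pool.Agent.Y536.OP.Stm

/-! Project OP: the decomposition of the elements into their `p`-part and their `p'`-part. -/

set_option autoImplicit false
set_option linter.unusedSectionVars false
set_option linter.style.haveILetI false

namespace Pool.Agent.Y536.OP

open Finset

/-- The weight of an element. -/
noncomputable def phi (σ : Finset ℕ) (δ : ℕ → ℝ) {G : Type} [Group G] (g : G) : ℝ :=
  ∏ p ∈ σ, (open Classical in if p ∣ orderOf g then 1 else 1 - δ p)

theorem phi_coe (σ : Finset ℕ) (δ : ℕ → ℝ) {G : Type} [Group G] (H : Subgroup G) (h : H) :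
    phi σ δ (h : G) = phi σ δ h := by
  unfold phi
  rw [Subgroup.orderOf_coe]

/-- The sum of the weights. -/
noncomputable def Sm (σ : Finset ℕ) (δ : ℕ → ℝ) (G : Type) [Group G] : ℝ := ∑ᶠ g : G, phi σ δ g

/-- The bound. -/
noncomputable def Bd (σ : Finset ℕ) (δ : ℕ → ℝ) (n : ℕ) : ℝ :=
  ∏ p ∈ σ, (1 - δ p / (p ^ n.factorization p : ℕ))

section
variable {G : Type} [Group G] [Finite G] {p : ℕ}

theorem exists_st (hp : p.Prime) {n : ℕ} (hn : n ≠ 0) : ∃ s t : ℕ,
    s ≡ 1 [MOD p ^ n.factorization p] ∧ (n / p ^ n.factorization p) ∣ s ∧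
    p ^ n.factorization p ∣ t ∧ t ≡ 1 [MOD n / p ^ n.factorization p] ∧ s + t ≡ 1 [MOD n] := by
  have hco : Nat.Coprime (p ^ n.factorization p) (n / p ^ n.factorization p) :=
    Nat.Coprime.pow_left _ (Nat.coprime_ordCompl hp hn)
  obtain ⟨s, hs1, hs2⟩ := Nat.chineseRemainder hco 1 0
  obtain ⟨t, ht1, ht2⟩ := Nat.chineseRemainder hco 0 1
  refine ⟨s, t, hs1, (Nat.modEq_zero_iff_dvd).1 hs2, (Nat.modEq_zero_iff_dvd).1 ht1, ht2, ?_⟩
  have h1 : s + t ≡ 1 [MOD p ^ n.factorization p] := by simpa using hs1.add ht1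
  have h2 : s + t ≡ 1 [MOD n / p ^ n.factorization p] := by simpa using hs2.add ht2
  have h3 := (Nat.modEq_and_modEq_iff_modEq_mul hco).1 ⟨h1, h2⟩
  rwa [Nat.ordProj_mul_ordCompl_eq_self] at h3

/-- elements of order prime to `p` -/
theorem ord_dvd (hp : p.Prime) {h : G} (hh : ¬ p ∣ orderOf h) :
    orderOf h ∣ Nat.card G / p ^ (Nat.card G).factorization p := by
  have h1 : orderOf h ∣ p ^ (Nat.card G).factorization p *
      (Nat.card G / p ^ (Nat.card G).factorization p) := by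
    rw [Nat.ordProj_mul_ordCompl_eq_self]; exact orderOf_dvd_natCard h
  exact Nat.Coprime.dvd_of_dvd_mul_left
    (Nat.Coprime.pow_right _ ((hp.coprime_iff_not_dvd).2 hh).symm) h1

theorem not_dvd_of (hp : p.Prime) {h : G}
    (hh : h ^ (Nat.card G / p ^ (Nat.card G).factorization p) = 1) : ¬ p ∣ orderOf h := by
  intro hd
  have h1 := orderOf_dvd_of_pow_eq_one hh
  exact Nat.not_dvd_ordCompl hp Nat.card_pos.ne' (hd.trans h1)

/-- the decomposition -/
theorem exists_equiv (hp : p.Prime) (K : Subgroup G) (hK : ∀ g : G, g ∈ K ↔ ¬ p ∣ orderOf g) :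
    ∃ e : G ≃ Σ u : {u : G // u ^ p ^ (Nat.card G).factorization p = 1},
      ↥(K ⊓ Subgroup.centralizer {(u : G)}), ∀ x, e.symm x = (x.1 : G) * (x.2 : G) := by
  obtain ⟨s, t, hs1, hs2, ht1, ht2, hst⟩ := exists_st hp (n := Nat.card G) Nat.card_pos.ne'
  set q := p ^ (Nat.card G).factorization p with hq
  set m := Nat.card G / q with hm
  have hqm : q * m = Nat.card G := Nat.ordProj_mul_ordCompl_eq_self _ _
  have h1 : ∀ g : G, (g ^ s) ^ q = 1 := by
    intro g
    obtain ⟨k, hk⟩ := hs2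
    rw [← pow_mul, hk, show m * k * q = Nat.card G * k by rw [← hqm]; ring, pow_mul, pow_card_eq_one',
      one_pow]
  have h2 : ∀ g : G, g ^ t ∈ K := by
    intro g
    rw [hK]
    apply not_dvd_of hp
    obtain ⟨k, hk⟩ := ht1
    change (g ^ t) ^ m = 1
    rw [← pow_mul, hk, show q * k * m = Nat.card G * k by rw [← hqm]; ring, pow_mul,
      pow_card_eq_one', one_pow]
  have h3 : ∀ g : G, g ^ s * g ^ t = g := by
    intro g
    rw [← pow_add]
    have : g ^ (s + t) = g ^ 1 := pow_eq_pow_iff_modEq.2 (hst.of_dvd (orderOf_dvd_natCard g))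
    rwa [pow_one] at this
  refine ⟨⟨fun g => ⟨⟨g ^ s, h1 g⟩, ⟨g ^ t, ?_⟩⟩, fun x => (x.1 : G) * (x.2 : G), ?_, ?_⟩, ?_⟩
  · refine Subgroup.mem_inf.2 ⟨h2 g, Subgroup.mem_centralizer_singleton_iff.2 ?_⟩
    rw [← pow_add, ← pow_add, add_comm]
  · intro g
    exact h3 g
  · rintro ⟨⟨u, hu⟩, ⟨h, hh⟩⟩
    obtain ⟨hhK, hhc⟩ := Subgroup.mem_inf.1 hh
    have hcomm : Commute u h := by
      have := Subgroup.mem_centralizer_singleton_iff.1 hhc
      exact (this : h * u = u * h).symm
    have hd := ord_dvd hp ((hK h).1 hhK)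
    have e1 : (u * h) ^ s = u := by
      rw [hcomm.mul_pow]
      have : h ^ s = 1 := orderOf_dvd_iff_pow_eq_one.1 (hd.trans hs2)
      rw [this, mul_one]
      have : u ^ s = u ^ 1 :=
        pow_eq_pow_iff_modEq.2 (hs1.of_dvd (orderOf_dvd_of_pow_eq_one hu))
      rwa [pow_one] at this
    have e2 : (u * h) ^ t = h := by
      rw [hcomm.mul_pow]
      have : u ^ t = 1 := orderOf_dvd_iff_pow_eq_one.1 ((orderOf_dvd_of_pow_eq_one hu).trans ht1)
      rw [this, one_mul]
      have : h ^ t = h ^ 1 := pow_eq_pow_iff_modEq.2 (ht2.of_dvd hd)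
      rwa [pow_one] at this
    apply Sigma.ext
    · exact Subtype.ext e1
    · simp only
      apply (Subtype.heq_iff_coe_eq _).2
      · exact e2
      · intro x
        rw [e1]
  · intro x
    rfl

theorem phi_mul (hp : p.Prime) {σ : Finset ℕ} (hσ : ∀ q ∈ σ, q.Prime) (hpσ : p ∈ σ) (δ : ℕ → ℝ)
    {u h : G} {b : ℕ} (hu : u ^ p ^ b = 1) (hh : ¬ p ∣ orderOf h) (hc : Commute u h) :
    phi σ δ (u * h) = (open Classical in if u = 1 then 1 - δ p else 1) * phi (σ.erase p) δ h := by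
  classical
  obtain ⟨c, -, hc'⟩ := (Nat.dvd_prime_pow hp).1 (orderOf_dvd_of_pow_eq_one hu)
  have hcop : Nat.Coprime (orderOf u) (orderOf h) := by
    rw [hc']; exact Nat.Coprime.pow_left _ ((hp.coprime_iff_not_dvd).2 hh)
  have ho : orderOf (u * h) = orderOf u * orderOf h := hc.orderOf_mul_eq_mul_orderOf_of_coprime hcop
  unfold phi
  rw [← Finset.mul_prod_erase σ _ hpσ]
  congr 1
  · by_cases hu1 : u = 1
    · subst hu1
      rw [one_mul, if_neg hh, if_pos rfl]
    · rw [if_neg hu1, if_pos]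
      rw [ho]
      apply Dvd.dvd.mul_right
      rw [hc']
      apply dvd_pow_self
      rintro rfl
      rw [pow_zero, orderOf_eq_one_iff] at hc'
      exact hu1 hc'
  · apply Finset.prod_congr rfl
    intro q hq
    have hqp : q ≠ p := (Finset.mem_erase.1 hq).1
    have hqP := hσ q (Finset.mem_erase.1 hq).2
    have : q ∣ orderOf (u * h) ↔ q ∣ orderOf h := by
      rw [ho, hqP.dvd_mul]
      constructor
      · rintro (h1 | h1)
        · rw [hc'] at h1
          exact absurd ((Nat.prime_dvd_prime_iff_eq hqP hp).1 (hqP.dvd_of_dvd_pow h1)) hqp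
        · exact h1
      · exact Or.inr
    simp only [this]

/-- the sum of the weights over the decomposition -/
theorem Sm_eq (hp : p.Prime) (K : Subgroup G) (hK : ∀ g : G, g ∈ K ↔ ¬ p ∣ orderOf g)
    {σ : Finset ℕ} (hσ : ∀ q ∈ σ, q.Prime) (hpσ : p ∈ σ) (δ : ℕ → ℝ) :
    Sm σ δ G = ∑ᶠ u : {u : G // u ^ p ^ (Nat.card G).factorization p = 1},
      (open Classical in if (u : G) = 1 then 1 - δ p else 1) *
        Sm (σ.erase p) δ ↥(K ⊓ Subgroup.centralizer {(u : G)}) := by
  classical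
  obtain ⟨e, he⟩ := exists_equiv hp K hK
  haveI := Fintype.ofFinite G
  haveI : Fintype {u : G // u ^ p ^ (Nat.card G).factorization p = 1} := Fintype.ofFinite _
  haveI : ∀ u : {u : G // u ^ p ^ (Nat.card G).factorization p = 1},
    Fintype ↥(K ⊓ Subgroup.centralizer {(u : G)}) := fun u => Fintype.ofFinite _
  unfold Sm
  simp only [finsum_eq_sum_of_fintype]
  rw [← Equiv.sum_comp e.symm, Fintype.sum_sigma]
  apply Finset.sum_congr rfl
  intro u _
  rw [Finset.mul_sum]
  apply Finset.sum_congr rfl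
  intro h _
  rw [he]
  obtain ⟨hhK, hhc⟩ := Subgroup.mem_inf.1 h.2
  have hcomm : Commute (u : G) (h : G) := by
    have := Subgroup.mem_centralizer_singleton_iff.1 hhc
    exact (this : (h : G) * u = u * h).symm
  rw [phi_mul hp hσ hpσ δ u.2 ((hK h).1 hhK) hcomm, phi_coe]

theorem card_eq (hp : p.Prime) (K : Subgroup G) (hK : ∀ g : G, g ∈ K ↔ ¬ p ∣ orderOf g) :
    (Nat.card G : ℝ) = ∑ᶠ u : {u : G // u ^ p ^ (Nat.card G).factorization p = 1},
      (Nat.card ↥(K ⊓ Subgroup.centralizer {(u : G)}) : ℝ) := by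
  classical
  obtain ⟨e, he⟩ := exists_equiv hp K hK
  haveI := Fintype.ofFinite G
  haveI : Fintype {u : G // u ^ p ^ (Nat.card G).factorization p = 1} := Fintype.ofFinite _
  haveI : ∀ u : {u : G // u ^ p ^ (Nat.card G).factorization p = 1},
    Fintype ↥(K ⊓ Subgroup.centralizer {(u : G)}) := fun u => Fintype.ofFinite _
  have h := Nat.card_congr e
  rw [Nat.card_sigma] at h
  rw [finsum_eq_sum_of_fintype]
  calc (Nat.card G : ℝ) = ((∑ u : {u : G // u ^ p ^ (Nat.card G).factorization p = 1},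
      Nat.card ↥(K ⊓ Subgroup.centralizer {(u : G)}) : ℕ) : ℝ) := congrArg Nat.cast h
    _ = _ := by push_cast; rfl

theorem normal_of (K : Subgroup G) (hK : ∀ g : G, g ∈ K ↔ ¬ p ∣ orderOf g) : K.Normal := by
  constructor
  intro n hn g
  rw [hK] at hn ⊢
  have : orderOf (g * n * g⁻¹) = orderOf n := by
    have := orderOf_injective (MulAut.conj g).toMonoidHom (MulAut.conj g).injective n
    simpa using this
  rwa [this]

theorem card_K (hp : p.Prime) (K : Subgroup G) (hK : ∀ g : G, g ∈ K ↔ ¬ p ∣ orderOf g) :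
    Nat.card K = Nat.card G / p ^ (Nat.card G).factorization p := by
  haveI := normal_of K hK
  haveI : Fact p.Prime := ⟨hp⟩
  have hpK : ¬ p ∣ Nat.card K := by
    intro hd
    obtain ⟨x, hx⟩ := exists_prime_orderOf_dvd_card' p hd
    have := (hK x).1 x.2
    rw [Subgroup.orderOf_coe, hx] at this
    exact this dvd_rfl
  obtain ⟨e, he⟩ := exists_equiv hp K hK
  have hpg : IsPGroup p (G ⧸ K) := by
    intro y
    obtain ⟨g, rfl⟩ := QuotientGroup.mk_surjective y
    refine ⟨(Nat.card G).factorization p, ?_⟩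
    have h1 : g = ((e g).1 : G) * ((e g).2 : G) := by rw [← he, Equiv.symm_apply_apply]
    have h2 : ((g : G) : G ⧸ K) = (((e g).1 : G) : G ⧸ K) := by
      rw [QuotientGroup.eq]
      have hk : ((e g).2 : G) ∈ K := (Subgroup.mem_inf.1 (e g).2.2).1
      have h3 : (g⁻¹ * ((e g).1 : G)) = ((e g).2 : G)⁻¹ := by
        rw [inv_mul_eq_iff_eq_mul, eq_mul_inv_iff_mul_eq]
        exact h1.symm
      rw [h3]
      exact K.inv_mem hk
    rw [h2, ← QuotientGroup.mk_pow, (e g).1.2, QuotientGroup.mk_one]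
  obtain ⟨k, hk⟩ := IsPGroup.iff_card.1 hpg
  have hcard := Subgroup.card_eq_card_quotient_mul_card_subgroup K
  rw [hk] at hcard
  have hne : Nat.card K ≠ 0 := Nat.card_pos.ne'
  have hf : (Nat.card G).factorization p = k := by
    rw [hcard, Nat.factorization_mul (pow_ne_zero _ hp.ne_zero) hne, Finsupp.add_apply,
      hp.factorization_pow, Finsupp.single_eq_same, Nat.factorization_eq_zero_of_not_dvd hpK,
      add_zero]
  rw [hf, hcard, Nat.mul_div_cancel_left _ (pow_pos hp.pos _)]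

end

end Pool.Agent.Y536.OP
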