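import Pool.Agent.Y536.OP.AINT
import Pool.Agent.Y536.OP.Parts

/-! Project OP, job ABL: abelian Sylow subgroups. -/

set_option autoImplicit false
set_option linter.unusedSectionVars false
set_option linter.style.haveILetI false

namespace Pool.Agent.Y536.OP.ABL

open Finset

/-- a proper subgroup has at most half of the elements -/
theorem two_mul_le {G : Type} [Group G] [Finite G] {H K : Subgroup G} (h : H ≤ K) (hne : H ≠ K) :
    2 * Nat.card H ≤ Nat.card K := by
  obtain ⟨k, hk⟩ := Subgroup.card_dvd_of_le h
  have h1 : Nat.card H ≠ Nat.card K := fun he => hne (Subgroup.eq_of_le_of_card_ge h he.symm.le)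
  have h2 : 0 < Nat.card K := Nat.card_pos
  have h3 : 2 ≤ k := by
    by_contra h
    have : k = 0 ∨ k = 1 := by omega
    rcases this with rfl | rfl
    · omega
    · omega
  calc 2 * Nat.card H ≤ k * Nat.card H := Nat.mul_le_mul_right _ h3
    _ = Nat.card K := by rw [hk, mul_comm]

theorem done (hA : S_AINT) : S_ABL := by
  classical
  intro G _ _ p hp hab
  haveI : Fact p.Prime := ⟨hp⟩
  haveI := Fintype.ofFinite G
  obtain ⟨P⟩ : Nonempty (Sylow p G) := inferInstance
  have hPab := hab P
  have hPc : Nat.card P = p ^ (Nat.card G).factorization p := P.card_eq_multiplicity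
  have hP0 : 0 < Nat.card P := Nat.card_pos
  set W := Subgroup.normalizer (P : Set G) with hW
  by_cases hcen : W ≤ Subgroup.centralizer (P : Set G)
  · -- Burnside's normal complement
    left
    have hcompl := MonoidHom.ker_transferSylow_isComplement' P hcen
    set K := (MonoidHom.transferSylow P hcen).ker with hK
    have hKp : ¬ p ∣ Nat.card K := MonoidHom.not_dvd_card_ker_transferSylow P hcen
    refine ⟨K, fun g => ⟨fun hg h => hKp ?_, fun hg => ?_⟩⟩
    · have h1 := orderOf_dvd_natCard (⟨g, hg⟩ : K)
      rw [← Subgroup.orderOf_coe] at h1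
      exact h.trans h1
    · rw [hK, MonoidHom.mem_ker]
      have h1 : orderOf (MonoidHom.transferSylow P hcen g) ∣ orderOf g := orderOf_map_dvd _ g
      have h2 : orderOf (MonoidHom.transferSylow P hcen g) ∣ p ^ (Nat.card G).factorization p := by
        rw [← hPc]; exact orderOf_dvd_natCard _
      obtain ⟨k, -, hk⟩ := (Nat.dvd_prime_pow hp).1 h2
      rcases Nat.eq_zero_or_pos k with rfl | hk0
      · rw [pow_zero] at hk
        exact orderOf_eq_one_iff.1 hk
      · exfalso
        apply hg
        refine (dvd_pow_self p hk0.ne').trans ?_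
        rw [← hk]
        exact h1
  · right
    set D := W ⊓ Subgroup.centralizer (P : Set G) with hD
    have hDW : 2 * Nat.card D ≤ Nat.card W := by
      apply two_mul_le inf_le_left
      intro h
      exact hcen (inf_eq_left.1 h)
    have hform := hA G p P hPab
    rw [← hW] at hform
    set cp : G → ℕ := fun x => Nat.card {u : G // u ∈ P ∧ x * u = u * x} with hcp
    -- the two bounds
    have hpt : ∀ x ∈ W, ((if x ∈ D then 1 else p : ℕ) : ℚ) / Nat.card P ≤ 1 / (cp x : ℚ) := by
      intro x hx
      have hcpx : cp x = Nat.card ((P : Subgroup G) ⊓ Subgroup.centralizer {x} : Subgroup G) := by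
        apply Nat.card_congr
        apply Equiv.subtypeEquivRight
        intro u
        rw [Subgroup.mem_inf, Subgroup.mem_centralizer_singleton_iff]
        exact and_congr_right fun _ => eq_comm
      have hpos : 0 < cp x := by rw [hcpx]; exact Nat.card_pos
      have hle : (if x ∈ D then 1 else p) * cp x ≤ Nat.card P := by
        by_cases hxD : x ∈ D
        · rw [if_pos hxD, one_mul, hcpx]
          exact Subgroup.card_le_of_le inf_le_left
        · rw [if_neg hxD]
          have hne : (P : Subgroup G) ⊓ Subgroup.centralizer {x} ≠ (P : Subgroup G) := by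
            intro h
            apply hxD
            refine Subgroup.mem_inf.2 ⟨hx, Subgroup.mem_centralizer_iff.2 fun u hu => ?_⟩
            have h1 := inf_eq_left.1 h hu
            exact Subgroup.mem_centralizer_singleton_iff.1 h1
          obtain ⟨k, hk1, hk2⟩ := (Nat.dvd_prime_pow hp).1
            (hPc ▸ Subgroup.card_dvd_of_le (inf_le_left :
              (P : Subgroup G) ⊓ Subgroup.centralizer {x} ≤ (P : Subgroup G)))
          have hlt : k < (Nat.card G).factorization p := by
            rcases hk1.lt_or_eq with h | h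
            · exact h
            · exfalso
              apply hne
              apply Subgroup.eq_of_le_of_card_ge inf_le_left
              rw [hk2, h]
              exact hPc.le
          rw [hcpx, hk2, hPc, ← pow_succ']
          exact Nat.pow_le_pow_right hp.pos hlt
      have hP0' : (0 : ℚ) < Nat.card P := by exact_mod_cast hP0
      have hpos' : (0 : ℚ) < cp x := by exact_mod_cast hpos
      rw [div_le_div_iff₀ hP0' hpos', one_mul]
      exact_mod_cast hle
    -- the sum
    have h1 : (∑ᶠ x : W, 1 / (cp x : ℚ)) = ∑ x ∈ univ.filter (fun x => x ∈ W), 1 / (cp x : ℚ) :=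
      AINT.fs_eq (fun x => x ∈ W) (fun x => 1 / (cp x : ℚ))
    have h2 : ∑ x ∈ univ.filter (fun x => x ∈ W), ((if x ∈ D then 1 else p : ℕ) : ℚ) / Nat.card P ≤
        ∑ x ∈ univ.filter (fun x => x ∈ W), 1 / (cp x : ℚ) :=
      Finset.sum_le_sum fun x hx => hpt x (Finset.mem_filter.1 hx).2
    have h3 : ∑ x ∈ univ.filter (fun x => x ∈ W), (if x ∈ D then 1 else p) + (p - 1) * Nat.card D =
        p * Nat.card W := by
      have e1 : Nat.card D = ∑ x ∈ univ.filter (fun x => x ∈ W), (if x ∈ D then 1 else 0) := by
        rw [← Finset.sum_filter, Finset.sum_const, smul_eq_mul, mul_one,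
          show Nat.card D = Nat.card {x : G // x ∈ D} from rfl, AINT.nc_eq, Finset.filter_filter]
        congr 1
        ext x
        simp only [Finset.mem_filter, Finset.mem_univ, true_and]
        exact ⟨fun h => ⟨(Subgroup.mem_inf.1 h).1, h⟩, fun h => h.2⟩
      have e2 : Nat.card W = ∑ x ∈ univ.filter (fun x => x ∈ W), 1 := by
        rw [Finset.sum_const, smul_eq_mul, mul_one,
          show Nat.card W = Nat.card {x : G // x ∈ W} from rfl, AINT.nc_eq]
      rw [e1, e2, Finset.mul_sum, Finset.mul_sum, ← Finset.sum_add_distrib]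
      apply Finset.sum_congr rfl
      intro x _
      have := hp.one_lt
      split_ifs <;> omega
    have h4 : (p + 1) * Nat.card W ≤
        2 * ∑ x ∈ univ.filter (fun x => x ∈ W), (if x ∈ D then 1 else p) := by
      obtain ⟨r, hr⟩ : ∃ r, p = r + 1 := ⟨p - 1, by have := hp.one_lt; omega⟩
      have h5 : (p - 1) * (2 * Nat.card D) ≤ (p - 1) * Nat.card W := Nat.mul_le_mul_left _ hDW
      rw [hr] at h3 h5 ⊢
      rw [Nat.add_sub_cancel] at h3 h5
      nlinarith
    have h6 : (((p + 1) * Nat.card W : ℕ) : ℚ) / Nat.card P ≤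
        2 * ∑ x ∈ univ.filter (fun x => x ∈ W), 1 / (cp x : ℚ) := by
      have hP0' : (0 : ℚ) < Nat.card P := by exact_mod_cast hP0
      have e1 : ∑ x ∈ univ.filter (fun x => x ∈ W), ((if x ∈ D then 1 else p : ℕ) : ℚ) / Nat.card P =
          ((∑ x ∈ univ.filter (fun x => x ∈ W), (if x ∈ D then 1 else p) : ℕ) : ℚ) / Nat.card P := by
        rw [Nat.cast_sum, Finset.sum_div]
      rw [e1] at h2
      have h7 : (((p + 1) * Nat.card W : ℕ) : ℚ) ≤
          2 * ((∑ x ∈ univ.filter (fun x => x ∈ W), (if x ∈ D then 1 else p) : ℕ) : ℚ) := by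
        exact_mod_cast h4
      calc _ ≤ (2 * ((∑ x ∈ univ.filter (fun x => x ∈ W), (if x ∈ D then 1 else p) : ℕ) : ℚ)) /
            Nat.card P := div_le_div_of_nonneg_right h7 hP0'.le
        _ = 2 * (((∑ x ∈ univ.filter (fun x => x ∈ W), (if x ∈ D then 1 else p) : ℕ) : ℚ) /
            Nat.card P) := by ring
        _ ≤ _ := mul_le_mul_of_nonneg_left h2 (by norm_num)
    rw [← h1] at h6
    -- conclusion
    have hW0 : (0 : ℚ) < Nat.card W := by exact_mod_cast Nat.card_pos
    have hG0 : (0 : ℚ) < Nat.card G := by exact_mod_cast Nat.card_pos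
    have hP0' : (0 : ℚ) < Nat.card P := by exact_mod_cast hP0
    have hG : (Nat.card G : ℚ) = Nat.card P * (Nat.card G / p ^ (Nat.card G).factorization p : ℕ) := by
      rw [← Nat.cast_mul, hPc, Nat.ordProj_mul_ordCompl_eq_self]
    have h8 : (Nat.card W : ℚ) * (((p + 1) * (Nat.card G / p ^ (Nat.card G).factorization p) : ℕ) : ℚ) ≤
        (Nat.card W : ℚ) * ((2 * regs G p : ℕ) : ℚ) := by
      have h9 := mul_le_mul_of_nonneg_left h6 hG0.le
      have h10 : (Nat.card G : ℚ) * (2 * ∑ᶠ x : W, 1 / (cp x : ℚ)) =
          (Nat.card W : ℚ) * ((2 * regs G p : ℕ) : ℚ) := by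
        push_cast
        have : (Nat.card W : ℚ) * regs G p = (Nat.card G : ℚ) * ∑ᶠ x : W, 1 / (cp x : ℚ) := hform
        linear_combination (-2 : ℚ) * this
      have h11 : (Nat.card G : ℚ) * ((((p + 1) * Nat.card W : ℕ) : ℚ) / Nat.card P) =
          (Nat.card W : ℚ) * (((p + 1) * (Nat.card G / p ^ (Nat.card G).factorization p) : ℕ) : ℚ) := by
        rw [hG]
        push_cast
        field_simp
      rw [h10, h11] at h9
      exact h9
    have h12 := le_of_mul_le_mul_left h8 hW0
    exact_mod_cast h12

end Pool.Agent.Y536.OP.ABL
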