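import Pool.Agent.Y536.OP.QUO2

/-! Project OP, job AEQ: counting the elements by their `p`-parts, abelian Sylow subgroup. -/

set_option autoImplicit false
set_option linter.unusedSectionVars false
set_option linter.style.haveILetI false

namespace Pool.Agent.Y536.OP.AEQ

open Finset
open scoped Pointwise

section
variable {G : Type} [Group G] [Finite G] {p : ℕ}

theorem regs_congr {H K : Type} [Group H] [Group K] (e : H ≃* K) (p : ℕ) : regs H p = regs K p := by
  unfold regs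
  apply Nat.card_congr
  refine e.toEquiv.subtypeEquiv fun h => ?_
  have : orderOf (e h) = orderOf h := MulEquiv.orderOf_eq e h
  change _ ↔ ¬ p ∣ orderOf (e h)
  rw [this]

/-- the centralizers of conjugate elements -/
theorem exists_cent_equiv (u g : G) : Nonempty (Subgroup.centralizer {u} ≃*
    Subgroup.centralizer {g⁻¹ * u * g}) := by
  have h : (Subgroup.centralizer {u}).map (MulAut.conj g⁻¹).toMonoidHom =
      Subgroup.centralizer {g⁻¹ * u * g} := by
    ext x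
    rw [Subgroup.mem_map]
    constructor
    · rintro ⟨c, hc, rfl⟩
      rw [Subgroup.mem_centralizer_singleton_iff] at hc ⊢
      change (g⁻¹ * c * g⁻¹⁻¹) * (g⁻¹ * u * g) = (g⁻¹ * u * g) * (g⁻¹ * c * g⁻¹⁻¹)
      have e1 : (g⁻¹ * c * g⁻¹⁻¹) * (g⁻¹ * u * g) = g⁻¹ * (c * u) * g := by group
      have e2 : (g⁻¹ * u * g) * (g⁻¹ * c * g⁻¹⁻¹) = g⁻¹ * (u * c) * g := by group
      rw [e1, e2, hc]
    · intro hx
      rw [Subgroup.mem_centralizer_singleton_iff] at hx
      refine ⟨g * x * g⁻¹, ?_, ?_⟩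
      · rw [Subgroup.mem_centralizer_singleton_iff]
        have e1 : g * x * g⁻¹ * u = g * (x * (g⁻¹ * u * g)) * g⁻¹ := by group
        have e2 : u * (g * x * g⁻¹) = g * ((g⁻¹ * u * g) * x) * g⁻¹ := by group
        rw [e1, e2, hx]
      · change g⁻¹ * (g * x * g⁻¹) * g⁻¹⁻¹ = x
        group
  exact ⟨((MulAut.conj g⁻¹).subgroupMap (Subgroup.centralizer {u})).trans (MulEquiv.subgroupCongr h)⟩

/-- the decomposition into the `p`-part and the `p'`-part -/
theorem exists_equiv' (hp : p.Prime) : Nonempty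
    (G ≃ Σ u : {u : G // u ^ p ^ (Nat.card G).factorization p = 1},
      {h : Subgroup.centralizer {(u : G)} // ¬ p ∣ orderOf h}) := by
  obtain ⟨s, t, hs1, hs2, ht1, ht2, hst⟩ := exists_st hp (n := Nat.card G) Nat.card_pos.ne'
  set q := p ^ (Nat.card G).factorization p with hq
  set m := Nat.card G / q with hm
  have hqm : q * m = Nat.card G := Nat.ordProj_mul_ordCompl_eq_self _ _
  have h1 : ∀ g : G, (g ^ s) ^ q = 1 := by
    intro g
    obtain ⟨k, hk⟩ := hs2
    rw [← pow_mul, hk, show m * k * q = Nat.card G * k by rw [← hqm]; ring, pow_mul, pow_card_eq_one',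
      one_pow]
  have h2 : ∀ g : G, ¬ p ∣ orderOf (g ^ t) := by
    intro g
    apply not_dvd_of hp
    obtain ⟨k, hk⟩ := ht1
    change (g ^ t) ^ m = 1
    rw [← pow_mul, hk, show q * k * m = Nat.card G * k by rw [← hqm]; ring, pow_mul,
      pow_card_eq_one', one_pow]
  have h3 : ∀ g : G, g ^ s * g ^ t = g := by
    intro g
    rw [← pow_add]
    have : g ^ (s + t) = g ^ 1 := pow_eq_pow_iff_modEq.2 (hst.of_dvd (orderOf_dvd_natCard g))
    rwa [pow_one] at this
  refine ⟨⟨fun g => ⟨⟨g ^ s, h1 g⟩, ⟨⟨g ^ t, ?_⟩, ?_⟩⟩, fun x => (x.1 : G) * (x.2.1 : G), ?_, ?_⟩⟩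
  · refine Subgroup.mem_centralizer_singleton_iff.2 ?_
    rw [← pow_add, ← pow_add, add_comm]
  · rw [← Subgroup.orderOf_coe]
    exact h2 g
  · intro g
    exact h3 g
  · rintro ⟨⟨u, hu⟩, ⟨⟨h, hhc⟩, hh⟩⟩
    rw [← Subgroup.orderOf_coe] at hh
    have hcomm : Commute u h := by
      have := Subgroup.mem_centralizer_singleton_iff.1 hhc
      exact (this : h * u = u * h).symm
    have hd := ord_dvd hp hh
    have e1 : (u * h) ^ s = u := by
      rw [hcomm.mul_pow]
      have : h ^ s = 1 := orderOf_dvd_iff_pow_eq_one.1 (hd.trans hs2)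
      rw [this, mul_one]
      have : u ^ s = u ^ 1 :=
        pow_eq_pow_iff_modEq.2 (hs1.of_dvd (orderOf_dvd_of_pow_eq_one hu))
      rwa [pow_one] at this
    have e2 : (u * h) ^ t = h := by
      rw [hcomm.mul_pow]
      have : u ^ t = 1 := orderOf_dvd_iff_pow_eq_one.1 ((orderOf_dvd_of_pow_eq_one hu).trans ht1)
      rw [this, one_mul]
      have : h ^ t = h ^ 1 := pow_eq_pow_iff_modEq.2 (ht2.of_dvd hd)
      rwa [pow_one] at this
    have key : ∀ (u' : G) (hu' : u' ^ q = 1) (h' : G) (hc' : h' ∈ Subgroup.centralizer {u'})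
        (hh' : ¬ p ∣ orderOf (⟨h', hc'⟩ : Subgroup.centralizer {u'})) (hc : h ∈ Subgroup.centralizer {u})
        (hh2 : ¬ p ∣ orderOf (⟨h, hc⟩ : Subgroup.centralizer {u})), u' = u → h' = h →
        (⟨⟨u', hu'⟩, ⟨⟨h', hc'⟩, hh'⟩⟩ : Σ u : {u : G // u ^ q = 1},
          {h : Subgroup.centralizer {(u : G)} // ¬ p ∣ orderOf h}) = ⟨⟨u, hu⟩, ⟨⟨h, hc⟩, hh2⟩⟩ := by
      intro u' hu' h' hc' hh' hc hh2 hu1 hh1
      subst hu1
      subst hh1
      rfl
    exact key _ _ _ _ _ _ _ e1 e2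

theorem card_eq' [Fintype {u : G // u ^ p ^ (Nat.card G).factorization p = 1}] (hp : p.Prime) :
    Nat.card G = ∑ u : {u : G // u ^ p ^ (Nat.card G).factorization p = 1},
      regs (Subgroup.centralizer {(u : G)}) p := by
  obtain ⟨e⟩ := exists_equiv' (G := G) hp
  have h := Nat.card_congr e
  rw [Nat.card_sigma] at h
  exact h

/-- a count in a double coset -/
theorem card_pairs [Fact p.Prime] (P : Sylow p G) (hab : ∀ x ∈ P, ∀ y ∈ P, x * y = y * x) (u : G)
    [Fintype {g : G // g⁻¹ * u * g ∈ P}] (hu : ∃ g : G, g⁻¹ * u * g ∈ P) :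
    Nat.card (Subgroup.centralizer {u}) * Nat.card (Subgroup.normalizer (P : Set G)) =
      ∑ g : {g : G // g⁻¹ * u * g ∈ P}, Nat.card {x : G // x ∈ Subgroup.normalizer (P : Set G) ∧
        x * ((g : G)⁻¹ * u * g) = ((g : G)⁻¹ * u * g) * x} := by
  classical
  obtain ⟨g0, hg0⟩ := hu
  haveI hcm : IsMulCommutative P := ⟨⟨fun a b => Subtype.ext (hab a a.2 b b.2)⟩⟩
  have hW : ∀ w ∈ Subgroup.normalizer (P : Set G), ∀ x ∈ P, w⁻¹ * x * w ∈ P := by
    intro w hw x hx
    have h1 := (Subgroup.mem_normalizer_iff.1 ((Subgroup.normalizer (P : Set G)).inv_mem hw) x).1 hx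
    have h2 : w⁻¹ * x * w⁻¹⁻¹ ∈ P := h1
    rwa [inv_inv] at h2
  -- the map
  have hf : ∀ c ∈ Subgroup.centralizer {u}, ∀ w ∈ Subgroup.normalizer (P : Set G),
      (c * g0 * w)⁻¹ * u * (c * g0 * w) ∈ P := by
    intro c hc w hw
    rw [Subgroup.mem_centralizer_singleton_iff] at hc
    have h1 : (c * g0 * w)⁻¹ * u * (c * g0 * w) = w⁻¹ * (g0⁻¹ * (c⁻¹ * (u * c)) * g0) * w := by group
    have h2 : c⁻¹ * (u * c) = u := by rw [← hc]; group
    rw [h1, h2]
    exact hW w hw _ hg0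
  let f : Subgroup.centralizer {u} × Subgroup.normalizer (P : Set G) → {g : G // g⁻¹ * u * g ∈ P} :=
    fun cw => ⟨(cw.1 : G) * g0 * (cw.2 : G), hf _ cw.1.2 _ cw.2.2⟩
  have hfib : ∀ g : {g : G // g⁻¹ * u * g ∈ P}, Nonempty ({cw // f cw = g} ≃
      {x : G // x ∈ Subgroup.normalizer (P : Set G) ∧
        x * ((g : G)⁻¹ * u * g) = ((g : G)⁻¹ * u * g) * x}) := by
    rintro ⟨g, hg⟩
    obtain ⟨n, hn, hn2⟩ := Sylow.conj_eq_normalizer_conj_of_mem P (g0⁻¹ * u * g0) (g0⁻¹ * g) hg0 (by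
      have : (g0⁻¹ * g)⁻¹ * (g0⁻¹ * u * g0) * (g0⁻¹ * g) = g⁻¹ * u * g := by group
      rw [this]; exact hg)
    have hn3 : g⁻¹ * u * g = n⁻¹ * (g0⁻¹ * u * g0) * n := by
      rw [← hn2]; group
    set c1 : G := g * n⁻¹ * g0⁻¹ with hc1
    have hc1u : c1 * u = u * c1 := by
      have h1 : u * g = g * (n⁻¹ * (g0⁻¹ * u * g0) * n) := by rw [← hn3]; group
      have h2 : u * c1 = (u * g) * n⁻¹ * g0⁻¹ := by rw [hc1]; group
      rw [h2, h1, hc1]
      group
    refine ⟨⟨fun cw => ⟨n⁻¹ * (cw.1.2 : G), ?_, ?_⟩, fun x => ⟨(⟨g * (x : G)⁻¹ * g⁻¹ * c1, ?_⟩,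
      ⟨n * (x : G), ?_⟩), ?_⟩, ?_, ?_⟩⟩
    · exact Subgroup.mul_mem _ (Subgroup.inv_mem _ hn) cw.1.2.2
    · obtain ⟨⟨⟨c, hc⟩, ⟨w, hw⟩⟩, hcw⟩ := cw
      have h1 : c * g0 * w = g := congrArg Subtype.val hcw
      have hc' := Subgroup.mem_centralizer_singleton_iff.1 hc
      change (n⁻¹ * w) * (g⁻¹ * u * g) = (g⁻¹ * u * g) * (n⁻¹ * w)
      have h2 : n⁻¹ * w = g⁻¹ * (c1 * c⁻¹) * g := by
        rw [hc1, ← h1]; group
      have h3 : (c1 * c⁻¹) * u = u * (c1 * c⁻¹) := by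
        have : c⁻¹ * u = u * c⁻¹ := by
          rw [inv_mul_eq_iff_eq_mul, ← mul_assoc, hc', mul_inv_cancel_right]
        rw [mul_assoc, this, ← mul_assoc, hc1u, mul_assoc]
      rw [h2]
      have e1 : g⁻¹ * (c1 * c⁻¹) * g * (g⁻¹ * u * g) = g⁻¹ * ((c1 * c⁻¹) * u) * g := by group
      have e2 : g⁻¹ * u * g * (g⁻¹ * (c1 * c⁻¹) * g) = g⁻¹ * (u * (c1 * c⁻¹)) * g := by group
      rw [e1, e2, h3]
    · obtain ⟨x, hx, hx2⟩ := x
      rw [Subgroup.mem_centralizer_singleton_iff]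
      change g * x⁻¹ * g⁻¹ * c1 * u = u * (g * x⁻¹ * g⁻¹ * c1)
      have hx3 : x * (g⁻¹ * u * g) = (g⁻¹ * u * g) * x := hx2
      have h4 : (g⁻¹ * u * g) * x⁻¹ = x⁻¹ * (g⁻¹ * u * g) := by
        rw [eq_inv_mul_iff_mul_eq, ← mul_assoc, hx3, mul_inv_cancel_right]
      calc g * x⁻¹ * g⁻¹ * c1 * u = g * x⁻¹ * g⁻¹ * (c1 * u) := by group
        _ = g * (x⁻¹ * (g⁻¹ * u * g)) * g⁻¹ * c1 := by rw [hc1u]; group
        _ = g * ((g⁻¹ * u * g) * x⁻¹) * g⁻¹ * c1 := by rw [h4]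
        _ = _ := by group
    · exact Subgroup.mul_mem _ hn x.2.1
    · apply Subtype.ext
      change g * (x : G)⁻¹ * g⁻¹ * c1 * g0 * (n * (x : G)) = g
      rw [hc1]; group
    · rintro ⟨⟨⟨c, hc⟩, ⟨w, hw⟩⟩, hcw⟩
      have h1 : c * g0 * w = g := congrArg Subtype.val hcw
      apply Subtype.ext
      apply Prod.ext
      · apply Subtype.ext
        change g * (n⁻¹ * w)⁻¹ * g⁻¹ * c1 = c
        rw [hc1, ← h1]; group
      · apply Subtype.ext
        change n * (n⁻¹ * w) = w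
        group
    · rintro ⟨x, hx, hx2⟩
      apply Subtype.ext
      change n⁻¹ * (n * x) = x
      group
  rw [← Nat.card_prod, Nat.card_congr (Equiv.sigmaFiberEquiv f).symm, Nat.card_sigma]
  exact Finset.sum_congr rfl fun g _ => Nat.card_congr (Classical.choice (hfib g))

/-- the elements of order a power of `p` are conjugate to elements of `P` -/
theorem exists_conj [Fact p.Prime] (P : Sylow p G) {u : G}
    (hu : u ^ p ^ (Nat.card G).factorization p = 1) : ∃ g : G, g⁻¹ * u * g ∈ P := by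
  have h1 : IsPGroup p (Subgroup.zpowers u) := by
    rintro ⟨x, k, rfl⟩
    refine ⟨(Nat.card G).factorization p, Subtype.ext ?_⟩
    change (u ^ k) ^ p ^ (Nat.card G).factorization p = 1
    rw [← zpow_natCast, zpow_comm, zpow_natCast, hu, one_zpow]
  obtain ⟨Q, hQ⟩ := h1.exists_le_sylow
  obtain ⟨g, hg⟩ := MulAction.exists_smul_eq G P Q
  refine ⟨g, ?_⟩
  have h2 : u ∈ (g • P : Sylow p G) := by
    rw [hg]
    exact hQ (Subgroup.mem_zpowers u)
  have h3 : u ∈ MulAut.conj g • (P : Subgroup G) := h2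
  rw [Subgroup.mem_pointwise_smul_iff_inv_smul_mem] at h3
  have h4 : (MulAut.conj g)⁻¹ • u = g⁻¹ * u * g := by
    rw [← map_inv, MulAut.smul_def, MulAut.conj_apply, inv_inv]
  rw [h4] at h3
  exact h3

end

theorem done : S_AEQ := by
  classical
  intro G _ _ p _ P hab
  have hp : p.Prime := Fact.out
  haveI := Fintype.ofFinite G
  haveI : Fintype {u : G // u ^ p ^ (Nat.card G).factorization p = 1} := Fintype.ofFinite _
  haveI : Fintype {v : G // v ∈ P} := Fintype.ofFinite _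
  haveI : ∀ u : G, Fintype {g : G // g⁻¹ * u * g ∈ P} := fun u => Fintype.ofFinite _
  rw [finsum_eq_sum_of_fintype]
  set W := Subgroup.normalizer (P : Set G) with hW
  let T : G → ℚ := fun v => (regs (Subgroup.centralizer {v}) p : ℚ) *
    Nat.card {x : G // x ∈ W ∧ x * v = v * x} / Nat.card (Subgroup.centralizer {v})
  have hPu : ∀ v ∈ P, ∀ g : G, (g * v * g⁻¹) ^ p ^ (Nat.card G).factorization p = 1 := by
    intro v hv g
    have hPc : Nat.card P = p ^ (Nat.card G).factorization p := P.card_eq_multiplicity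
    rw [conj_pow, ← hPc]
    have : v ^ Nat.card P = 1 := congrArg Subtype.val (pow_card_eq_one' (x := (⟨v, hv⟩ : P)))
    rw [this, mul_one, mul_inv_cancel]
  -- the pairs
  let E : G × {v : G // v ∈ P} ≃ Σ u : {u : G // u ^ p ^ (Nat.card G).factorization p = 1},
      {g : G // g⁻¹ * (u : G) * g ∈ P} :=
    { toFun := fun x => ⟨⟨x.1 * x.2 * x.1⁻¹, hPu _ x.2.2 _⟩, ⟨x.1, by
        have : x.1⁻¹ * (x.1 * x.2 * x.1⁻¹) * x.1 = (x.2 : G) := by group
        change x.1⁻¹ * (x.1 * x.2 * x.1⁻¹) * x.1 ∈ P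
        rw [this]; exact x.2.2⟩⟩
      invFun := fun y => (y.2, ⟨_, y.2.2⟩)
      left_inv := by
        rintro ⟨g, v, hv⟩
        apply Prod.ext
        · rfl
        · apply Subtype.ext
          change g⁻¹ * (g * v * g⁻¹) * g = v
          group
      right_inv := by
        rintro ⟨⟨u, hu⟩, ⟨g, hg⟩⟩
        have key : ∀ (u' : G) (hu' : u' ^ p ^ (Nat.card G).factorization p = 1)
            (hg' : g⁻¹ * u' * g ∈ P), u' = u →
            (⟨⟨u', hu'⟩, ⟨g, hg'⟩⟩ : Σ u : {u : G // u ^ p ^ (Nat.card G).factorization p = 1},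
              {g : G // g⁻¹ * (u : G) * g ∈ P}) = ⟨⟨u, hu⟩, ⟨g, hg⟩⟩ := by
          intro u' _ _ h
          subst h
          rfl
        apply key
        change g * (g⁻¹ * u * g) * g⁻¹ = u
        group }
  have h1 : ∑ x : G × {v : G // v ∈ P}, T x.2 =
      ∑ u : {u : G // u ^ p ^ (Nat.card G).factorization p = 1},
        ∑ g : {g : G // g⁻¹ * (u : G) * g ∈ P}, T ((g : G)⁻¹ * u * g) := by
    rw [← Fintype.sum_sigma (f := fun y : (Σ u : {u : G // u ^ p ^ (Nat.card G).factorization p = 1},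
      {g : G // g⁻¹ * (u : G) * g ∈ P}) => T ((y.2 : G)⁻¹ * y.1 * y.2)), ← Equiv.sum_comp E]
    apply Finset.sum_congr rfl
    rintro ⟨g, v, hv⟩ _
    change T v = T (g⁻¹ * (g * v * g⁻¹) * g)
    congr 1
    group
  have h2 : ∀ u : {u : G // u ^ p ^ (Nat.card G).factorization p = 1},
      ∑ g : {g : G // g⁻¹ * (u : G) * g ∈ P}, T ((g : G)⁻¹ * u * g) =
        regs (Subgroup.centralizer {(u : G)}) p * Nat.card W := by
    intro u
    have h3 : ∀ g : {g : G // g⁻¹ * (u : G) * g ∈ P}, T ((g : G)⁻¹ * u * g) =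
        ((regs (Subgroup.centralizer {(u : G)}) p : ℚ) / Nat.card (Subgroup.centralizer {(u : G)})) *
          Nat.card {x : G // x ∈ W ∧ x * ((g : G)⁻¹ * u * g) = ((g : G)⁻¹ * u * g) * x} := by
      intro g
      obtain ⟨e⟩ := exists_cent_equiv (u : G) (g : G)
      simp only [T]
      rw [← regs_congr e p, ← Nat.card_congr e.toEquiv]
      ring
    rw [Finset.sum_congr rfl fun g _ => h3 g, ← Finset.mul_sum]
    have h4 := card_pairs P hab (u : G) (exists_conj P u.2)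
    have h5 : (∑ g : {g : G // g⁻¹ * (u : G) * g ∈ P},
        (Nat.card {x : G // x ∈ W ∧ x * ((g : G)⁻¹ * u * g) = ((g : G)⁻¹ * u * g) * x} : ℚ)) =
        Nat.card (Subgroup.centralizer {(u : G)}) * Nat.card W := by
      exact_mod_cast h4.symm
    rw [h5]
    have h6 : (Nat.card (Subgroup.centralizer {(u : G)}) : ℚ) ≠ 0 := by
      exact_mod_cast Nat.card_pos.ne'
    field_simp
  rw [Finset.sum_congr rfl fun u _ => h2 u, ← Finset.sum_mul, Fintype.sum_prod_type] at h1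
  have h7 : (∑ u : {u : G // u ^ p ^ (Nat.card G).factorization p = 1},
      (regs (Subgroup.centralizer {(u : G)}) p : ℚ)) = Nat.card G := by
    have := card_eq' (G := G) hp
    exact_mod_cast this.symm
  rw [h7] at h1
  simp only [Finset.sum_const, Finset.card_univ, nsmul_eq_mul] at h1
  rw [← Nat.card_eq_fintype_card] at h1
  have h8 : (Nat.card G : ℚ) ≠ 0 := by exact_mod_cast Nat.card_pos.ne'
  exact (mul_left_cancel₀ h8 h1).symm

end Pool.Agent.Y536.OP.AEQ
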