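import Pool.Agent.Y536.OP.Stm

/-! Project OP, job AINT: the number of elements of order prime to `p`, abelian Sylow subgroup. -/

set_option autoImplicit false
set_option linter.unusedSectionVars false
set_option linter.style.haveILetI false

namespace Pool.Agent.Y536.OP.AINT

open Finset

theorem fs_eq {G : Type} [Fintype G] (q : G → Prop) [DecidablePred q] (f : G → ℚ) :
    ∑ᶠ x : {x : G // q x}, f x = ∑ x ∈ univ.filter q, f x := by
  classical
  rw [finsum_eq_sum_of_fintype]
  exact (Finset.sum_subtype (univ.filter q) (by simp) f).symm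

theorem nc_eq {G : Type} [Fintype G] (q : G → Prop) [DecidablePred q] :
    Nat.card {x : G // q x} = (univ.filter q).card := by
  rw [Nat.card_eq_fintype_card, Fintype.card_subtype]

section
variable {G : Type} [Group G] [Finite G] {p : ℕ}

/-- the normalizer of `P` in a subgroup `H` -/
theorem mem_norm (P : Sylow p G) (H : Subgroup G) (hPH : (P : Subgroup G) ≤ H) (x : H) :
    x ∈ Subgroup.normalizer ((P.subtype hPH : Sylow p H) : Set H) ↔
      (x : G) ∈ Subgroup.normalizer (P : Set G) := by
  have hmem : ∀ u : H, u ∈ ((P.subtype hPH : Sylow p H) : Set H) ↔ (u : G) ∈ (P : Set G) := by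
    intro u
    change u ∈ ((P.subtype hPH : Sylow p H) : Subgroup H) ↔ _
    rw [Sylow.coe_subtype, Subgroup.mem_subgroupOf]
    rfl
  have e1 : x ∈ Subgroup.normalizer ((P.subtype hPH : Sylow p H) : Set H) ↔
      ∀ u : H, u ∈ ((P.subtype hPH : Sylow p H) : Set H) ↔
        x * u * x⁻¹ ∈ ((P.subtype hPH : Sylow p H) : Set H) := Iff.rfl
  have e2 : (x : G) ∈ Subgroup.normalizer (P : Set G) ↔
      ∀ u : G, u ∈ (P : Set G) ↔ (x : G) * u * (x : G)⁻¹ ∈ (P : Set G) := Iff.rfl
  rw [e1, e2]
  constructor
  · intro h u
    by_cases hu : u ∈ H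
    · have := h ⟨u, hu⟩
      rw [hmem, hmem] at this
      exact this
    · constructor
      · exact fun h1 => absurd (hPH h1) hu
      · intro h1
        exfalso
        apply hu
        have h2 := H.mul_mem (H.mul_mem (H.inv_mem x.2) (hPH h1)) x.2
        have h3 : (x : G)⁻¹ * ((x : G) * u * (x : G)⁻¹) * x = u := by group
        rwa [h3] at h2
  · intro h u
    rw [hmem, hmem]
    exact h u

theorem card_fix (P : Sylow p G) (H : Subgroup G) (hPH : (P : Subgroup G) ≤ H) (x : H) :
    Nat.card {u : H // u ∈ (P.subtype hPH : Sylow p H) ∧ x * u = u * x} =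
      Nat.card {u : G // u ∈ P ∧ (x : G) * u = u * x} := by
  have hmem : ∀ u : H, u ∈ (P.subtype hPH : Sylow p H) ↔ (u : G) ∈ P := by
    intro u
    change u ∈ ((P.subtype hPH : Sylow p H) : Subgroup H) ↔ _
    rw [Sylow.coe_subtype, Subgroup.mem_subgroupOf]
    rfl
  apply Nat.card_congr
  refine ⟨fun u => ⟨(u : H), (hmem _).1 u.2.1, congrArg Subtype.val u.2.2⟩,
    fun u => ⟨⟨(u : G), hPH u.2.1⟩, (hmem _).2 u.2.1, Subtype.ext u.2.2⟩, ?_, ?_⟩
  · intro u; rfl
  · intro u; rfl

/-- the equivalence of the normalizer of `P` in `H` with a subset of the normalizer of `P` -/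
theorem exists_e (P : Sylow p G) (H : Subgroup G) (hPH : (P : Subgroup G) ≤ H) :
    ∃ e : Subgroup.normalizer ((P.subtype hPH : Sylow p H) : Set H) ≃
      {x : G // x ∈ Subgroup.normalizer (P : Set G) ∧ x ∈ H}, ∀ x, (e x : G) = ((x : H) : G) :=
  ⟨⟨fun x => ⟨(x : H), (mem_norm P H hPH x).1 x.2, (x : H).2⟩,
    fun x => ⟨⟨(x : G), x.2.2⟩, (mem_norm P H hPH _).2 x.2.1⟩, fun _ => rfl, fun _ => rfl⟩,
    fun _ => rfl⟩

end

theorem done (hA : S_AEQ) : S_AINT := by
  classical
  have key : ∀ (n : ℕ) (G : Type) [Group G] [Finite G] (p : ℕ) [Fact p.Prime] (P : Sylow p G),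
      Nat.card G ≤ n → (∀ x ∈ P, ∀ y ∈ P, x * y = y * x) →
      (Nat.card (Subgroup.normalizer (P : Set G)) : ℚ) * regs G p =
      (Nat.card G : ℚ) * ∑ᶠ x : Subgroup.normalizer (P : Set G),
        1 / (Nat.card {u : G // u ∈ P ∧ (x : G) * u = u * x} : ℚ) := by
    intro n
    induction n with
    | zero =>
      intro G _ _ p _ P h
      have := Nat.card_pos (α := G)
      omega
    | succ n ih =>
      intro G _ _ p _ P hG hab
      haveI := Fintype.ofFinite G
      set W := Subgroup.normalizer (P : Set G) with hW
      let cp : G → ℚ := fun x => (Nat.card {u : G // u ∈ P ∧ x * u = u * x} : ℚ)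
      let T : G → ℚ := fun v => (regs (Subgroup.centralizer {v}) p : ℚ) *
        Nat.card {x : G // x ∈ W ∧ x * v = v * x} / Nat.card (Subgroup.centralizer {v})
      let S : G → ℚ := fun v => ∑ x ∈ univ.filter (fun x => x ∈ W ∧ x * v = v * x), 1 / cp x
      have hcp : ∀ x, cp x ≠ 0 := by
        intro x
        have : Nonempty {u : G // u ∈ P ∧ x * u = u * x} := ⟨⟨1, P.one_mem, by simp⟩⟩
        simp only [cp]
        exact_mod_cast Nat.card_pos.ne'
      -- the sum of `T`
      have hT : ∑ v ∈ univ.filter (fun v => v ∈ P), T v = Nat.card W := by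
        have h1 := hA G p P hab
        rw [← hW] at h1
        rw [h1]
        exact (fs_eq (fun v => v ∈ P) T).symm
      -- the sum of `S`
      have hS : ∑ v ∈ univ.filter (fun v => v ∈ P), S v = Nat.card W := by
        simp only [S, Finset.sum_filter]
        have h1 : ∀ v : G, (if v ∈ P then ∑ x : G, (if x ∈ W ∧ x * v = v * x then 1 / cp x else 0)
            else 0) = ∑ x : G, (if x ∈ W then (if v ∈ P ∧ x * v = v * x then 1 / cp x else 0)
              else 0) := by
          intro v
          by_cases hv : v ∈ P
          · rw [if_pos hv]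
            apply Finset.sum_congr rfl
            intro x _
            by_cases hx : x ∈ W <;> simp [hx, hv]
          · rw [if_neg hv]
            symm
            apply Finset.sum_eq_zero
            intro x _
            simp [hv]
        rw [Finset.sum_congr rfl fun v _ => h1 v, Finset.sum_comm]
        have h2 : ∀ x : G, ∑ v : G, (if x ∈ W then (if v ∈ P ∧ x * v = v * x then 1 / cp x else 0)
              else 0) = (if x ∈ W then 1 else 0) := by
          intro x
          by_cases hx : x ∈ W
          · simp only [if_pos hx]
            rw [← Finset.sum_filter, Finset.sum_const, nsmul_eq_mul, ← nc_eq]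
            exact mul_one_div_cancel (hcp x)
          · simp only [if_neg hx]
            exact Finset.sum_const_zero
        rw [Finset.sum_congr rfl fun x _ => h2 x, ← Finset.sum_filter, Finset.sum_const,
          nsmul_eq_mul, mul_one, ← nc_eq]
      -- the terms with a proper centralizer
      have hprop : ∀ v ∈ P, Subgroup.centralizer {v} ≠ ⊤ → T v = S v := by
        intro v hv hne
        set H := Subgroup.centralizer {v} with hH
        have hPH : (P : Subgroup G) ≤ H := by
          intro x hx
          rw [hH, Subgroup.mem_centralizer_singleton_iff]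
          exact hab x hx v hv
        have hlt : Nat.card H ≤ n := by
          have h1 : Nat.card H ≠ Nat.card G := fun h => hne (Subgroup.card_eq_iff_eq_top H |>.1 h)
          have h2 := Subgroup.card_le_card_group H
          omega
        have h1 := ih H p (P.subtype hPH) hlt (by
          intro x hx y hy
          have hmem : ∀ u : H, u ∈ (P.subtype hPH : Sylow p H) → (u : G) ∈ P := by
            intro u hu
            change u ∈ ((P.subtype hPH : Sylow p H) : Subgroup H) at hu
            rw [Sylow.coe_subtype, Subgroup.mem_subgroupOf] at hu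
            exact hu
          exact Subtype.ext (hab x (hmem x hx) y (hmem y hy)))
        obtain ⟨e, he⟩ := exists_e P H hPH
        have h2 : (∑ᶠ x : Subgroup.normalizer ((P.subtype hPH : Sylow p H) : Set H),
            1 / (Nat.card {u : H // u ∈ (P.subtype hPH : Sylow p H) ∧ (x : H) * u = u * x} : ℚ)) =
            ∑ᶠ x : {x : G // x ∈ W ∧ x ∈ H}, 1 / cp x := by
          rw [← finsum_comp_equiv e]
          apply finsum_congr
          intro x
          rw [card_fix P H hPH, he]
        rw [h2, Nat.card_congr e, fs_eq (fun x => x ∈ W ∧ x ∈ H) (fun x => 1 / cp x)] at h1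
        have h3 : ∀ x : G, x ∈ H ↔ x * v = v * x := fun x => by
          rw [hH, Subgroup.mem_centralizer_singleton_iff]
        have h4 : (univ.filter fun x => x ∈ W ∧ x ∈ H) = univ.filter fun x => x ∈ W ∧ x * v = v * x := by
          ext x; simp [h3]
        rw [nc_eq, h4] at h1
        have h5 : (Nat.card H : ℚ) ≠ 0 := by exact_mod_cast Nat.card_pos.ne'
        simp only [T, S]
        rw [← hH, div_eq_iff h5, mul_comm _ (Nat.card H : ℚ), ← h1, nc_eq, mul_comm]
      -- the central terms
      have hcent : ∀ v ∈ P, Subgroup.centralizer {v} = ⊤ → T v = T 1 ∧ S v = S 1 := by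
        intro v hv htop
        have h1 : Subgroup.centralizer {v} = Subgroup.centralizer {(1 : G)} := by
          rw [htop]
          symm
          rw [Subgroup.eq_top_iff']
          intro x
          rw [Subgroup.mem_centralizer_singleton_iff, mul_one, one_mul]
        have h2 : ∀ x : G, x * v = v * x ↔ x * 1 = 1 * x := by
          intro x
          have : x ∈ Subgroup.centralizer {v} := by rw [htop]; exact Subgroup.mem_top x
          rw [Subgroup.mem_centralizer_singleton_iff] at this
          simp [this]
        constructor
        · simp only [T]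
          rw [h1]
          simp only [h2]
        · simp only [S, h2]
      -- conclusion
      have hsum : ∑ v ∈ univ.filter (fun v => v ∈ P), (T v - S v) = 0 := by
        rw [Finset.sum_sub_distrib, hT, hS, sub_self]
      have h1 : ∀ v ∈ univ.filter (fun v => v ∈ P), T v - S v =
          if Subgroup.centralizer {v} = ⊤ then T 1 - S 1 else 0 := by
        intro v hv
        have hv' := (Finset.mem_filter.1 hv).2
        by_cases h : Subgroup.centralizer {v} = ⊤
        · rw [if_pos h, (hcent v hv' h).1, (hcent v hv' h).2]
        · rw [if_neg h, hprop v hv' h, sub_self]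
      rw [Finset.sum_congr rfl h1, ← Finset.sum_filter, Finset.sum_const, nsmul_eq_mul] at hsum
      have h2 : ((((univ.filter fun v => v ∈ P).filter
          fun v => Subgroup.centralizer {v} = ⊤).card : ℕ) : ℚ) ≠ 0 := by
        have : 0 < ((univ.filter fun v => v ∈ P).filter
            fun v => Subgroup.centralizer {v} = ⊤).card := by
          apply Finset.card_pos.2
          refine ⟨1, ?_⟩
          rw [Finset.mem_filter, Finset.mem_filter]
          refine ⟨⟨Finset.mem_univ _, P.one_mem⟩, ?_⟩
          rw [Subgroup.eq_top_iff']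
          intro x
          rw [Subgroup.mem_centralizer_singleton_iff, mul_one, one_mul]
        exact_mod_cast this.ne'
      have h3 : T 1 = S 1 := by
        have := (mul_eq_zero.1 hsum).resolve_left h2
        linarith
      have h4 : Subgroup.centralizer {(1 : G)} = ⊤ := by
        rw [Subgroup.eq_top_iff']
        intro x
        rw [Subgroup.mem_centralizer_singleton_iff, mul_one, one_mul]
      have h5 : S 1 = ∑ᶠ x : W, 1 / cp x := by
        have := fs_eq (fun x => x ∈ W) (fun x => 1 / cp x)
        rw [show (∑ᶠ x : W, 1 / cp x) = ∑ᶠ x : {x : G // x ∈ W}, 1 / cp x from rfl, this]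
        simp only [S]
        apply Finset.sum_congr _ fun _ _ => rfl
        ext x; simp
      have h6 : T 1 = (Nat.card W : ℚ) * regs G p / Nat.card G := by
        simp only [T]
        have e1 : regs (Subgroup.centralizer {(1 : G)}) p = regs G p := by
          rw [h4]
          unfold regs
          apply Nat.card_congr
          refine Subgroup.topEquiv.toEquiv.subtypeEquiv fun h => ?_
          have : orderOf (Subgroup.topEquiv h) = orderOf h := MulEquiv.orderOf_eq _ h
          change _ ↔ ¬ p ∣ orderOf (Subgroup.topEquiv h)
          rw [this]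
        have e2 : Nat.card (Subgroup.centralizer {(1 : G)}) = Nat.card G := by
          rw [h4, Subgroup.card_top]
        have e3 : Nat.card {x : G // x ∈ W ∧ x * 1 = 1 * x} = Nat.card W := by
          apply Nat.card_congr
          apply Equiv.subtypeEquivRight
          intro x
          simp
        rw [e1, e2, e3]
        ring
      rw [h6, h5] at h3
      have h7 : (Nat.card G : ℚ) ≠ 0 := by exact_mod_cast Nat.card_pos.ne'
      rw [div_eq_iff h7, mul_comm _ (Nat.card G : ℚ)] at h3
      exact h3
  intro G _ _ p _ P hab
  exact key _ G p P le_rfl hab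

end Pool.Agent.Y536.OP.AINT
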