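import Pool.Agent.Y536.OP.QUO1

/-! Project OP, job QUO2: normal abelian subgroups of order a power of `p`. -/

set_option autoImplicit false
set_option linter.unusedSectionVars false
set_option linter.style.haveILetI false

namespace Pool.Agent.Y536.OP.QUO2

open Finset Pool.Agent.Y536.OP.QUO1

section
variable {G : Type} [Group G] [Finite G] {p : ℕ}

/-- lifts of elements of order prime to `p` -/
theorem exists_lift (hp : p.Prime) (N : Subgroup G) [N.Normal] (x : G ⧸ N) (hx : ¬ p ∣ orderOf x) :
    ∃ g : G, (g : G ⧸ N) = x ∧ ¬ p ∣ orderOf g := by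
  obtain ⟨s, t, -, -, ht1, ht2, -⟩ := exists_st hp (n := Nat.card G) Nat.card_pos.ne'
  obtain ⟨g, rfl⟩ := QuotientGroup.mk_surjective x
  set q := p ^ (Nat.card G).factorization p with hq
  set m := Nat.card G / q with hm
  have hqm : q * m = Nat.card G := Nat.ordProj_mul_ordCompl_eq_self _ _
  refine ⟨g ^ t, ?_, ?_⟩
  · rw [QuotientGroup.mk_pow]
    have h1 : orderOf (g : G ⧸ N) ∣ m := by
      have h2 : orderOf (g : G ⧸ N) ∣ q * m := by
        rw [hqm]
        exact (ord_quot_dvd N g).trans (orderOf_dvd_natCard g)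
      exact Nat.Coprime.dvd_of_dvd_mul_left
        (Nat.Coprime.pow_right _ ((hp.coprime_iff_not_dvd).2 hx).symm) h2
    have : (g : G ⧸ N) ^ t = (g : G ⧸ N) ^ 1 := pow_eq_pow_iff_modEq.2 (ht2.of_dvd h1)
    rwa [pow_one] at this
  · apply not_dvd_of hp
    obtain ⟨k, hk⟩ := ht1
    change (g ^ t) ^ m = 1
    rw [← pow_mul, hk, show q * k * m = Nat.card G * k by rw [← hqm]; ring, pow_mul,
      pow_card_eq_one', one_pow]

/-- the part of the order prime to `p` -/
theorem ordCompl_eq (hp : p.Prime) (N : Subgroup G) [N.Normal] (hN : ∃ a, Nat.card N = p ^ a) :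
    Nat.card G / p ^ (Nat.card G).factorization p =
      Nat.card (G ⧸ N) / p ^ (Nat.card (G ⧸ N)).factorization p := by
  obtain ⟨a, ha⟩ := hN
  rw [card_mul N, Nat.ordCompl_mul, ha]
  have : p ^ a / p ^ (p ^ a).factorization p = 1 := by
    rw [hp.factorization_pow, Finsupp.single_eq_same, Nat.div_self (pow_pos hp.pos _)]
  rw [this, mul_one]

theorem regs_eq [Fintype G] : (open Classical in regs G p = (univ.filter fun g : G => ¬ p ∣ orderOf g).card) := by
  classical
  unfold regs
  rw [Nat.card_eq_fintype_card, Fintype.card_subtype]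

/-- a product of two elements of order prime to `p` -/
theorem mul_reg (hp : p.Prime) {x y : G} (hx : ¬ p ∣ orderOf x) (hy : ¬ p ∣ orderOf y)
    (hc : Commute x y) : ¬ p ∣ orderOf (x * y) := by
  intro h
  have h1 := h.trans (hc.orderOf_mul_dvd_mul_orderOf)
  rcases hp.dvd_mul.1 h1 with h2 | h2
  · exact hx h2
  · exact hy h2

/-- central extensions -/
theorem central (hp : p.Prime) (Z : Subgroup G) (hZ : Z ≤ Subgroup.center G)
    (hq : ∀ g : G, ∃ k, ¬ p ∣ k ∧ g ^ k ∈ Z) {x y : G} (hx : ¬ p ∣ orderOf x)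
    (hy : ¬ p ∣ orderOf y) : ¬ p ∣ orderOf (x * y) := by
  haveI : Fact p.Prime := ⟨hp⟩
  set i := (Subgroup.center G).index with hi
  have hpi : ¬ p ∣ i := by
    intro hd
    rw [hi, Subgroup.index_eq_card] at hd
    obtain ⟨w, hw⟩ := exists_prime_orderOf_dvd_card' p hd
    obtain ⟨g, rfl⟩ := QuotientGroup.mk_surjective w
    obtain ⟨k, hk1, hk2⟩ := hq g
    have h1 : (g : G ⧸ Subgroup.center G) ^ k = 1 := by
      rw [← QuotientGroup.mk_pow, QuotientGroup.eq_one_iff]
      exact hZ hk2
    have h2 := orderOf_dvd_of_pow_eq_one h1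
    rw [hw] at h2
    exact hk1 h2
  have h1 : (x * y) ^ i = x ^ i * y ^ i := by
    have h := congrArg Subtype.val (map_mul (MonoidHom.transferCenterPow G) x y)
    rw [Subgroup.coe_mul, MonoidHom.transferCenterPow_apply, MonoidHom.transferCenterPow_apply,
      MonoidHom.transferCenterPow_apply] at h
    exact h
  have h2 : ¬ p ∣ orderOf ((x * y) ^ i) := by
    rw [h1]
    apply mul_reg hp
    · exact fun h => hx (h.trans (orderOf_pow_dvd i))
    · exact fun h => hy (h.trans (orderOf_pow_dvd i))
    · have h3 : x ^ i ∈ Subgroup.center G := by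
        have := (MonoidHom.transferCenterPow G x).2
        rwa [MonoidHom.transferCenterPow_apply] at this
      exact (Subgroup.mem_center_iff.1 h3 (y ^ i)).symm
  intro h
  have h3 : (x * y) ^ (i * orderOf ((x * y) ^ i)) = 1 := by
    rw [pow_mul, pow_orderOf_eq_one]
  rcases hp.dvd_mul.1 (h.trans (orderOf_dvd_of_pow_eq_one h3)) with h4 | h4
  · exact hpi h4
  · exact h2 h4

/-- the commutator homomorphism -/
theorem fiber_ge (hp : p.Prime) (N : Subgroup G) [N.Normal] (hN : ∃ a, Nat.card N = p ^ a)
    (hab : ∀ x ∈ N, ∀ y ∈ N, x * y = y * x) {g : G} (hg : ¬ p ∣ orderOf g)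
    (hc : ¬ ∀ x ∈ N, x * g = g * x) :
    p ≤ Nat.card {g' : G // (g' : G ⧸ N) = (g : G ⧸ N) ∧ ¬ p ∣ orderOf g'} := by
  classical
  have hnorm : N.Normal := inferInstance
  let c : N →* N :=
    { toFun := fun x => ⟨(x : G) * (g * (x : G)⁻¹ * g⁻¹), N.mul_mem x.2 (hnorm.conj_mem _ (N.inv_mem x.2) g)⟩
      map_one' := by ext; simp
      map_mul' := by
        intro x y
        ext
        simp only [Subgroup.coe_mul, mul_inv_rev]
        have h1 : g * (y : G)⁻¹ * g⁻¹ ∈ N := hnorm.conj_mem _ (N.inv_mem y.2) g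
        have h2 : g * (x : G)⁻¹ * g⁻¹ ∈ N := hnorm.conj_mem _ (N.inv_mem x.2) g
        calc (x : G) * (y : G) * (g * ((y : G)⁻¹ * (x : G)⁻¹) * g⁻¹)
            = (x : G) * ((y : G) * (g * (y : G)⁻¹ * g⁻¹)) * (g * (x : G)⁻¹ * g⁻¹) := by group
          _ = (x : G) * (((y : G) * (g * (y : G)⁻¹ * g⁻¹)) * (g * (x : G)⁻¹ * g⁻¹)) := by group
          _ = (x : G) * ((g * (x : G)⁻¹ * g⁻¹) * ((y : G) * (g * (y : G)⁻¹ * g⁻¹))) := by
              rw [hab _ (N.mul_mem y.2 h1) _ h2]
          _ = (x : G) * (g * (x : G)⁻¹ * g⁻¹) * ((y : G) * (g * (y : G)⁻¹ * g⁻¹)) := by group }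
  have hne : c.range ≠ ⊥ := by
    intro hb
    apply hc
    intro x hx
    have h1 : c ⟨x, hx⟩ ∈ c.range := ⟨_, rfl⟩
    rw [hb, Subgroup.mem_bot] at h1
    have h2 : x * (g * x⁻¹ * g⁻¹) = 1 := congrArg Subtype.val h1
    have h3 : x * g = (x * (g * x⁻¹ * g⁻¹)) * g * x := by group
    rw [h3, h2, one_mul]
  have hpc : p ≤ Nat.card c.range := by
    obtain ⟨a, ha⟩ := hN
    obtain ⟨b, -, hb⟩ := (Nat.dvd_prime_pow hp).1 (ha ▸ Subgroup.card_subgroup_dvd_card c.range)
    rw [hb]
    apply Nat.le_self_pow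
    rintro rfl
    rw [pow_zero] at hb
    exact hne (Subgroup.card_eq_one.1 hb)
  refine hpc.trans ?_
  apply Nat.card_le_card_of_injective
    (fun y : c.range => (⟨((y : N) : G) * g, ?_⟩ : {g' : G // (g' : G ⧸ N) = (g : G ⧸ N) ∧ ¬ p ∣ orderOf g'}))
  · intro y z h
    have h1 := congrArg Subtype.val h
    have h2 : ((y : N) : G) = ((z : N) : G) := mul_right_cancel h1
    exact Subtype.ext (Subtype.ext h2)
  · obtain ⟨⟨y, hy⟩, ⟨⟨x, hx⟩, hxy⟩⟩ := y
    have hy2 : x * (g * x⁻¹ * g⁻¹) = y := congrArg Subtype.val hxy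
    change ((y * g : G) : G ⧸ N) = (g : G ⧸ N) ∧ ¬ p ∣ orderOf (y * g)
    refine ⟨?_, ?_⟩
    · rw [QuotientGroup.mk_mul, (QuotientGroup.eq_one_iff _).2 hy, one_mul]
    · have h1 : y * g = x * g * x⁻¹ := by
        rw [← hy2]
        group
      rw [h1]
      have := orderOf_injective (MulAut.conj x).toMonoidHom (MulAut.conj x).injective g
      rw [show (MulAut.conj x).toMonoidHom g = x * g * x⁻¹ from rfl] at this
      rwa [this]

end

theorem done : S_QUO2 := by
  classical
  intro G _ _ p hp N _ hN hab hD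
  haveI := Fintype.ofFinite G
  haveI := Fintype.ofFinite (G ⧸ N)
  rcases hD with ⟨K, hK⟩ | hD
  · by_cases hall : ∀ g : G, ¬ p ∣ orderOf g → ∀ x ∈ N, x * g = g * x
    · -- all elements of order prime to `p` centralize `N`
      left
      set L : Subgroup G := K.comap (QuotientGroup.mk' N) with hL
      have hmem : ∀ g : G, ¬ p ∣ orderOf g → g ∈ L := by
        intro g hg
        rw [hL, Subgroup.mem_comap, QuotientGroup.mk'_apply, hK]
        exact fun h => hg (h.trans (ord_quot_dvd N g))
      have hcen : N.subgroupOf L ≤ Subgroup.center L := by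
        rintro ⟨x, hxL⟩ hx
        rw [Subgroup.mem_subgroupOf] at hx
        rw [Subgroup.mem_center_iff]
        rintro ⟨y, hyL⟩
        apply Subtype.ext
        change y * x = x * y
        rw [hL, Subgroup.mem_comap, QuotientGroup.mk'_apply, hK] at hyL
        obtain ⟨g, hg1, hg2⟩ := exists_lift hp N _ hyL
        have h1 : g⁻¹ * y ∈ N := QuotientGroup.eq.1 hg1
        have h2 : y = g * (g⁻¹ * y) := by group
        rw [h2, mul_assoc, hab _ h1 _ hx, ← mul_assoc, ← hall g hg2 x hx, mul_assoc, ← mul_assoc g,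
          mul_assoc]
      have hclos : ∀ x y : G, ¬ p ∣ orderOf x → ¬ p ∣ orderOf y → ¬ p ∣ orderOf (x * y) := by
        intro x y hx hy
        have := central hp (N.subgroupOf L) hcen (x := ⟨x, hmem x hx⟩) (y := ⟨y, hmem y hy⟩)
          (by
            rintro ⟨g, hgL⟩
            have h1 := hgL
            rw [hL, Subgroup.mem_comap, QuotientGroup.mk'_apply, hK] at h1
            refine ⟨orderOf (g : G ⧸ N), h1, ?_⟩
            rw [Subgroup.mem_subgroupOf]
            change g ^ orderOf (g : G ⧸ N) ∈ N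
            rw [← QuotientGroup.eq_one_iff, QuotientGroup.mk_pow, pow_orderOf_eq_one])
          (by rwa [← Subgroup.orderOf_coe]) (by rwa [← Subgroup.orderOf_coe])
        rw [← Subgroup.orderOf_coe] at this
        exact this
      refine ⟨{ carrier := {g | ¬ p ∣ orderOf g}
                mul_mem' := fun {a b} ha hb => hclos a b ha hb
                one_mem' := ?_
                inv_mem' := ?_ }, fun g => Iff.rfl⟩
      · change ¬ p ∣ orderOf (1 : G)
        rw [orderOf_one]
        exact hp.one_lt.ne' ∘ Nat.dvd_one.1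
      · intro x hx
        change ¬ p ∣ orderOf x⁻¹
        rw [orderOf_inv]
        exact hx
    · -- the other case
      right
      push Not at hall
      obtain ⟨g0, hg0, x0, hx0, hne0⟩ := hall
      rw [ordCompl_eq hp N hN, ← card_K hp K hK]
      set M : Subgroup (G ⧸ N) := (Subgroup.centralizer (N : Set G)).map (QuotientGroup.mk' N) ⊓ K
        with hM
      have hMK : M ≤ K := inf_le_right
      have hcentr : ∀ g : G, (g : G ⧸ N) ∈ M → ∀ x ∈ N, x * g = g * x := by
        intro g hg x hx
        obtain ⟨⟨c, hc, hc2⟩, -⟩ := Subgroup.mem_inf.1 hg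
        have hc3 : c⁻¹ * g ∈ N := QuotientGroup.eq.1 hc2
        have h2 : g = c * (c⁻¹ * g) := by group
        have h3 : x * c = c * x := (Subgroup.mem_centralizer_iff.1 hc) x hx
        calc x * g = x * c * (c⁻¹ * g) := by rw [mul_assoc, ← h2]
          _ = c * (x * (c⁻¹ * g)) := by rw [h3, mul_assoc]
          _ = c * ((c⁻¹ * g) * x) := by rw [hab x hx _ hc3]
          _ = g * x := by rw [← mul_assoc, ← h2]
      have hMne : M ≠ K := by
        intro he
        apply hne0
        apply hcentr g0 _ x0 hx0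
        rw [he, hK]
        exact fun h => hg0 (h.trans (ord_quot_dvd N g0))
      have hMc : 2 * Nat.card M ≤ Nat.card K := by
        obtain ⟨k, hk⟩ := Subgroup.card_dvd_of_le hMK
        have h1 : Nat.card M ≠ Nat.card K := fun he =>
          hMne (Subgroup.eq_of_le_of_card_ge hMK he.symm.le)
        have h2 : 0 < Nat.card K := Nat.card_pos
        have h3 : 2 ≤ k := by
          by_contra h
          have : k = 0 ∨ k = 1 := by omega
          rcases this with rfl | rfl
          · omega
          · omega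
        calc 2 * Nat.card M ≤ k * Nat.card M := Nat.mul_le_mul_right _ h3
          _ = Nat.card K := by rw [hk, mul_comm]
      -- the fibers
      have hfib : ∀ x : G ⧸ N, (if x ∈ K then p else 0) ≤
          ((univ.filter fun g : G => ¬ p ∣ orderOf g).filter fun g : G => (g : G ⧸ N) = x).card +
            (if x ∈ M then p - 1 else 0) := by
        intro x
        have hcardeq : ∀ y : G ⧸ N, ((univ.filter fun g : G => ¬ p ∣ orderOf g).filter fun g : G => (g : G ⧸ N) = y).card
            = Nat.card {g' : G // (g' : G ⧸ N) = y ∧ ¬ p ∣ orderOf g'} := by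
          intro y
          rw [Nat.card_eq_fintype_card, Fintype.card_subtype, Finset.filter_filter]
          congr 1
          ext g
          simp [and_comm]
        by_cases hxK : x ∈ K
        · rw [if_pos hxK]
          obtain ⟨g, rfl, hg⟩ := exists_lift hp N x ((hK x).1 hxK)
          by_cases hxM : (g : G ⧸ N) ∈ M
          · rw [if_pos hxM]
            have : 0 < ((univ.filter fun g : G => ¬ p ∣ orderOf g).filter
                fun g' : G => (g' : G ⧸ N) = (g : G ⧸ N)).card := by
              apply Finset.card_pos.2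
              exact ⟨g, by simp [hg]⟩
            omega
          · rw [if_neg hxM, add_zero, hcardeq]
            apply fiber_ge hp N hN hab hg
            intro hc
            apply hxM
            refine Subgroup.mem_inf.2 ⟨⟨g, ?_, rfl⟩, hxK⟩
            exact Subgroup.mem_centralizer_iff.2 fun x hx => hc x hx
        · rw [if_neg hxK]
          exact Nat.zero_le _
      have hsum := Finset.sum_le_sum (s := univ) fun x _ => hfib x
      rw [Finset.sum_add_distrib] at hsum
      have e1 : ∑ x : G ⧸ N, ((univ.filter fun g : G => ¬ p ∣ orderOf g).filter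
          fun g : G => (g : G ⧸ N) = x).card = regs G p := by
        rw [regs_eq]
        exact (Finset.card_eq_sum_card_fiberwise (fun g _ => Finset.mem_coe.2 (Finset.mem_univ _))).symm
      have e2 : ∀ (H : Subgroup (G ⧸ N)) (c : ℕ), ∑ x : G ⧸ N, (if x ∈ H then c else 0) =
          c * Nat.card H := by
        intro H c
        rw [← Finset.sum_filter, Finset.sum_const, smul_eq_mul, mul_comm]
        congr 1
        rw [Nat.card_eq_fintype_card, Fintype.card_subtype]
      rw [e1, e2, e2] at hsum
      have hp1 : 1 ≤ p := hp.one_lt.le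
      obtain ⟨r, rfl⟩ : ∃ r, p = r + 1 := ⟨p - 1, by omega⟩
      rw [Nat.add_sub_cancel] at hsum
      have h5 : r * (2 * Nat.card M) ≤ r * Nat.card K := Nat.mul_le_mul_left _ hMc
      nlinarith
  · right
    rw [ordCompl_eq hp N hN]
    refine hD.trans ?_
    apply Nat.mul_le_mul_left
    unfold regs
    choose f hf1 hf2 using fun x : {x : G ⧸ N // ¬ p ∣ orderOf x} => exists_lift hp N x.1 x.2
    apply Nat.card_le_card_of_injective (fun x => (⟨f x, hf2 x⟩ : {g : G // ¬ p ∣ orderOf g}))
    intro x y h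
    have h1 : f x = f y := congrArg Subtype.val h
    apply Subtype.ext
    rw [← hf1 x, ← hf1 y, h1]

end Pool.Agent.Y536.OP.QUO2
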