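import Pool.Agent.Y536.OP.Stm

/-! Project OP, job SOL: solvable groups. -/

set_option autoImplicit false
set_option linter.unusedSectionVars false
set_option linter.style.haveILetI false

namespace Pool.Agent.Y536.OP.SOL

open scoped commutatorElement

/-- a nontrivial normal abelian subgroup -/
theorem exists_abelian (G : Type) [Group G] [Group.IsSolvable G] [Nontrivial G] :
    ∃ A : Subgroup G, A.Normal ∧ A ≠ ⊥ ∧ ∀ x ∈ A, ∀ y ∈ A, x * y = y * x := by
  classical
  have hex := (Group.isSolvable_def G).1 inferInstance
  set n := Nat.find hex with hn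
  have h0 : derivedSeries G n = ⊥ := Nat.find_spec hex
  have hpos : n ≠ 0 := by
    intro h
    rw [h, derivedSeries_zero] at h0
    exact top_ne_bot h0
  obtain ⟨k, hk⟩ := Nat.exists_eq_succ_of_ne_zero hpos
  refine ⟨derivedSeries G k, derivedSeries_normal G k, Nat.find_min hex (by omega), ?_⟩
  intro x hx y hy
  rw [hk, derivedSeries_succ] at h0
  have h1 : ⁅x, y⁆ ∈ (⊥ : Subgroup G) := by
    rw [← h0]
    exact Subgroup.commutator_mem_commutator hx hy
  rw [Subgroup.mem_bot] at h1
  exact (commutatorElement_eq_one_iff_mul_comm).1 h1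

theorem done (h1 : S_QUO1) (h2 : S_QUO2) : S_SOL := by
  classical
  have key : ∀ (n : ℕ) (G : Type) [Group G] [Finite G] [Group.IsSolvable G] (p : ℕ), p.Prime →
      Nat.card G ≤ n → Dich G p := by
    intro n
    induction n with
    | zero =>
      intro G _ _ _ p _ h
      have := Nat.card_pos (α := G)
      omega
    | succ n ih =>
      intro G _ _ _ p hp hG
      haveI : Fact p.Prime := ⟨hp⟩
      rcases subsingleton_or_nontrivial G with hs | hs
      · left
        refine ⟨⊤, fun g => ?_⟩
        rw [Subsingleton.elim g 1, orderOf_one]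
        exact ⟨fun _ => hp.one_lt.ne' ∘ Nat.dvd_one.1, fun _ => Subgroup.mem_top _⟩
      · obtain ⟨A, hA1, hA2, hA3⟩ := exists_abelian G
        haveI := hA1
        have hlt : ∀ (N : Subgroup G) [N.Normal], N ≠ ⊥ → Nat.card (G ⧸ N) ≤ n := by
          intro N _ hN
          have e1 := Subgroup.card_eq_card_quotient_mul_card_subgroup N
          have e2 : Nat.card N ≠ 1 := fun h => hN (Subgroup.card_eq_one.1 h)
          have e3 : 0 < Nat.card N := Nat.card_pos
          have e4 : 0 < Nat.card (G ⧸ N) := Nat.card_pos
          have e5 : 2 ≤ Nat.card N := by omega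
          have e6 : Nat.card (G ⧸ N) * 2 ≤ Nat.card (G ⧸ N) * Nat.card N :=
            Nat.mul_le_mul_left _ e5
          omega
        let N : Subgroup G :=
          { carrier := {x | x ∈ A ∧ x ^ p = 1}
            mul_mem' := by
              rintro a b ⟨ha, ha'⟩ ⟨hb, hb'⟩
              have hc : Commute a b := hA3 a ha b hb
              exact ⟨A.mul_mem ha hb, by rw [hc.mul_pow, ha', hb', one_mul]⟩
            one_mem' := ⟨A.one_mem, one_pow _⟩
            inv_mem' := by
              rintro a ⟨ha, ha'⟩
              exact ⟨A.inv_mem ha, by rw [inv_pow, ha', inv_one]⟩ }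
        have hNmem : ∀ x, x ∈ N ↔ x ∈ A ∧ x ^ p = 1 := fun _ => Iff.rfl
        haveI hNn : N.Normal := by
          constructor
          intro x hx g
          rw [hNmem] at hx ⊢
          exact ⟨hA1.conj_mem x hx.1 g, by rw [conj_pow, hx.2, mul_one, mul_inv_cancel]⟩
        by_cases hNb : N = ⊥
        · have hpA : ¬ p ∣ Nat.card A := by
            intro hd
            obtain ⟨x, hx⟩ := exists_prime_orderOf_dvd_card' p hd
            have hx1 : (x : G) ∈ N := by
              rw [hNmem]
              refine ⟨x.2, ?_⟩
              have := pow_orderOf_eq_one (x : G)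
              rwa [Subgroup.orderOf_coe, hx] at this
            rw [hNb, Subgroup.mem_bot] at hx1
            have : x = 1 := Subtype.ext hx1
            rw [this, orderOf_one] at hx
            exact hp.one_lt.ne hx
          exact h1 G p hp A hpA (ih (G ⧸ A) p hp (hlt A hA2))
        · have hcard : ∃ a, Nat.card N = p ^ a := by
            apply IsPGroup.iff_card.1
            intro x
            refine ⟨1, ?_⟩
            apply Subtype.ext
            have := ((hNmem _).1 x.2).2
            rw [pow_one]
            exact this
          exact h2 G p hp N hcard (fun x hx y hy => hA3 x hx.1 y hy.1)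
            (ih (G ⧸ N) p hp (hlt N hNb))
  intro G _ _ _ p hp
  exact key _ G p hp le_rfl

end Pool.Agent.Y536.OP.SOL
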