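import Pool.Agent.Y536.OP.ABL
import Pool.Agent.Y536.OP.AEQ
import Pool.Agent.Y536.OP.SOL
import Pool.Agent.Y536.OP.QUO2

/-! Project OP: groups with a solvable normal subgroup such that the quotient has abelian Sylow
subgroups. -/

set_option autoImplicit false
set_option linter.unusedSectionVars false
set_option linter.style.haveILetI false

namespace Pool.Agent.Y536.OP

open scoped commutatorElement

/-- All the subgroups of prime power order are abelian. -/
def AS (Q : Type) [Group Q] : Prop :=
  ∀ p : ℕ, p.Prime → ∀ S : Subgroup Q, IsPGroup p S → ∀ x ∈ S, ∀ y ∈ S, x * y = y * x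

/-- A solvable normal subgroup such that the quotient has abelian Sylow subgroups. -/
def Cls (G : Type) [Group G] : Prop :=
  ∃ (N : Subgroup G) (_ : N.Normal), Group.IsSolvable N ∧ AS (G ⧸ N)

theorem AS.of_injective {Q R : Type} [Group Q] [Group R] (h : AS R) (f : Q →* R)
    (hf : Function.Injective f) : AS Q := by
  intro p hp S hS x hx y hy
  apply hf
  rw [map_mul, map_mul]
  exact h p hp (S.map f) (hS.map f) _ (Subgroup.mem_map_of_mem f hx) _ (Subgroup.mem_map_of_mem f hy)

theorem Cls.sub (G : Type) [Group G] (H : Subgroup G) (h : Cls G) : Cls H := by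
  obtain ⟨N, hN, hs, ha⟩ := h
  refine ⟨N.subgroupOf H, inferInstance, ?_, ?_⟩
  · exact Group.isSolvable_of_isSolvable_injective
      (f := (Subgroup.inclusion (inf_le_left : N ⊓ H ≤ N)).comp
        (Subgroup.subgroupOfEquivOfLe (inf_le_right : N ⊓ H ≤ H)).toMonoidHom |>.comp
        (MulEquiv.subgroupCongr (Subgroup.inf_subgroupOf_right N H).symm).toMonoidHom)
      (by
        intro x y hxy
        apply Subtype.ext
        apply Subtype.ext
        exact congrArg (fun z : N => (z : G)) hxy)
  · have hker : N.subgroupOf H ≤ ((QuotientGroup.mk' N).comp H.subtype).ker := by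
      intro x hx
      rw [MonoidHom.mem_ker, MonoidHom.comp_apply, QuotientGroup.mk'_apply,
        QuotientGroup.eq_one_iff]
      exact hx
    refine ha.of_injective (QuotientGroup.lift (N.subgroupOf H)
      ((QuotientGroup.mk' N).comp H.subtype) fun x hx => hker hx) ?_
    rw [injective_iff_map_eq_one]
    intro y hy
    obtain ⟨x, rfl⟩ := QuotientGroup.mk_surjective y
    rw [QuotientGroup.lift_mk, MonoidHom.comp_apply, QuotientGroup.mk'_apply,
      QuotientGroup.eq_one_iff] at hy
    rw [QuotientGroup.eq_one_iff]
    exact hy

/-- a nontrivial characteristic abelian subgroup -/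
theorem exists_char (G : Type) [Group G] [Group.IsSolvable G] [Nontrivial G] :
    ∃ A : Subgroup G, A.Characteristic ∧ A ≠ ⊥ ∧ ∀ x ∈ A, ∀ y ∈ A, x * y = y * x := by
  classical
  have hex := (Group.isSolvable_def G).1 inferInstance
  set n := Nat.find hex with hn
  have h0 : derivedSeries G n = ⊥ := Nat.find_spec hex
  have hpos : n ≠ 0 := by
    intro h
    rw [h, derivedSeries_zero] at h0
    exact top_ne_bot h0
  obtain ⟨k, hk⟩ := Nat.exists_eq_succ_of_ne_zero hpos
  refine ⟨derivedSeries G k, derivedSeries_characteristic G k, Nat.find_min hex (by omega), ?_⟩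
  intro x hx y hy
  rw [hk, derivedSeries_succ] at h0
  have h1 : ⁅x, y⁆ ∈ (⊥ : Subgroup G) := by
    rw [← h0]
    exact Subgroup.commutator_mem_commutator hx hy
  rw [Subgroup.mem_bot] at h1
  exact (commutatorElement_eq_one_iff_mul_comm).1 h1

/-- the quotient by a subgroup of the solvable normal subgroup -/
theorem Cls_quot {G : Type} [Group G] (N M : Subgroup G) [N.Normal] [M.Normal] (hMN : M ≤ N)
    (hs : Group.IsSolvable N) (ha : AS (G ⧸ N)) :
    Group.IsSolvable (N.map (QuotientGroup.mk' M)) ∧ AS ((G ⧸ M) ⧸ N.map (QuotientGroup.mk' M)) := by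
  constructor
  · exact Group.isSolvable_of_surjective (f := (QuotientGroup.mk' M).subgroupMap N)
      (MonoidHom.subgroupMap_surjective _ _)
  · exact ha.of_injective (QuotientGroup.quotientQuotientEquivQuotient M N hMN).toMonoidHom
      (QuotientGroup.quotientQuotientEquivQuotient M N hMN).injective

theorem Cls.dich (G : Type) [Group G] [Finite G] (p : ℕ) (hp : p.Prime) (h : Cls G) : Dich G p := by
  classical
  have key : ∀ (n : ℕ) (G : Type) [Group G] [Finite G] (N : Subgroup G) [N.Normal] (p : ℕ),
      p.Prime → Nat.card G ≤ n → Group.IsSolvable N → AS (G ⧸ N) → Dich G p := by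
    intro n
    induction n with
    | zero =>
      intro G _ _ _ _ p _ h
      have := Nat.card_pos (α := G)
      omega
    | succ n ih =>
      intro G _ _ N _ p hp hG hs ha
      haveI : Fact p.Prime := ⟨hp⟩
      by_cases hNb : N = ⊥
      · subst hNb
        apply ABL.done (AINT.done AEQ.done) G p hp
        intro P x hx y hy
        have h1 : AS G := ha.of_injective (QuotientGroup.mk' (⊥ : Subgroup G)) (by
          rw [injective_iff_map_eq_one]
          intro x hx
          rw [QuotientGroup.mk'_apply, QuotientGroup.eq_one_iff, Subgroup.mem_bot] at hx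
          exact hx)
        exact h1 p hp P P.isPGroup' x hx y hy
      · haveI : Nontrivial N := (Subgroup.nontrivial_iff_ne_bot N).2 hNb
        obtain ⟨A', hA1, hA2, hA3⟩ := exists_char N
        set A : Subgroup G := A'.map N.subtype with hA
        haveI hAn : A.Normal := ConjAct.normal_of_characteristic_of_normal
        have hAN : A ≤ N := Subgroup.map_subtype_le A'
        have hAb : A ≠ ⊥ := by
          intro h
          apply hA2
          rw [hA, Subgroup.map_eq_bot_iff_of_injective _ N.subtype_injective] at h
          exact h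
        have hAc : ∀ x ∈ A, ∀ y ∈ A, x * y = y * x := by
          rintro _ ⟨x, hx, rfl⟩ _ ⟨y, hy, rfl⟩
          exact congrArg Subtype.val (hA3 x hx y hy)
        have hlt : ∀ (M : Subgroup G) [M.Normal], M ≠ ⊥ → Nat.card (G ⧸ M) ≤ n := by
          intro M _ hM
          have e1 := Subgroup.card_eq_card_quotient_mul_card_subgroup M
          have e2 : Nat.card M ≠ 1 := fun h => hM (Subgroup.card_eq_one.1 h)
          have e3 : 0 < Nat.card M := Nat.card_pos
          have e4 : 0 < Nat.card (G ⧸ M) := Nat.card_pos
          have e5 : 2 ≤ Nat.card M := by omega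
          have e6 : Nat.card (G ⧸ M) * 2 ≤ Nat.card (G ⧸ M) * Nat.card M :=
            Nat.mul_le_mul_left _ e5
          omega
        let M : Subgroup G :=
          { carrier := {x | x ∈ A ∧ x ^ p = 1}
            mul_mem' := by
              rintro a b ⟨ha, ha'⟩ ⟨hb, hb'⟩
              have hc : Commute a b := hAc a ha b hb
              exact ⟨A.mul_mem ha hb, by rw [hc.mul_pow, ha', hb', one_mul]⟩
            one_mem' := ⟨A.one_mem, one_pow _⟩
            inv_mem' := by
              rintro a ⟨ha, ha'⟩
              exact ⟨A.inv_mem ha, by rw [inv_pow, ha', inv_one]⟩ }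
        have hMmem : ∀ x, x ∈ M ↔ x ∈ A ∧ x ^ p = 1 := fun _ => Iff.rfl
        haveI hMn : M.Normal := by
          constructor
          intro x hx g
          rw [hMmem] at hx ⊢
          exact ⟨hAn.conj_mem x hx.1 g, by rw [conj_pow, hx.2, mul_one, mul_inv_cancel]⟩
        have hMN : M ≤ N := fun x hx => hAN hx.1
        by_cases hMb : M = ⊥
        · have hpA : ¬ p ∣ Nat.card A := by
            intro hd
            obtain ⟨x, hx⟩ := exists_prime_orderOf_dvd_card' p hd
            have hx1 : (x : G) ∈ M := by
              rw [hMmem]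
              refine ⟨x.2, ?_⟩
              have := pow_orderOf_eq_one (x : G)
              rwa [Subgroup.orderOf_coe, hx] at this
            rw [hMb, Subgroup.mem_bot] at hx1
            have : x = 1 := Subtype.ext hx1
            rw [this, orderOf_one] at hx
            exact hp.one_lt.ne hx
          obtain ⟨q1, q2⟩ := Cls_quot N A hAN hs ha
          exact QUO1.done G p hp A hpA
            (ih (G ⧸ A) (N.map (QuotientGroup.mk' A)) p hp (hlt A hAb) q1 q2)
        · have hcard : ∃ a, Nat.card M = p ^ a := by
            apply IsPGroup.iff_card.1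
            intro x
            refine ⟨1, ?_⟩
            apply Subtype.ext
            have := ((hMmem _).1 x.2).2
            rw [pow_one]
            exact this
          obtain ⟨q1, q2⟩ := Cls_quot N M hMN hs ha
          exact QUO2.done G p hp M hcard (fun x hx y hy => hAc x hx.1 y hy.1)
            (ih (G ⧸ M) (N.map (QuotientGroup.mk' M)) p hp (hlt M hMb) q1 q2)
  obtain ⟨N, hN, hs, ha⟩ := h
  exact key _ G N p hp le_rfl hs ha

end Pool.Agent.Y536.OP
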