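import Pool.Agent.Y536.OP.Fin
import Pool.Agent.Y536.OP.Cls

/-! Project OP: the sums of powers of `o(x) / φ(o(x))`, for the class `Cls`. -/

set_option autoImplicit false
set_option linter.unusedSectionVars false
set_option linter.style.haveILetI false

namespace Pool.Agent.Y536.OP

open Finset

/-- from Sylow subgroups to subgroups of prime power order -/
theorem AS_of_sylow (Q : Type) [Group Q] [Finite Q]
    (h : ∀ p : ℕ, p.Prime → ∀ P : Sylow p Q, ∀ x ∈ P, ∀ y ∈ P, x * y = y * x) : AS Q := by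
  intro p hp S hS x hx y hy
  obtain ⟨P, hP⟩ := hS.exists_le_sylow
  exact h p hp P x (hP hx) y (hP hy)

theorem final_cls (G : Type) [Group G] [Fintype G] (hG : ∃ (N : Subgroup G) (_ : N.Normal),
      Group.IsSolvable N ∧ ∀ p : ℕ, p.Prime → ∀ P : Sylow p (G ⧸ N), ∀ x ∈ P, ∀ y ∈ P, x * y = y * x)
    (Z : Type) [Group Z]
    [Fintype Z] (hZ : ∀ x y : Z, x * y = y * x) (hc : Nat.card G = Nat.card Z) (r : ℝ) (hr : 0 < r)
    (hr1 : r ≤ 1) :
    ∑ g : G, ((orderOf g : ℝ) / (Nat.totient (orderOf g) : ℝ)) ^ r ≤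
        ∑ z : Z, ((orderOf z : ℝ) / (Nat.totient (orderOf z) : ℝ)) ^ r ∧
      (∑ g : G, ((orderOf g : ℝ) / (Nat.totient (orderOf g) : ℝ)) ^ r =
        ∑ z : Z, ((orderOf z : ℝ) / (Nat.totient (orderOf z) : ℝ)) ^ r → Group.IsNilpotent G) := by
  refine final (fun G _ => Cls G) (fun G _ H hG => hG.sub G H) (fun G _ _ p hp hG => hG.dich G p hp)
    G ?_ Z hZ hc r hr hr1
  obtain ⟨N, hN, hs, ha⟩ := hG
  exact ⟨N, hN, hs, AS_of_sylow _ ha⟩

end Pool.Agent.Y536.OP
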