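import Pool.Agent.Y536.OP.QUO3
import Pool.Agent.Y536.OP.Fin2

/-! Project OP: groups with a normal series whose factors have abelian Sylow subgroups. -/

set_option autoImplicit false
set_option linter.unusedSectionVars false
set_option linter.style.haveILetI false

namespace Pool.Agent.Y536.OP

open Finset

/-- All the subgroups of `M` of prime power order are abelian. -/
def ASs {Q : Type} [Group Q] (M : Subgroup Q) : Prop :=
  ∀ p : ℕ, p.Prime → ∀ S : Subgroup Q, S ≤ M → IsPGroup p S → ∀ x ∈ S, ∀ y ∈ S, x * y = y * x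

/-- A normal series whose factors have abelian Sylow subgroups. -/
def Cls3 (G : Type) [Group G] : Prop :=
  ∃ (n : ℕ) (N : ℕ → Subgroup G) (_ : ∀ i, (N i).Normal), N 0 = ⊥ ∧ N n = ⊤ ∧
    (∀ i, N i ≤ N (i + 1)) ∧ ∀ i < n, ASs ((N (i + 1)).map (QuotientGroup.mk' (N i)))

theorem Cls3.sub (G : Type) [Group G] (H : Subgroup G) (h : Cls3 G) : Cls3 H := by
  obtain ⟨n, N, hN, h0, hn, hle, ha⟩ := h
  refine ⟨n, fun i => (N i).subgroupOf H, fun i => inferInstance, ?_, ?_, ?_, ?_⟩
  · change (N 0).subgroupOf H = ⊥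
    rw [h0, Subgroup.bot_subgroupOf]
  · change (N n).subgroupOf H = ⊤
    rw [hn, Subgroup.top_subgroupOf]
  · intro i x hx
    exact hle i hx
  · intro i hi p hp S hS hpS x hx y hy
    -- the injection
    have hker : (N i).subgroupOf H ≤ ((QuotientGroup.mk' (N i)).comp H.subtype).ker := by
      intro x hx
      rw [MonoidHom.mem_ker, MonoidHom.comp_apply, QuotientGroup.mk'_apply,
        QuotientGroup.eq_one_iff]
      exact hx
    let f : H ⧸ (N i).subgroupOf H →* G ⧸ N i := QuotientGroup.lift ((N i).subgroupOf H)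
      ((QuotientGroup.mk' (N i)).comp H.subtype) fun x hx => hker hx
    have hf : Function.Injective f := by
      rw [injective_iff_map_eq_one]
      intro y hy
      obtain ⟨x, rfl⟩ := QuotientGroup.mk_surjective y
      rw [QuotientGroup.lift_mk, MonoidHom.comp_apply, QuotientGroup.mk'_apply,
        QuotientGroup.eq_one_iff] at hy
      rw [QuotientGroup.eq_one_iff]
      exact hy
    apply hf
    rw [map_mul, map_mul]
    refine ha i hi p hp (S.map f) ?_ (hpS.map f) _ (Subgroup.mem_map_of_mem f hx) _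
      (Subgroup.mem_map_of_mem f hy)
    rintro _ ⟨z, hz, rfl⟩
    obtain ⟨w, hw, rfl⟩ := hS hz
    exact ⟨(w : G), hw, rfl⟩

theorem Cls3.dich (G : Type) [Group G] [Finite G] (p : ℕ) (hp : p.Prime) (h : Cls3 G) :
    Dich G p := by
  obtain ⟨n, N, hN, h0, hn, hle, ha⟩ := h
  have key : ∀ k ≤ n, Dich (G ⧸ N (n - k)) p := by
    intro k
    induction k with
    | zero =>
      intro _
      left
      refine ⟨⊤, fun g => ?_⟩
      have hg : g = 1 := by
        obtain ⟨x, rfl⟩ := QuotientGroup.mk_surjective g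
        rw [QuotientGroup.eq_one_iff, Nat.sub_zero, hn]
        exact Subgroup.mem_top x
      rw [hg, orderOf_one]
      exact ⟨fun _ => hp.one_lt.ne' ∘ Nat.dvd_one.1, fun _ => Subgroup.mem_top _⟩
    | succ k ih =>
      intro hk
      have h1 := ih (by omega)
      set j := n - (k + 1) with hj
      have hj1 : n - k = j + 1 := by omega
      rw [hj1] at h1
      have haj := ha j (by omega)
      apply QUO3.done (G ⧸ N j) p hp ((N (j + 1)).map (QuotientGroup.mk' (N j)))
      · intro P x hx y hy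
        apply Subtype.ext
        change (x : G ⧸ N j) * (y : G ⧸ N j) = (y : G ⧸ N j) * (x : G ⧸ N j)
        refine haj p hp (P.map (((N (j + 1)).map (QuotientGroup.mk' (N j))).subtype)) ?_
          (P.isPGroup'.map _) _ (Subgroup.mem_map_of_mem _ hx) _ (Subgroup.mem_map_of_mem _ hy)
        exact Subgroup.map_subtype_le _
      · exact QUO3.Dich_congr
          (QuotientGroup.quotientQuotientEquivQuotient (N j) (N (j + 1)) (hle j)).symm h1
  have h2 := key n le_rfl
  rw [Nat.sub_self] at h2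
  have hb : N 0 = ⊥ := h0
  have e : G ⧸ N 0 ≃* G :=
    (QuotientGroup.quotientMulEquivOfEq hb).trans QuotientGroup.quotientBot
  exact QUO3.Dich_congr e h2

/-- the factors -/
theorem ASs_of {G : Type} [Group G] [Finite G] (M N : Subgroup G) [M.Normal]
    (h : ∀ p : ℕ, p.Prime → ∀ P : Sylow p (N ⧸ M.subgroupOf N), ∀ x ∈ P, ∀ y ∈ P, x * y = y * x) :
    ASs (N.map (QuotientGroup.mk' M)) := by
  intro p hp S hS hpS x hx y hy
  have hker : M.subgroupOf N ≤ ((QuotientGroup.mk' M).comp N.subtype).ker := by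
    intro x hx
    rw [MonoidHom.mem_ker, MonoidHom.comp_apply, QuotientGroup.mk'_apply,
      QuotientGroup.eq_one_iff]
    exact hx
  let f : N ⧸ M.subgroupOf N →* G ⧸ M := QuotientGroup.lift (M.subgroupOf N)
    ((QuotientGroup.mk' M).comp N.subtype) fun x hx => hker hx
  have hf : Function.Injective f := by
    rw [injective_iff_map_eq_one]
    intro y hy
    obtain ⟨x, rfl⟩ := QuotientGroup.mk_surjective y
    rw [QuotientGroup.lift_mk, MonoidHom.comp_apply, QuotientGroup.mk'_apply,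
      QuotientGroup.eq_one_iff] at hy
    rw [QuotientGroup.eq_one_iff]
    exact hy
  obtain ⟨P, hP⟩ := (hpS.comap_of_injective f hf).exists_le_sylow
  have hx' : ∃ a : N ⧸ M.subgroupOf N, f a = x := by
    obtain ⟨w, hw, rfl⟩ := hS hx
    exact ⟨QuotientGroup.mk (⟨w, hw⟩ : N), rfl⟩
  have hy' : ∃ a : N ⧸ M.subgroupOf N, f a = y := by
    obtain ⟨w, hw, rfl⟩ := hS hy
    exact ⟨QuotientGroup.mk (⟨w, hw⟩ : N), rfl⟩
  obtain ⟨a, rfl⟩ := hx'
  obtain ⟨b, rfl⟩ := hy'
  rw [← map_mul, ← map_mul, h p hp P a (hP hx) b (hP hy)]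

/-- **The inequality for groups with a normal series whose factors have abelian Sylow
subgroups.** -/
theorem final3 (G : Type) [Group G] [Fintype G] (n : ℕ) (N : ℕ → Subgroup G)
    (hN : ∀ i, (N i).Normal) (h0 : N 0 = ⊥) (hn : N n = ⊤) (hle : ∀ i, N i ≤ N (i + 1))
    (ha : ∀ i < n, ∀ p : ℕ, p.Prime → ∀ P : Sylow p (N (i + 1) ⧸ (N i).subgroupOf (N (i + 1))),
      ∀ x ∈ P, ∀ y ∈ P, x * y = y * x)
    (Z : Type) [Group Z]
    [Fintype Z] (hZ : ∀ x y : Z, x * y = y * x) (hc : Nat.card G = Nat.card Z) (r : ℝ) (hr : 0 < r)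
    (hr1 : r ≤ 1) :
    ∑ g : G, ((orderOf g : ℝ) / (Nat.totient (orderOf g) : ℝ)) ^ r ≤
        ∑ z : Z, ((orderOf z : ℝ) / (Nat.totient (orderOf z) : ℝ)) ^ r ∧
      (∑ g : G, ((orderOf g : ℝ) / (Nat.totient (orderOf g) : ℝ)) ^ r =
        ∑ z : Z, ((orderOf z : ℝ) / (Nat.totient (orderOf z) : ℝ)) ^ r → Group.IsNilpotent G) := by
  refine final (fun G _ => Cls3 G) (fun G _ H hG => hG.sub G H)
    (fun G _ _ p hp hG => hG.dich G p hp) G ?_ Z hZ hc r hr hr1
  exact ⟨n, N, hN, h0, hn, hle, fun i hi => ASs_of (N i) (N (i + 1)) (ha i hi)⟩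

end Pool.Agent.Y536.OP
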