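import Pool.Agent.Y536.OP.Stm

/-! Project OP, job NUM: an inequality for finite sets of primes. -/

set_option autoImplicit false

namespace Pool.Agent.Y536.OP.NUM

open Finset

/-- the product over the primes less than `m` -/
noncomputable def W (m : ℕ) : ℝ := ∏ q ∈ (range m).filter Nat.Prime, (1 - 1 / (q : ℝ))

theorem W_succ (m : ℕ) : W (m + 1) = if m.Prime then W m * (1 - 1 / (m : ℝ)) else W m := by
  unfold W
  rw [Finset.range_add_one, Finset.filter_insert]
  split_ifs with h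
  · rw [Finset.prod_insert (by simp), mul_comm]
  · rfl

theorem W_pos (m : ℕ) : 0 < W m := by
  unfold W
  apply Finset.prod_pos
  intro q hq
  have hq := (Finset.mem_filter.1 hq).2
  have h2 : (2 : ℝ) ≤ q := by exact_mod_cast hq.two_le
  have : 1 / (q : ℝ) ≤ 1 / 2 := one_div_le_one_div_of_le (by norm_num) h2
  linarith

theorem W2 : W 2 = 1 := by
  rw [W_succ, if_neg (by norm_num), W_succ, if_neg (by norm_num)]
  simp [W]

theorem W3 : W 3 = 1 / 2 := by
  rw [W_succ, if_pos (by norm_num), W2]; norm_num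

theorem W5 : W 5 = 1 / 3 := by
  rw [W_succ, if_neg (by norm_num), W_succ, if_pos (by norm_num), W3]; norm_num

theorem W7 : W 7 = 4 / 15 := by
  rw [W_succ, if_neg (by norm_num), W_succ, if_pos (by norm_num), W5]; norm_num

theorem W11 : W 11 = 8 / 35 := by
  rw [W_succ, if_neg (by norm_num), W_succ, if_neg (by norm_num), W_succ, if_neg (by norm_num),
    W_succ, if_pos (by norm_num), W7]; norm_num

theorem W_odd (k : ℕ) : (576 : ℝ) / 1225 ≤ W (2 * k + 11) ^ 2 * (2 * (k : ℝ) + 9) := by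
  induction k with
  | zero => rw [mul_zero, zero_add, W11]; norm_num
  | succ k ih =>
    have h1 : W (2 * (k + 1) + 11) = W (2 * k + 11 + 1) := by
      rw [show 2 * (k + 1) + 11 = (2 * k + 11 + 1) + 1 by ring, W_succ, if_neg]
      intro hp
      have h2 : 2 ∣ 2 * k + 11 + 1 := ⟨k + 6, by ring⟩
      have := (Nat.prime_dvd_prime_iff_eq Nat.prime_two hp).1 h2
      omega
    have h2 : W (2 * k + 11) * (1 - 1 / ((2 * k + 11 : ℕ) : ℝ)) ≤ W (2 * k + 11 + 1) := by
      rw [W_succ (2 * k + 11)]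
      have h3 := W_pos (2 * k + 11)
      have h4 : 0 ≤ 1 / ((2 * k + 11 : ℕ) : ℝ) := by positivity
      by_cases hpr : (2 * k + 11).Prime
      · rw [if_pos hpr]
      · rw [if_neg hpr]
        nlinarith
    rw [h1]
    set w := W (2 * k + 11) with hw
    have hw0 : 0 < w := W_pos _
    set x : ℝ := 2 * (k : ℝ) + 11 with hx
    have hx0 : 11 ≤ x := by have : (0 : ℝ) ≤ k := Nat.cast_nonneg k
                            linarith
    have e1 : ((2 * k + 11 : ℕ) : ℝ) = x := by push_cast; rfl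
    rw [e1] at h2
    have e2 : 1 - 1 / x = (x - 1) / x := by field_simp
    rw [e2] at h2
    have h5 : 0 ≤ w * ((x - 1) / x) := by
      apply mul_nonneg hw0.le
      apply div_nonneg <;> linarith
    have h6 : (w * ((x - 1) / x)) ^ 2 ≤ W (2 * k + 11 + 1) ^ 2 := pow_le_pow_left₀ h5 h2 2
    have h7 : w ^ 2 * (x - 2) ≤ (w * ((x - 1) / x)) ^ 2 * x := by
      have : (w * ((x - 1) / x)) ^ 2 * x = w ^ 2 * ((x - 1) ^ 2 / x) := by
        field_simp
      rw [this]
      apply mul_le_mul_of_nonneg_left _ (sq_nonneg w)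
      rw [le_div_iff₀ (by linarith)]
      nlinarith
    have h8 : (w * ((x - 1) / x)) ^ 2 * x ≤ W (2 * k + 11 + 1) ^ 2 * x :=
      mul_le_mul_of_nonneg_right h6 (by linarith)
    have e3 : 2 * ((k + 1 : ℕ) : ℝ) + 9 = x := by push_cast; rw [hx]; ring
    rw [e3]
    have e4 : 2 * (k : ℝ) + 9 = x - 2 := by rw [hx]; ring
    rw [e4] at ih
    linarith

theorem W_prime {p : ℕ} (hp : p.Prime) : 2 / ((p : ℝ) + 1) ≤ W p := by
  rcases lt_or_ge p 11 with h | h
  · interval_cases p
    · exact absurd hp (by norm_num)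
    · exact absurd hp (by norm_num)
    · rw [W2]; norm_num
    · rw [W3]; norm_num
    · exact absurd hp (by norm_num)
    · rw [W5]; norm_num
    · exact absurd hp (by norm_num)
    · rw [W7]; norm_num
    · exact absurd hp (by norm_num)
    · exact absurd hp (by norm_num)
    · exact absurd hp (by norm_num)
  · have hodd : ¬ 2 ∣ p := by
      intro h2
      have := (Nat.prime_dvd_prime_iff_eq Nat.prime_two hp).1 h2
      omega
    obtain ⟨k, hk⟩ : ∃ k, p = 2 * k + 11 := ⟨(p - 11) / 2, by omega⟩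
    have h1 := W_odd k
    rw [← hk] at h1
    set w := W p with hw
    have hw0 : 0 < w := W_pos _
    have hk0 : (0 : ℝ) ≤ k := Nat.cast_nonneg k
    have hp' : (p : ℝ) = 2 * k + 11 := by rw [hk]; push_cast; ring
    rw [hp', div_le_iff₀ (by linarith)]
    -- `w * (2 k + 12) ≥ 2`
    by_contra hc
    push Not at hc
    have h2 : w * (2 * (k : ℝ) + 11 + 1) < 2 := hc
    have h3 : (w * (2 * (k : ℝ) + 12)) ^ 2 < 4 := by
      have : 0 < w * (2 * (k : ℝ) + 12) := by positivity
      nlinarith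
    have h4 : (576 / 1225 : ℝ) * (2 * (k : ℝ) + 12) ^ 2 ≤
        (w * (2 * (k : ℝ) + 12)) ^ 2 * (2 * (k : ℝ) + 9) := by
      have := mul_le_mul_of_nonneg_right h1 (sq_nonneg (2 * (k : ℝ) + 12))
      calc _ ≤ _ := this
        _ = _ := by ring
    have h5 : (w * (2 * (k : ℝ) + 12)) ^ 2 * (2 * (k : ℝ) + 9) ≤ 4 * (2 * (k : ℝ) + 9) :=
      mul_le_mul_of_nonneg_right h3.le (by linarith)
    nlinarith

theorem prod_ge {S : Finset ℕ} {δ : ℕ → ℝ} {p : ℕ} (hp : p.Prime) (hS : ∀ q ∈ S, q.Prime)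
    (hlt : ∀ q ∈ S, q < p) (hδ : ∀ q ∈ S, 0 ≤ δ q ∧ δ q ≤ 1 / q) :
    2 / ((p : ℝ) + 1) ≤ ∏ q ∈ S, (1 - δ q) := by
  refine (W_prime hp).trans ?_
  have h0 : ∀ q : ℕ, q.Prime → 0 < 1 - 1 / (q : ℝ) ∧ 1 - 1 / (q : ℝ) ≤ 1 := by
    intro q hq
    have h2 : (2 : ℝ) ≤ q := by exact_mod_cast hq.two_le
    have : 1 / (q : ℝ) ≤ 1 / 2 := one_div_le_one_div_of_le (by norm_num) h2
    have : 0 ≤ 1 / (q : ℝ) := by positivity
    constructor <;> linarith
  calc W p = ∏ q ∈ (range p).filter Nat.Prime, (1 - 1 / (q : ℝ)) := rfl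
    _ ≤ ∏ q ∈ S, (1 - 1 / (q : ℝ)) := by
        have hsub : S ⊆ (range p).filter Nat.Prime := fun q hq =>
          Finset.mem_filter.2 ⟨Finset.mem_range.2 (hlt q hq), hS q hq⟩
        rw [← Finset.prod_sdiff hsub]
        have h1 : ∏ q ∈ (range p).filter Nat.Prime \ S, (1 - 1 / (q : ℝ)) ≤ 1 :=
          Finset.prod_le_one (fun q hq =>
            (h0 q (Finset.mem_filter.1 (Finset.mem_sdiff.1 hq).1).2).1.le)
            (fun q hq => (h0 q (Finset.mem_filter.1 (Finset.mem_sdiff.1 hq).1).2).2)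
        have h2 : 0 ≤ ∏ q ∈ S, (1 - 1 / (q : ℝ)) :=
          Finset.prod_nonneg fun q hq => (h0 q (hS q hq)).1.le
        exact mul_le_of_le_one_left h2 h1
    _ ≤ ∏ q ∈ S, (1 - δ q) :=
        Finset.prod_le_prod (fun q hq => (h0 q (hS q hq)).1.le)
          (fun q hq => by linarith [(hδ q hq).2])

theorem done : S_NUM := by
  intro S δ hS
  induction S using Finset.induction_on_max with
  | empty =>
    refine ⟨fun _ => by simp, fun _ h => absurd h (by simp)⟩
  | insert p S hlt ih =>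
    have hpS : p ∉ S := fun h => lt_irrefl _ (hlt p h)
    have hp := hS p (Finset.mem_insert_self p S)
    have hS' : ∀ q ∈ S, q.Prime := fun q hq => hS q (Finset.mem_insert_of_mem hq)
    obtain ⟨ih1, ih2⟩ := ih hS'
    have hp2 : (2 : ℝ) ≤ p := by exact_mod_cast hp.two_le
    constructor
    · intro hδ
      have hδ' : ∀ q ∈ S, 0 ≤ δ q ∧ δ q ≤ 1 / q := fun q hq => hδ q (Finset.mem_insert_of_mem hq)
      have h1 := prod_ge hp hS' hlt hδ'
      have h2 := ih1 hδ'
      rw [Finset.sum_insert hpS, Finset.prod_insert hpS]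
      have h3 := mul_le_mul_of_nonneg_left h1 (hδ p (Finset.mem_insert_self p S)).1
      have h4 : δ p * (2 / ((p : ℝ) + 1)) = 2 * δ p / (p + 1) := by ring
      rw [h4] at h3
      linarith
    · intro hδ _
      have hδ'' : ∀ q ∈ S, 0 < δ q ∧ δ q ≤ 1 / q := fun q hq => hδ q (Finset.mem_insert_of_mem hq)
      have hδ' : ∀ q ∈ S, 0 ≤ δ q ∧ δ q ≤ 1 / q := fun q hq => ⟨(hδ'' q hq).1.le, (hδ'' q hq).2⟩
      have hpos := (hδ p (Finset.mem_insert_self p S)).1
      rw [Finset.sum_insert hpS, Finset.prod_insert hpS]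
      rcases S.eq_empty_or_nonempty with rfl | hne
      · simp only [Finset.sum_empty, Finset.prod_empty, add_zero, mul_one]
        rw [div_lt_iff₀ (by linarith)]
        nlinarith
      · have h1 := prod_ge hp hS' hlt hδ'
        have h2 := ih2 hδ'' hne
        have h3 := mul_le_mul_of_nonneg_left h1 hpos.le
        have h4 : δ p * (2 / ((p : ℝ) + 1)) = 2 * δ p / (p + 1) := by ring
        rw [h4] at h3
        linarith

end Pool.Agent.Y536.OP.NUM
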