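import Pool.Agent.Y536.OP.Eq
import Pool.Agent.Y536.OP.SOL
import Pool.Agent.Y536.OP.NUM

/-! Project OP: the sums of powers of `o(x) / φ(o(x))`. -/

set_option autoImplicit false
set_option linter.unusedSectionVars false
set_option linter.style.haveILetI false

namespace Pool.Agent.Y536.OP

open Finset

/-- The numbers `δ`. -/
noncomputable def dl (r : ℝ) (p : ℕ) : ℝ := 1 - (1 - 1 / (p : ℝ)) ^ r

theorem dl_bd {r : ℝ} (hr : 0 < r) (hr1 : r ≤ 1) {p : ℕ} (hp : p.Prime) :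
    0 < dl r p ∧ dl r p ≤ 1 / p := by
  have h2 : (2 : ℝ) ≤ p := by exact_mod_cast hp.two_le
  have h3 : 1 / (p : ℝ) ≤ 1 / 2 := one_div_le_one_div_of_le (by norm_num) h2
  have h4 : 0 < 1 / (p : ℝ) := by positivity
  unfold dl
  constructor
  · have := Real.rpow_lt_one (x := 1 - 1 / (p : ℝ)) (by linarith) (by linarith) hr
    linarith
  · have := Real.rpow_le_rpow_of_exponent_ge (x := 1 - 1 / (p : ℝ)) (by linarith) (by linarith) hr1
    rw [Real.rpow_one] at this
    linarith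

theorem tot_div {m : ℕ} (hm : m ≠ 0) :
    (m : ℝ) / (Nat.totient m : ℝ) = ∏ p ∈ m.primeFactors, (1 - 1 / (p : ℝ))⁻¹ := by
  have h1 : (Nat.totient m : ℝ) = m * ∏ p ∈ m.primeFactors, (1 - 1 / (p : ℝ)) := by
    have := Nat.totient_eq_mul_prod_factors m
    have h2 := congrArg (Rat.cast : ℚ → ℝ) this
    push_cast at h2
    rw [h2]
    simp only [one_div]
  have h0 : (m : ℝ) ≠ 0 := by exact_mod_cast hm
  rw [h1, Finset.prod_inv_distrib, div_eq_mul_inv, mul_inv, ← mul_assoc, mul_inv_cancel₀ h0, one_mul]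

/-- the summand -/
theorem summand {G : Type} [Group G] [Finite G] (r : ℝ) (g : G) :
    ((orderOf g : ℝ) / (Nat.totient (orderOf g) : ℝ)) ^ r =
      (∏ p ∈ (Nat.card G).primeFactors, (1 - 1 / (p : ℝ)) ^ (-r)) *
        phi (Nat.card G).primeFactors (dl r) g := by
  classical
  have h0 : ∀ p : ℕ, p.Prime → 0 < 1 - 1 / (p : ℝ) := by
    intro p hp
    have h2 : (2 : ℝ) ≤ p := by exact_mod_cast hp.two_le
    have h3 : 1 / (p : ℝ) ≤ 1 / 2 := one_div_le_one_div_of_le (by norm_num) h2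
    linarith
  have hm : orderOf g ≠ 0 := (orderOf_pos g).ne'
  rw [tot_div hm, ← Real.finsetProd_rpow]
  · unfold phi
    rw [← Finset.prod_mul_distrib]
    have hsub : (orderOf g).primeFactors ⊆ (Nat.card G).primeFactors :=
      Nat.primeFactors_mono (orderOf_dvd_natCard g) Nat.card_pos.ne'
    rw [← Finset.prod_subset hsub (f := fun p : ℕ => (1 - 1 / (p : ℝ)) ^ (-r) *
      (if p ∣ orderOf g then 1 else 1 - dl r p))]
    · apply Finset.prod_congr rfl
      intro p hp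
      have hp' := Nat.mem_primeFactors.1 hp
      rw [if_pos hp'.2.1, mul_one, Real.rpow_neg (h0 p hp'.1).le, Real.inv_rpow (h0 p hp'.1).le]
    · intro p hp hp2
      have hp' := Nat.mem_primeFactors.1 hp
      have hnd : ¬ p ∣ orderOf g := fun h => hp2 (Nat.mem_primeFactors.2 ⟨hp'.1, h, hm⟩)
      rw [if_neg hnd]
      unfold dl
      rw [sub_sub_cancel, ← Real.rpow_add (h0 p hp'.1), neg_add_cancel, Real.rpow_zero]
  · intro p hp
    exact (inv_pos.2 (h0 p (Nat.prime_of_mem_primeFactors hp))).le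

/-- the sum -/
theorem sum_eq {G : Type} [Group G] [Fintype G] (r : ℝ) :
    ∑ g : G, ((orderOf g : ℝ) / (Nat.totient (orderOf g) : ℝ)) ^ r =
      (∏ p ∈ (Nat.card G).primeFactors, (1 - 1 / (p : ℝ)) ^ (-r)) *
        Sm (Nat.card G).primeFactors (dl r) G := by
  unfold Sm
  rw [finsum_eq_sum_of_fintype, Finset.mul_sum]
  exact Finset.sum_congr rfl fun g _ => summand r g

theorem F_pos {n : ℕ} (r : ℝ) : 0 < ∏ p ∈ n.primeFactors, (1 - 1 / (p : ℝ)) ^ (-r) := by
  apply Finset.prod_pos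
  intro p hp
  have h2 : (2 : ℝ) ≤ p := by exact_mod_cast (Nat.prime_of_mem_primeFactors hp).two_le
  have h3 : 1 / (p : ℝ) ≤ 1 / 2 := one_div_le_one_div_of_le (by norm_num) h2
  exact Real.rpow_pos_of_pos (by linarith) _

/-- **The inequality for a class of groups.** -/
theorem final (C : (G : Type) → [Group G] → Prop)
    (hsub : ∀ (G : Type) [Group G] (H : Subgroup G), C G → C H)
    (hD : ∀ (G : Type) [Group G] [Finite G] (p : ℕ), p.Prime → C G → Dich G p)
    (G : Type) [Group G] [Fintype G] (hG : C G) (Z : Type) [Group Z] [Fintype Z]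
    (hZ : ∀ x y : Z, x * y = y * x) (hc : Nat.card G = Nat.card Z) (r : ℝ) (hr : 0 < r)
    (hr1 : r ≤ 1) :
    ∑ g : G, ((orderOf g : ℝ) / (Nat.totient (orderOf g) : ℝ)) ^ r ≤
        ∑ z : Z, ((orderOf z : ℝ) / (Nat.totient (orderOf z) : ℝ)) ^ r ∧
      (∑ g : G, ((orderOf g : ℝ) / (Nat.totient (orderOf g) : ℝ)) ^ r =
        ∑ z : Z, ((orderOf z : ℝ) / (Nat.totient (orderOf z) : ℝ)) ^ r → Group.IsNilpotent G) := by
  have hσ : ∀ p ∈ (Nat.card G).primeFactors, p.Prime := fun p hp => Nat.prime_of_mem_primeFactors hp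
  have hδ : ∀ p ∈ (Nat.card G).primeFactors, 0 < dl r p ∧ dl r p ≤ 1 / p := fun p hp =>
    dl_bd hr hr1 (hσ p hp)
  have hδ' : ∀ p ∈ (Nat.card G).primeFactors, 0 ≤ dl r p ∧ dl r p ≤ 1 / p := fun p hp =>
    ⟨(hδ p hp).1.le, (hδ p hp).2⟩
  have hF := F_pos (n := Nat.card G) r
  have hZe := Sm_comm (Nat.card Z).primeFactors (dl r)
    (fun p hp => Nat.prime_of_mem_primeFactors hp) Z hZ
  rw [sum_eq, sum_eq, hZe, ← hc]
  constructor
  · exact mul_le_mul_of_nonneg_left (main C NUM.done hsub hD _ G le_rfl hG _ _ hσ hδ') hF.le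
  · intro h
    exact eq_nilp C NUM.done hsub hD _ G le_rfl hG _ _ hσ hδ
      (fun p hp hpd => Nat.mem_primeFactors.2 ⟨hp, hpd, Nat.card_pos.ne'⟩)
      (mul_left_cancel₀ hF.ne' h)

/-- **Solvable groups.** -/
theorem final_sol (G : Type) [Group G] [Fintype G] [Group.IsSolvable G] (Z : Type) [Group Z]
    [Fintype Z] (hZ : ∀ x y : Z, x * y = y * x) (hc : Nat.card G = Nat.card Z) (r : ℝ) (hr : 0 < r)
    (hr1 : r ≤ 1) :
    ∑ g : G, ((orderOf g : ℝ) / (Nat.totient (orderOf g) : ℝ)) ^ r ≤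
        ∑ z : Z, ((orderOf z : ℝ) / (Nat.totient (orderOf z) : ℝ)) ^ r ∧
      (∑ g : G, ((orderOf g : ℝ) / (Nat.totient (orderOf g) : ℝ)) ^ r =
        ∑ z : Z, ((orderOf z : ℝ) / (Nat.totient (orderOf z) : ℝ)) ^ r → Group.IsNilpotent G) :=
  final (fun G _ => Group.IsSolvable G) (fun G _ H hG => by
    haveI : Group.IsSolvable G := hG
    infer_instance)
    (fun G _ _ p hp hG => by
      haveI : Group.IsSolvable G := hG
      exact SOL.done QUO1.done QUO2.done G p hp) G ‹_› Z hZ hc r hr hr1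

end Pool.Agent.Y536.OP
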