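import Pool.Agent.Y536.OP.AEQ

/-! Project OP: Frobenius' theorem for the elements of order prime to `p`. -/

set_option autoImplicit false
set_option linter.unusedSectionVars false
set_option linter.style.haveILetI false

namespace Pool.Agent.Y536.OP.Frob

open Finset

/-- central `p`-subgroups -/
theorem regs_central {G : Type} [Group G] [Finite G] {p : ℕ} (hp : p.Prime) (Z : Subgroup G)
    [Z.Normal] (hZ : Z ≤ Subgroup.center G) (hZc : ∃ a, Nat.card Z = p ^ a) :
    regs G p = regs (G ⧸ Z) p := by
  obtain ⟨a, ha⟩ := hZc
  unfold regs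
  apply Nat.card_congr
  refine Equiv.ofBijective (fun g : {g : G // ¬ p ∣ orderOf g} =>
    (⟨((g : G) : G ⧸ Z), fun h => g.2 (h.trans (QUO1.ord_quot_dvd Z (g : G)))⟩ :
      {x : G ⧸ Z // ¬ p ∣ orderOf x})) ⟨?_, ?_⟩
  · rintro ⟨g, hg⟩ ⟨h, hh⟩ heq
    have h1 : ((g : G) : G ⧸ Z) = (h : G ⧸ Z) := congrArg Subtype.val heq
    have h2 : g⁻¹ * h ∈ Z := QuotientGroup.eq.1 h1
    set z := g⁻¹ * h with hz
    have hc : Commute g z := (Subgroup.mem_center_iff.1 (hZ h2) g)
    have h3 : h = g * z := by rw [hz]; group
    set m := Nat.card G / p ^ (Nat.card G).factorization p with hm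
    have h4 : h ^ m = 1 := orderOf_dvd_iff_pow_eq_one.1 (ord_dvd hp hh)
    have h5 : g ^ m = 1 := orderOf_dvd_iff_pow_eq_one.1 (ord_dvd hp hg)
    have h6 : z ^ m = 1 := by
      rw [h3, hc.mul_pow, h5, one_mul] at h4
      exact h4
    have h7 : orderOf z ∣ p ^ a := by
      rw [← ha]
      have := orderOf_dvd_natCard (⟨z, h2⟩ : Z)
      rwa [← Subgroup.orderOf_coe] at this
    have h8 : Nat.Coprime (p ^ a) m := Nat.Coprime.pow_left _
      (Nat.coprime_ordCompl hp Nat.card_pos.ne')
    have h9 : orderOf z = 1 := Nat.eq_one_of_dvd_coprimes h8 h7 (orderOf_dvd_of_pow_eq_one h6)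
    rw [orderOf_eq_one_iff] at h9
    apply Subtype.ext
    change g = h
    rw [h3, h9, mul_one]
  · rintro ⟨x, hx⟩
    obtain ⟨g, hg1, hg2⟩ := QUO2.exists_lift hp Z x hx
    exact ⟨⟨g, hg2⟩, Subtype.ext hg1⟩

/-- the number of conjugates -/
theorem card_conj {G : Type} [Group G] [Finite G] (u : G) :
    Nat.card {v : G // IsConj u v} * Nat.card (Subgroup.centralizer {u}) = Nat.card G := by
  classical
  have e : {v : G // IsConj u v} ≃ G ⧸ Subgroup.centralizer {u} := by
    symm
    refine Equiv.ofBijective (fun x => Quotient.liftOn' x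
      (fun g => (⟨g * u * g⁻¹, isConj_iff.2 ⟨g, rfl⟩⟩ : {v : G // IsConj u v})) ?_) ⟨?_, ?_⟩
    · intro g h hgh
      have h1 : g⁻¹ * h ∈ Subgroup.centralizer {u} := QuotientGroup.leftRel_apply.1 hgh
      rw [Subgroup.mem_centralizer_singleton_iff] at h1
      apply Subtype.ext
      change g * u * g⁻¹ = h * u * h⁻¹
      have h2 : h * u * h⁻¹ = g * ((g⁻¹ * h) * u) * h⁻¹ := by group
      rw [h2, h1]
      group
    · intro x y hxy
      obtain ⟨g, rfl⟩ := QuotientGroup.mk_surjective x
      obtain ⟨h, rfl⟩ := QuotientGroup.mk_surjective y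
      have h1 : g * u * g⁻¹ = h * u * h⁻¹ := congrArg Subtype.val hxy
      rw [QuotientGroup.eq, Subgroup.mem_centralizer_singleton_iff]
      have h2 : (g⁻¹ * h) * u = g⁻¹ * (h * u * h⁻¹) * h := by group
      rw [h2, ← h1]
      group
    · rintro ⟨v, hv⟩
      obtain ⟨g, hg⟩ := isConj_iff.1 hv
      exact ⟨QuotientGroup.mk g, Subtype.ext hg⟩
  rw [Nat.card_congr e]
  exact (Subgroup.card_eq_card_quotient_mul_card_subgroup _).symm

/-- the number of elements of order prime to `p` is a multiple of the part of the order prime to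
`p` -/
theorem dvd_regs (p : ℕ) (hp : p.Prime) (n : ℕ) : ∀ (G : Type) [Group G] [Finite G],
    Nat.card G ≤ n → Nat.card G / p ^ (Nat.card G).factorization p ∣ regs G p := by
  classical
  induction n with
  | zero =>
    intro G _ _ h
    have := Nat.card_pos (α := G)
    omega
  | succ n ih =>
    intro G _ _ hG
    haveI := Fintype.ofFinite G
    haveI := Fintype.ofFinite (ConjClasses G)
    set q := p ^ (Nat.card G).factorization p with hq
    set m := Nat.card G / q with hm
    have hqm : q * m = Nat.card G := Nat.ordProj_mul_ordCompl_eq_self _ _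
    haveI : Fintype {u : G // u ^ p ^ (Nat.card G).factorization p = 1} := Fintype.ofFinite _
    let F : G → ℕ := fun u => regs (Subgroup.centralizer {u}) p
    have hFc : ∀ u v : G, IsConj u v → F v = F u := by
      intro u v huv
      obtain ⟨g, rfl⟩ := isConj_iff.1 huv
      obtain ⟨e⟩ := AEQ.exists_cent_equiv u g⁻¹
      rw [inv_inv] at e
      exact (AEQ.regs_congr e p).symm
    have hcard : Nat.card G = ∑ u ∈ univ.filter (fun u : G => u ^ q = 1), F u := by
      rw [AEQ.card_eq' hp]
      exact (Finset.sum_subtype (univ.filter (fun u : G => u ^ q = 1)) (by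
        intro x
        rw [Finset.mem_filter]
        exact ⟨fun h => h.2, fun h => ⟨Finset.mem_univ _, h⟩⟩) F).symm
    -- the element 1
    have h1mem : (1 : G) ∈ univ.filter (fun u : G => u ^ q = 1) := by simp
    rw [← Finset.add_sum_erase _ _ h1mem] at hcard
    have hF1 : F 1 = regs G p := by
      have h4 : Subgroup.centralizer {(1 : G)} = ⊤ := by
        rw [Subgroup.eq_top_iff']
        intro x
        rw [Subgroup.mem_centralizer_singleton_iff, mul_one, one_mul]
      simp only [F]
      exact AEQ.regs_congr ((MulEquiv.subgroupCongr h4).trans Subgroup.topEquiv) p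
    -- the other elements
    have hrest : m ∣ ∑ u ∈ (univ.filter (fun u : G => u ^ q = 1)).erase 1, F u := by
      rw [← Finset.sum_fiberwise_of_maps_to (t := (univ : Finset (ConjClasses G)))
        (g := fun u : G => ConjClasses.mk u) (fun _ _ => Finset.mem_univ _)]
      apply Finset.dvd_sum
      intro c _
      rcases (((univ.filter (fun u : G => u ^ q = 1)).erase 1).filter
        (fun u => ConjClasses.mk u = c)).eq_empty_or_nonempty with he | ⟨u, hu⟩
      · rw [he, Finset.sum_empty]
        exact dvd_zero _
      · simp only [Finset.mem_filter, Finset.mem_erase, Finset.mem_univ, true_and] at hu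
        obtain ⟨⟨hu1, huq⟩, rfl⟩ := hu
        have hset : (((univ.filter (fun u : G => u ^ q = 1)).erase 1).filter
            (fun v => ConjClasses.mk v = ConjClasses.mk u)) = univ.filter (fun v => IsConj u v) := by
          ext v
          simp only [Finset.mem_filter, Finset.mem_erase, Finset.mem_univ, true_and,
            ConjClasses.mk_eq_mk_iff_isConj]
          constructor
          · exact fun h => h.2.symm
          · intro h
            refine ⟨⟨?_, ?_⟩, h.symm⟩
            · rintro rfl
              exact hu1 (isConj_one_left.1 h)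
            · obtain ⟨g, rfl⟩ := isConj_iff.1 h
              rw [conj_pow, huq, mul_one, mul_inv_cancel]
        rw [hset, Finset.sum_congr rfl (fun v hv => hFc u v (Finset.mem_filter.1 hv).2),
          Finset.sum_const, smul_eq_mul]
        -- the centralizer
        set C := Subgroup.centralizer {u} with hC
        have huC : u ∈ C := by rw [hC, Subgroup.mem_centralizer_singleton_iff]
        set z : C := ⟨u, huC⟩ with hz
        set Z := Subgroup.zpowers z with hZ
        have hzc : z ∈ Subgroup.center C := by
          rw [Subgroup.mem_center_iff]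
          rintro ⟨x, hx⟩
          rw [hC, Subgroup.mem_centralizer_singleton_iff] at hx
          exact Subtype.ext hx
        have hZc : Z ≤ Subgroup.center C := by rw [hZ, Subgroup.zpowers_le]; exact hzc
        haveI : Z.Normal := by
          constructor
          intro x hx g
          have := Subgroup.mem_center_iff.1 (hZc hx) g
          rw [this, mul_inv_cancel_right]
          exact hx
        obtain ⟨k, hk1, hk2⟩ := (Nat.dvd_prime_pow hp).1 (orderOf_dvd_of_pow_eq_one huq)
        have hZcard : Nat.card Z = p ^ k := by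
          rw [hZ, Nat.card_zpowers, ← Subgroup.orderOf_coe, hz, hk2]
        have hZne : 2 ≤ Nat.card Z := by
          have h1 : Nat.card Z ≠ 1 := by
            rw [hZcard, ← hk2]
            intro h
            exact hu1 (orderOf_eq_one_iff.1 h)
          have h2 : 0 < Nat.card Z := Nat.card_pos
          omega
        have hlt : Nat.card (C ⧸ Z) ≤ n := by
          have e1 := Subgroup.card_eq_card_quotient_mul_card_subgroup Z
          have e2 : 0 < Nat.card (C ⧸ Z) := Nat.card_pos
          have e3 := Subgroup.card_le_card_group C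
          have e4 : Nat.card (C ⧸ Z) * 2 ≤ Nat.card (C ⧸ Z) * Nat.card Z :=
            Nat.mul_le_mul_left _ hZne
          omega
        have h1 := ih (C ⧸ Z) hlt
        rw [← regs_central hp Z hZc ⟨k, hZcard⟩, ← QUO2.ordCompl_eq hp Z ⟨k, hZcard⟩] at h1
        have h2 : m = (univ.filter (fun v => IsConj u v)).card /
            p ^ ((univ.filter (fun v => IsConj u v)).card).factorization p *
            (Nat.card C / p ^ (Nat.card C).factorization p) := by
          rw [hm, hq, ← Nat.ordCompl_mul]
          have h3 := card_conj u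
          have h4 : Nat.card {v : G // IsConj u v} = (univ.filter (fun v => IsConj u v)).card := by
            rw [Nat.card_eq_fintype_card, Fintype.card_subtype]
          rw [h4] at h3
          rw [← hC] at h3
          rw [h3]
        rw [h2]
        exact Nat.mul_dvd_mul (Nat.ordCompl_dvd _ _) h1
    have hmG : m ∣ Nat.card G := ⟨q, by rw [← hqm]; ring⟩
    rw [hF1] at hcard
    rw [hcard] at hmG
    exact (Nat.dvd_add_left hrest).1 hmG

/-- Frobenius' theorem -/
theorem le_regs {G : Type} [Group G] [Finite G] {p : ℕ} (hp : p.Prime) :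
    Nat.card G / p ^ (Nat.card G).factorization p ≤ regs G p := by
  apply Nat.le_of_dvd _ (dvd_regs p hp _ G le_rfl)
  unfold regs
  have : Nonempty {g : G // ¬ p ∣ orderOf g} := ⟨⟨1, by
    rw [orderOf_one]
    exact hp.one_lt.ne' ∘ Nat.dvd_one.1⟩⟩
  exact Nat.card_pos

end Pool.Agent.Y536.OP.Frob
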