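import Pool.Agent.Y536.OP.Eq
import Pool.Agent.Y536.OP.Frob
import Pool.Agent.Y536.OP.NUM

/-! Project OP: the main inequality, with a condition for the odd primes only. -/

set_option autoImplicit false
set_option linter.unusedSectionVars false
set_option linter.style.haveILetI false

namespace Pool.Agent.Y536.OP

open Finset

/-- The coefficients. -/
noncomputable def cc (p : ℕ) : ℝ := if p = 2 then 1 else 2 / ((p : ℝ) + 1)

theorem num2 (S : Finset ℕ) (δ : ℕ → ℝ) (hS : ∀ p ∈ S, p.Prime)
    (hδ : ∀ p ∈ S, 0 ≤ δ p ∧ δ p ≤ 1 / p) : ∑ p ∈ S, cc p * δ p ≤ 1 - ∏ p ∈ S, (1 - δ p) := by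
  induction S using Finset.induction_on_max with
  | empty => simp
  | insert p S hlt ih =>
    have hpS : p ∉ S := fun h => lt_irrefl _ (hlt p h)
    have hp := hS p (Finset.mem_insert_self p S)
    have hS' : ∀ q ∈ S, q.Prime := fun q hq => hS q (Finset.mem_insert_of_mem hq)
    have hδ' : ∀ q ∈ S, 0 ≤ δ q ∧ δ q ≤ 1 / q := fun q hq => hδ q (Finset.mem_insert_of_mem hq)
    have h2 := ih hS' hδ'
    have hpos := (hδ p (Finset.mem_insert_self p S)).1
    rw [Finset.sum_insert hpS, Finset.prod_insert hpS]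
    by_cases hp2 : p = 2
    · have hemp : S = ∅ := by
        rw [Finset.eq_empty_iff_forall_notMem]
        intro q hq
        have h3 := hlt q hq
        have h4 := (hS' q hq).two_le
        omega
      subst hemp
      simp only [Finset.sum_empty, Finset.prod_empty, cc, if_pos hp2]
      linarith
    · have h1 := NUM.prod_ge hp hS' hlt hδ'
      have h3 := mul_le_mul_of_nonneg_left h1 hpos
      have h4 : δ p * (2 / ((p : ℝ) + 1)) = cc p * δ p := by
        simp only [cc, if_neg hp2]; ring
      rw [h4] at h3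
      linarith

/-- strict inequality in Weierstrass' inequality -/
theorem weier_lt (σ : Finset ℕ) (x : ℕ → ℝ) (hx : ∀ p ∈ σ, 0 < x p ∧ x p ≤ 1) (hc : 2 ≤ σ.card) :
    1 - ∑ p ∈ σ, x p < ∏ p ∈ σ, (1 - x p) := by
  classical
  obtain ⟨p, hp⟩ : σ.Nonempty := Finset.card_pos.1 (by omega)
  have hne : (σ.erase p).Nonempty := by
    apply Finset.card_pos.1
    rw [Finset.card_erase_of_mem hp]
    omega
  rw [← Finset.add_sum_erase _ _ hp, ← Finset.mul_prod_erase _ _ hp]
  have h1 := weier (σ.erase p) x (fun q hq =>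
    ⟨(hx q (Finset.mem_of_mem_erase hq)).1.le, (hx q (Finset.mem_of_mem_erase hq)).2⟩)
  have h2 := hx p hp
  have h3 : 0 < ∑ q ∈ σ.erase p, x q :=
    Finset.sum_pos (fun q hq => (hx q (Finset.mem_of_mem_erase hq)).1) hne
  have h4 : (1 - x p) * (1 - ∑ q ∈ σ.erase p, x q) ≤ (1 - x p) * ∏ q ∈ σ.erase p, (1 - x q) :=
    mul_le_mul_of_nonneg_left h1 (by linarith)
  nlinarith [mul_pos h2.1 h3]

theorem nc_pgroup {G : Type} [Group G] [Finite G] {q : ℕ} (hq : q.Prime)
    (h : ∀ p : ℕ, p.Prime → p ∣ Nat.card G → p = q) : NC G q := by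
  refine ⟨⊥, fun g => ?_⟩
  rw [Subgroup.mem_bot]
  constructor
  · rintro rfl hq1
    rw [orderOf_one] at hq1
    exact hq.one_lt.ne' (Nat.dvd_one.1 hq1)
  · intro hg
    by_contra hne
    have h1 : orderOf g ≠ 1 := fun h => hne (orderOf_eq_one_iff.1 h)
    obtain ⟨p, hp, hpd⟩ := Nat.exists_prime_and_dvd h1
    rw [← h p hp (hpd.trans (orderOf_dvd_natCard g))] at hg
    exact hg hpd

/-- the bound when no element of `σ` is exceptional -/
theorem caseB2 {G : Type} [Group G] [Finite G] {σ : Finset ℕ} {δ : ℕ → ℝ}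
    (hσ : ∀ p ∈ σ, p.Prime) (hδ : ∀ p ∈ σ, 0 ≤ δ p ∧ δ p ≤ 1 / p)
    (hd : ∀ p ∈ σ, p ≠ 2 →
      (p + 1) * (Nat.card G / p ^ (Nat.card G).factorization p) ≤ 2 * regs G p) :
    Sm σ δ G ≤ Nat.card G * Bd σ δ (Nat.card G) ∧
      ((∀ p ∈ σ, 0 < δ p) → 2 ≤ σ.card → Sm σ δ G < Nat.card G * Bd σ δ (Nat.card G)) := by
  classical
  haveI := Fintype.ofFinite G
  set n := Nat.card G with hn
  have hn0 : (0 : ℝ) < n := by exact_mod_cast Nat.card_pos
  -- pointwise
  let S : G → Finset ℕ := fun g => σ.filter fun p => ¬ p ∣ orderOf g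
  have hS : ∀ g, phi σ δ g = ∏ p ∈ S g, (1 - δ p) := by
    intro g
    unfold phi
    rw [Finset.prod_filter]
    apply Finset.prod_congr rfl
    intro p _
    by_cases h : p ∣ orderOf g <;> simp [h]
  have hpt : ∀ g, phi σ δ g ≤ 1 - ∑ p ∈ S g, cc p * δ p := by
    intro g
    have h1 := num2 (S g) δ (fun p hp => hσ p (Finset.mem_filter.1 hp).1)
      (fun p hp => hδ p (Finset.mem_filter.1 hp).1)
    rw [hS]; linarith
  have hsum : ∑ g : G, ∑ p ∈ S g, cc p * δ p = ∑ p ∈ σ, (regs G p : ℝ) * (cc p * δ p) := by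
    simp only [S, Finset.sum_filter]
    rw [Finset.sum_comm]
    apply Finset.sum_congr rfl
    intro p _
    rw [← Finset.sum_filter, Finset.sum_const, nsmul_eq_mul]
    congr 2
    unfold regs
    rw [Nat.card_eq_fintype_card, Fintype.card_subtype]
  have hlow : (n : ℝ) * ∑ p ∈ σ, δ p / (p ^ n.factorization p : ℕ) ≤
      ∑ p ∈ σ, (regs G p : ℝ) * (cc p * δ p) := by
    rw [Finset.mul_sum]
    apply Finset.sum_le_sum
    intro p hp
    have hp1 := pow_fac_pos (n := n) (hσ p hp)
    have h2 : (n : ℝ) = (p ^ n.factorization p : ℕ) * (n / p ^ n.factorization p : ℕ) := by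
      rw [← Nat.cast_mul, Nat.ordProj_mul_ordCompl_eq_self]
    have h3 : ((n / p ^ n.factorization p : ℕ) : ℝ) ≤ cc p * regs G p := by
      by_cases hp2 : p = 2
      · simp only [cc, if_pos hp2, one_mul]
        exact_mod_cast Frob.le_regs (G := G) (hσ p hp)
      · simp only [cc, if_neg hp2]
        have h1 := hd p hp hp2
        have hp0 : (0 : ℝ) < (p : ℝ) + 1 := by positivity
        rw [div_mul_eq_mul_div, le_div_iff₀ hp0, mul_comm]
        exact_mod_cast h1
    set q : ℝ := ((p ^ n.factorization p : ℕ) : ℝ) with hq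
    set m : ℝ := ((n / p ^ n.factorization p : ℕ) : ℝ) with hm
    have h4 : (n : ℝ) * (δ p / q) = m * δ p := by
      rw [h2]; field_simp
    rw [h4]
    have := mul_le_mul_of_nonneg_right h3 (hδ p hp).1
    linarith
  have hBd : Bd σ δ n = ∏ p ∈ σ, (1 - δ p / (p ^ n.factorization p : ℕ)) := rfl
  have hcard : ∑ g : G, (1 : ℝ) = n := by
    rw [Finset.sum_const, Finset.card_univ, nsmul_eq_mul, mul_one, hn, Nat.card_eq_fintype_card]
  have hSm : Sm σ δ G = ∑ g : G, phi σ δ g := finsum_eq_sum_of_fintype _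
  have htot : Sm σ δ G ≤ n * (1 - ∑ p ∈ σ, δ p / (p ^ n.factorization p : ℕ)) := by
    rw [hSm]
    refine (Finset.sum_le_sum fun g _ => hpt g).trans ?_
    rw [Finset.sum_sub_distrib, hcard, hsum]
    linarith
  refine ⟨?_, ?_⟩
  · refine htot.trans (mul_le_mul_of_nonneg_left ?_ hn0.le)
    rw [hBd]
    exact weier σ (fun p => δ p / (p ^ n.factorization p : ℕ)) (fun p hp => by
      have := fac_mem (n := n) (hσ p hp) (hδ p hp)
      exact ⟨this.1, by linarith [this.2]⟩)
  · intro hpos hc
    refine lt_of_le_of_lt htot (mul_lt_mul_of_pos_left ?_ hn0)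
    rw [hBd]
    exact weier_lt σ (fun p => δ p / (p ^ n.factorization p : ℕ)) (fun p hp => by
      have h1 := fac_mem (n := n) (hσ p hp) (hδ p hp)
      have h2 := pow_fac_pos (n := n) (hσ p hp)
      exact ⟨div_pos (hpos p hp) (by linarith), by linarith [h1.2]⟩) hc

section
variable (C : (G : Type) → [Group G] → Prop)

/-- **The main inequality.** -/
theorem main2 (hsub : ∀ (G : Type) [Group G] (H : Subgroup G), C G → C H)
    (hD : ∀ (G : Type) [Group G] [Finite G] (p : ℕ), p.Prime → p ≠ 2 → C G → Dich G p) (N : ℕ) :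
    ∀ (G : Type) [Group G] [Finite G], Nat.card G ≤ N → C G → ∀ (σ : Finset ℕ) (δ : ℕ → ℝ),
      (∀ p ∈ σ, p.Prime) → (∀ p ∈ σ, 0 ≤ δ p ∧ δ p ≤ 1 / p) →
      Sm σ δ G ≤ Nat.card G * Bd σ δ (Nat.card G) := by
  classical
  induction N with
  | zero =>
    intro G _ _ h
    have := Nat.card_pos (α := G)
    omega
  | succ N ih =>
    intro G _ _ hG hC σ δ hσ hδ
    set n := Nat.card G with hn
    have hn0 : n ≠ 0 := Nat.card_pos.ne'
    by_cases hA : ∃ p ∈ σ, p ∣ n ∧ NC G p
    · obtain ⟨p, hpσ, hpn, K, hK⟩ := hA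
      have hp := hσ p hpσ
      have hσ0 : ∀ q ∈ σ.erase p, q.Prime := fun q hq => hσ q (Finset.mem_of_mem_erase hq)
      have hδ0 : ∀ q ∈ σ.erase p, 0 ≤ δ q ∧ δ q ≤ 1 / q := fun q hq =>
        hδ q (Finset.mem_of_mem_erase hq)
      have hcK := card_K hp K hK
      have hlt : Nat.card K < n := by
        rw [hcK]
        apply Nat.div_lt_self (Nat.pos_of_ne_zero hn0)
        exact Nat.one_lt_pow (hp.factorization_pos_of_dvd hn0 hpn).ne' hp.one_lt
      have hβ := Bd_pos (a := n) hσ0 hδ0
      have hδp := hδ p hpσ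
      have hδ2 := le_half hp hδp
      have hH : ∀ u : G, Sm (σ.erase p) δ ↥(K ⊓ Subgroup.centralizer {(u : G)}) ≤
          Nat.card ↥(K ⊓ Subgroup.centralizer {(u : G)}) * Bd (σ.erase p) δ n := by
        intro u
        have hle : Nat.card ↥(K ⊓ Subgroup.centralizer {(u : G)}) ≤ Nat.card K :=
          Subgroup.card_le_of_le inf_le_left
        have h1 := ih ↥(K ⊓ Subgroup.centralizer {(u : G)}) (by omega) (hsub G _ hC) (σ.erase p) δ
          hσ0 hδ0
        refine h1.trans (mul_le_mul_of_nonneg_left ?_ (Nat.cast_nonneg _))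
        exact Bd_mono hσ0 hδ0 (Subgroup.card_subgroup_dvd_card _) hn0
      rw [Sm_eq hp K hK hσ hpσ δ]
      haveI : Fintype {u : G // u ^ p ^ (Nat.card G).factorization p = 1} := Fintype.ofFinite _
      rw [finsum_eq_sum_of_fintype]
      have h1 : ∀ u : {u : G // u ^ p ^ (Nat.card G).factorization p = 1},
          (if (u : G) = 1 then 1 - δ p else 1) *
            Sm (σ.erase p) δ ↥(K ⊓ Subgroup.centralizer {(u : G)}) ≤
          (Nat.card ↥(K ⊓ Subgroup.centralizer {(u : G)}) : ℝ) * Bd (σ.erase p) δ n -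
            (if (u : G) = 1 then δ p * Nat.card K * Bd (σ.erase p) δ n else 0) := by
        intro u
        by_cases hu : (u : G) = 1
        · rw [if_pos hu, if_pos hu]
          have h2 := mul_le_mul_of_nonneg_left (hH u) (show 0 ≤ 1 - δ p by linarith)
          have h3 : Nat.card ↥(K ⊓ Subgroup.centralizer {(u : G)}) = Nat.card K := by
            have : K ⊓ Subgroup.centralizer {(u : G)} = K := by
              rw [inf_eq_left, hu]
              intro x _
              rw [Subgroup.mem_centralizer_singleton_iff, mul_one, one_mul]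
            rw [this]
          rw [h3] at h2 ⊢
          linarith
        · rw [if_neg hu, if_neg hu, one_mul, sub_zero]
          exact hH u
      refine (Finset.sum_le_sum fun u _ => h1 u).trans ?_
      rw [Finset.sum_sub_distrib, ← Finset.sum_mul]
      have h2 := card_eq hp K hK
      rw [finsum_eq_sum_of_fintype] at h2
      rw [← h2]
      have h3 : ∑ u : {u : G // u ^ p ^ (Nat.card G).factorization p = 1},
          (if (u : G) = 1 then δ p * Nat.card K * Bd (σ.erase p) δ n else 0) =
          δ p * Nat.card K * Bd (σ.erase p) δ n := by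
        rw [Finset.sum_eq_single (⟨1, one_pow _⟩ : {u : G // u ^ p ^ (Nat.card G).factorization p = 1})]
        · simp
        · intro b _ hb
          rw [if_neg]
          intro hb1
          exact hb (Subtype.ext hb1)
        · intro h; exact absurd (Finset.mem_univ _) h
      rw [h3, Bd_erase hpσ, hcK]
      have hq0 := pow_fac_pos (n := n) hp
      have h4 : (n : ℝ) = (p ^ n.factorization p : ℕ) * (n / p ^ n.factorization p : ℕ) := by
        rw [← Nat.cast_mul, Nat.ordProj_mul_ordCompl_eq_self]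
      have h5 : (n : ℝ) * (1 - δ p / (p ^ n.factorization p : ℕ)) =
          n - δ p * (n / p ^ n.factorization p : ℕ) := by
        have h6 : (n : ℝ) * (δ p / (p ^ n.factorization p : ℕ)) =
            δ p * (n / p ^ n.factorization p : ℕ) := by
          nth_rewrite 1 [h4]
          field_simp
        rw [mul_sub, h6, mul_one]
      rw [← mul_assoc, h5]
      apply le_of_eq
      ring
    · push Not at hA
      rw [Sm_filter, Bd_filter]
      have hpr : 0 ≤ ∏ p ∈ σ.filter fun p => ¬ p ∣ n, (1 - δ p) := by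
        apply Finset.prod_nonneg
        intro p hp
        have hp' := (Finset.mem_filter.1 hp).1
        linarith [le_half (hσ p hp') (hδ p hp')]
      have := (caseB2 (G := G) (σ := σ.filter fun p => p ∣ n) (δ := δ)
        (fun p hp => hσ p (Finset.mem_filter.1 hp).1) (fun p hp => hδ p (Finset.mem_filter.1 hp).1)
        (fun p hp hp2 => by
          obtain ⟨h1, h2⟩ := Finset.mem_filter.1 hp
          exact (hD G p (hσ p h1) hp2 hC).resolve_left (hA p h1 h2))).1
      have h2 := mul_le_mul_of_nonneg_left this hpr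
      calc _ ≤ _ := h2
        _ = _ := by ring

end

/-- **Equality in the main inequality.** -/
theorem eq_nilp2 (C : (G : Type) → [Group G] → Prop)
    (hsub : ∀ (G : Type) [Group G] (H : Subgroup G), C G → C H)
    (hD : ∀ (G : Type) [Group G] [Finite G] (p : ℕ), p.Prime → p ≠ 2 → C G → Dich G p) (N : ℕ) :
    ∀ (G : Type) [Group G] [Finite G], Nat.card G ≤ N → C G → ∀ (σ : Finset ℕ) (δ : ℕ → ℝ),
      (∀ p ∈ σ, p.Prime) → (∀ p ∈ σ, 0 < δ p ∧ δ p ≤ 1 / p) →
      (∀ p : ℕ, p.Prime → p ∣ Nat.card G → p ∈ σ) →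
      Sm σ δ G = Nat.card G * Bd σ δ (Nat.card G) → Group.IsNilpotent G := by
  classical
  induction N with
  | zero =>
    intro G _ _ h
    have := Nat.card_pos (α := G)
    omega
  | succ N ih =>
    intro G _ _ hG hC σ δ hσ hδ hall heq
    set n := Nat.card G with hn
    have hn0 : n ≠ 0 := Nat.card_pos.ne'
    have hδ' : ∀ q ∈ σ, 0 ≤ δ q ∧ δ q ≤ 1 / q := fun q hq => ⟨(hδ q hq).1.le, (hδ q hq).2⟩
    by_cases hn1 : n = 1
    · haveI : Subsingleton G := (Nat.card_eq_one_iff_unique.1 (hn ▸ hn1)).1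
      infer_instance
    by_cases hA : ∃ p ∈ σ, p ∣ n ∧ NC G p
    · obtain ⟨p, hpσ, hpn, K, hK⟩ := hA
      have hp := hσ p hpσ
      have hσ0 : ∀ q ∈ σ.erase p, q.Prime := fun q hq => hσ q (Finset.mem_of_mem_erase hq)
      have hδ0 : ∀ q ∈ σ.erase p, 0 < δ q ∧ δ q ≤ 1 / q := fun q hq =>
        hδ q (Finset.mem_of_mem_erase hq)
      have hδ0' : ∀ q ∈ σ.erase p, 0 ≤ δ q ∧ δ q ≤ 1 / q := fun q hq =>
        hδ' q (Finset.mem_of_mem_erase hq)
      have hcK := card_K hp K hK
      have hlt : Nat.card K < n := by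
        rw [hcK]
        apply Nat.div_lt_self (Nat.pos_of_ne_zero hn0)
        exact Nat.one_lt_pow (hp.factorization_pos_of_dvd hn0 hpn).ne' hp.one_lt
      have hβ := Bd_pos (a := n) hσ0 hδ0'
      have hδ2 := le_half hp (hδ' p hpσ)
      have hH1 : ∀ u : G, Sm (σ.erase p) δ ↥(K ⊓ Subgroup.centralizer {(u : G)}) ≤
          Nat.card ↥(K ⊓ Subgroup.centralizer {(u : G)}) *
            Bd (σ.erase p) δ (Nat.card ↥(K ⊓ Subgroup.centralizer {(u : G)})) := by
        intro u
        exact main2 C hsub hD _ _ le_rfl (hsub G _ hC) (σ.erase p) δ hσ0 hδ0'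
      have hH2 : ∀ u : G, Bd (σ.erase p) δ (Nat.card ↥(K ⊓ Subgroup.centralizer {(u : G)})) ≤
          Bd (σ.erase p) δ n := fun u => Bd_mono hσ0 hδ0' (Subgroup.card_subgroup_dvd_card _) hn0
      have hH : ∀ u : G, Sm (σ.erase p) δ ↥(K ⊓ Subgroup.centralizer {(u : G)}) ≤
          Nat.card ↥(K ⊓ Subgroup.centralizer {(u : G)}) * Bd (σ.erase p) δ n := fun u =>
        (hH1 u).trans (mul_le_mul_of_nonneg_left (hH2 u) (Nat.cast_nonneg _))
      rw [Sm_eq hp K hK hσ hpσ δ, Bd_sum hp K hK hpσ δ] at heq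
      haveI : Fintype {u : G // u ^ p ^ (Nat.card G).factorization p = 1} := Fintype.ofFinite _
      rw [finsum_eq_sum_of_fintype, finsum_eq_sum_of_fintype] at heq
      have hw : ∀ u : G, (0 : ℝ) < (if u = 1 then 1 - δ p else 1) := by
        intro u
        split_ifs
        · linarith
        · exact one_pos
      have h1 := (Finset.sum_eq_sum_iff_of_le (fun u _ =>
        mul_le_mul_of_nonneg_left (hH (u : {u : G // u ^ p ^ (Nat.card G).factorization p = 1}).1)
          (hw u.1).le)).1 heq
      have h2 : ∀ u : G, u ^ p ^ n.factorization p = 1 →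
          Sm (σ.erase p) δ ↥(K ⊓ Subgroup.centralizer {(u : G)}) =
            Nat.card ↥(K ⊓ Subgroup.centralizer {(u : G)}) * Bd (σ.erase p) δ n := by
        intro u hu
        exact mul_left_cancel₀ (hw u).ne' (h1 ⟨u, hu⟩ (Finset.mem_univ _))
      -- the elements of order a power of `p` centralize `K`
      have hcen : ∀ u : G, u ^ p ^ n.factorization p = 1 → ∀ x ∈ K, x * u = u * x := by
        intro u hu
        have e1 := h2 u hu
        have e2 := hH1 u
        rw [e1] at e2
        have e3 : (0 : ℝ) < Nat.card ↥(K ⊓ Subgroup.centralizer {(u : G)}) := by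
          exact_mod_cast Nat.card_pos
        have e4 := le_of_mul_le_mul_left e2 e3
        have e5 := Bd_eq_iff hσ0 hδ0 (Subgroup.card_subgroup_dvd_card _) hn0 e4
        have e6 : Nat.card ↥(K ⊓ Subgroup.centralizer {(u : G)}) = Nat.card K := by
          apply Nat.eq_of_factorization_eq Nat.card_pos.ne' Nat.card_pos.ne'
          intro q
          by_cases hq : q.Prime
          · by_cases hqp : q = p
            · subst hqp
              have : ¬ q ∣ Nat.card K := by
                rw [hcK]
                exact Nat.not_dvd_ordCompl hp hn0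
              rw [Nat.factorization_eq_zero_of_not_dvd this, Nat.factorization_eq_zero_of_not_dvd]
              exact fun h => this (h.trans (Subgroup.card_dvd_of_le inf_le_left))
            · have h3 : (Nat.card K).factorization q = n.factorization q := by
                rw [hcK, Nat.factorization_ordCompl, Finsupp.erase_ne hqp]
              rw [h3]
              by_cases hqn : q ∣ n
              · exact e5 q (Finset.mem_erase.2 ⟨hqp, hall q hq hqn⟩)
              · rw [Nat.factorization_eq_zero_of_not_dvd hqn,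
                  Nat.factorization_eq_zero_of_not_dvd]
                exact fun h => hqn (h.trans (Subgroup.card_subgroup_dvd_card _))
          · rw [Nat.factorization_eq_zero_of_not_prime _ hq,
              Nat.factorization_eq_zero_of_not_prime _ hq]
        have e7 : K ⊓ Subgroup.centralizer {(u : G)} = K :=
          Subgroup.eq_of_le_of_card_ge inf_le_left e6.symm.le
        intro x hx
        rw [← e7] at hx
        exact Subgroup.mem_centralizer_singleton_iff.1 (Subgroup.mem_inf.1 hx).2
      have hnil : Group.IsNilpotent K := by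
        apply ih K (by omega) (hsub G K hC) (σ.erase p) δ hσ0 hδ0
        · intro q hq hqK
          refine Finset.mem_erase.2 ⟨?_, hall q hq (hqK.trans (Subgroup.card_subgroup_dvd_card K))⟩
          rintro rfl
          rw [hcK] at hqK
          exact Nat.not_dvd_ordCompl hp hn0 hqK
        · have := h2 1 (one_pow _)
          rw [centralizer_one_inf] at this
          rw [this, Bd_K hp K hK (Finset.notMem_erase p σ)]
      exact nilp_of hp K hK hnil hcen
    · exfalso
      push Not at hA
      rw [Sm_filter, Bd_filter] at heq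
      have hpr : 0 < ∏ p ∈ σ.filter fun p => ¬ p ∣ n, (1 - δ p) := by
        apply Finset.prod_pos
        intro p hp
        have hp' := (Finset.mem_filter.1 hp).1
        linarith [le_half (hσ p hp') (hδ' p hp')]
      have hcard2 : 2 ≤ (σ.filter fun p => p ∣ n).card := by
        by_contra hlt2
        obtain ⟨q, hq, hqn⟩ := Nat.exists_prime_and_dvd hn1
        have hqm : q ∈ σ.filter fun p => p ∣ n := Finset.mem_filter.2 ⟨hall q hq hqn, hqn⟩
        have hone : (σ.filter fun p => p ∣ n).card ≤ 1 := by omega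
        apply hA q (hall q hq hqn) hqn
        apply nc_pgroup hq
        intro p hp hpn
        exact Finset.card_le_one.1 hone p (Finset.mem_filter.2 ⟨hall p hp hpn, hpn⟩) q hqm
      have hlt := (caseB2 (G := G) (σ := σ.filter fun p => p ∣ n) (δ := δ)
        (fun p hp => hσ p (Finset.mem_filter.1 hp).1) (fun p hp => hδ' p (Finset.mem_filter.1 hp).1)
        (fun p hp hp2 => by
          obtain ⟨h1, h2⟩ := Finset.mem_filter.1 hp
          exact (hD G p (hσ p h1) hp2 hC).resolve_left (hA p h1 h2))).2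
        (fun p hp => (hδ p (Finset.mem_filter.1 hp).1).1) hcard2
      have h2 := mul_lt_mul_of_pos_left hlt hpr
      rw [heq] at h2
      have h3 : (∏ p ∈ σ.filter fun p => ¬ p ∣ n, (1 - δ p)) *
          (n * Bd (σ.filter fun p => p ∣ n) δ n) =
          n * ((∏ p ∈ σ.filter fun p => ¬ p ∣ n, (1 - δ p)) * Bd (σ.filter fun p => p ∣ n) δ n) := by
        ring
      rw [← hn, h3] at h2
      exact lt_irrefl _ h2

end Pool.Agent.Y536.OP
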