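import Pool.Agent.Y536.OP.Main
import Pool.Agent.Y536.OP.QUO2

/-! Project OP: equality in the main inequality. -/

set_option autoImplicit false
set_option linter.unusedSectionVars false
set_option linter.style.haveILetI false

namespace Pool.Agent.Y536.OP

open Finset

section
variable {G : Type} [Group G] [Finite G] {p : ℕ} {δ : ℕ → ℝ}

theorem centralizer_one_inf (K : Subgroup G) : K ⊓ Subgroup.centralizer {(1 : G)} = K := by
  rw [inf_eq_left]
  intro x _
  rw [Subgroup.mem_centralizer_singleton_iff, mul_one, one_mul]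

/-- the bound for `G` as a sum over the decomposition -/
theorem Bd_sum (hp : p.Prime) (K : Subgroup G) (hK : ∀ g : G, g ∈ K ↔ ¬ p ∣ orderOf g)
    {σ : Finset ℕ} (hpσ : p ∈ σ) (δ : ℕ → ℝ) :
    (Nat.card G : ℝ) * Bd σ δ (Nat.card G) =
      ∑ᶠ u : {u : G // u ^ p ^ (Nat.card G).factorization p = 1},
        (open Classical in if (u : G) = 1 then 1 - δ p else 1) *
          ((Nat.card ↥(K ⊓ Subgroup.centralizer {(u : G)}) : ℝ) *
            Bd (σ.erase p) δ (Nat.card G)) := by
  classical
  set n := Nat.card G with hn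
  have hn0 : n ≠ 0 := Nat.card_pos.ne'
  have hcK := card_K hp K hK
  haveI : Fintype {u : G // u ^ p ^ (Nat.card G).factorization p = 1} := Fintype.ofFinite _
  rw [finsum_eq_sum_of_fintype]
  have h1 : ∀ u : {u : G // u ^ p ^ (Nat.card G).factorization p = 1},
      (if (u : G) = 1 then 1 - δ p else 1) *
        ((Nat.card ↥(K ⊓ Subgroup.centralizer {(u : G)}) : ℝ) * Bd (σ.erase p) δ n) =
      (Nat.card ↥(K ⊓ Subgroup.centralizer {(u : G)}) : ℝ) * Bd (σ.erase p) δ n -
        (if (u : G) = 1 then δ p * Nat.card K * Bd (σ.erase p) δ n else 0) := by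
    intro u
    by_cases hu : (u : G) = 1
    · rw [if_pos hu, if_pos hu, hu, centralizer_one_inf]
      ring
    · rw [if_neg hu, if_neg hu, one_mul, sub_zero]
  rw [Finset.sum_congr rfl fun u _ => h1 u, Finset.sum_sub_distrib, ← Finset.sum_mul]
  have h2 := card_eq hp K hK
  rw [finsum_eq_sum_of_fintype] at h2
  rw [← h2]
  have h3 : ∑ u : {u : G // u ^ p ^ (Nat.card G).factorization p = 1},
      (if (u : G) = 1 then δ p * Nat.card K * Bd (σ.erase p) δ n else 0) =
      δ p * Nat.card K * Bd (σ.erase p) δ n := by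
    rw [Finset.sum_eq_single (⟨1, one_pow _⟩ : {u : G // u ^ p ^ (Nat.card G).factorization p = 1})]
    · simp
    · intro b _ hb
      rw [if_neg]
      intro hb1
      exact hb (Subtype.ext hb1)
    · intro h; exact absurd (Finset.mem_univ _) h
  rw [h3, Bd_erase hpσ, hcK]
  have hq0 := pow_fac_pos (n := n) hp
  have h4 : (n : ℝ) = (p ^ n.factorization p : ℕ) * (n / p ^ n.factorization p : ℕ) := by
    rw [← Nat.cast_mul, Nat.ordProj_mul_ordCompl_eq_self]
  have h5 : (n : ℝ) * (1 - δ p / (p ^ n.factorization p : ℕ)) =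
      n - δ p * (n / p ^ n.factorization p : ℕ) := by
    have h6 : (n : ℝ) * (δ p / (p ^ n.factorization p : ℕ)) =
        δ p * (n / p ^ n.factorization p : ℕ) := by
      nth_rewrite 1 [h4]
      field_simp
    rw [mul_sub, h6, mul_one]
  rw [← mul_assoc, h5]
  ring

/-- the primes different from `p` -/
theorem Bd_K (hp : p.Prime) (K : Subgroup G) (hK : ∀ g : G, g ∈ K ↔ ¬ p ∣ orderOf g)
    {σ : Finset ℕ} (hpσ : p ∉ σ) (δ : ℕ → ℝ) : Bd σ δ (Nat.card K) = Bd σ δ (Nat.card G) := by
  unfold Bd
  apply Finset.prod_congr rfl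
  intro q hq
  have hqp : q ≠ p := fun h => hpσ (h ▸ hq)
  rw [card_K hp K hK, Nat.factorization_ordCompl, Finsupp.erase_ne hqp]

/-- equality for commutative groups -/
theorem Sm_comm (σ : Finset ℕ) (δ : ℕ → ℝ) : (∀ p ∈ σ, p.Prime) → ∀ (C : Type) [Group C] [Finite C],
    (∀ x y : C, x * y = y * x) → Sm σ δ C = Nat.card C * Bd σ δ (Nat.card C) := by
  classical
  induction σ using Finset.induction_on with
  | empty =>
    intro _ C _ _ _
    haveI := Fintype.ofFinite C
    unfold Sm Bd phi
    rw [finsum_eq_sum_of_fintype]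
    simp
  | insert p σ hpσ ih =>
    intro hσ C _ _ hC
    have hp := hσ p (Finset.mem_insert_self p σ)
    obtain ⟨K, hK⟩ : NC C p := by
      refine ⟨{ carrier := {g | ¬ p ∣ orderOf g}
                mul_mem' := fun {a b} ha hb => QUO2.mul_reg hp ha hb (hC a b)
                one_mem' := ?_
                inv_mem' := ?_ }, fun g => Iff.rfl⟩
      · change ¬ p ∣ orderOf (1 : C)
        rw [orderOf_one]
        exact hp.one_lt.ne' ∘ Nat.dvd_one.1
      · intro x hx
        change ¬ p ∣ orderOf x⁻¹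
        rw [orderOf_inv]
        exact hx
    have hps : p ∈ insert p σ := Finset.mem_insert_self p σ
    rw [Sm_eq hp K hK hσ hps δ, Bd_sum hp K hK hps δ]
    apply finsum_congr
    intro u
    congr 1
    rw [Finset.erase_insert hpσ]
    have h1 : K ⊓ Subgroup.centralizer {(u : C)} = K := by
      rw [inf_eq_left]
      intro x _
      rw [Subgroup.mem_centralizer_singleton_iff]
      exact hC _ _
    rw [h1, ih (fun q hq => hσ q (Finset.mem_insert_of_mem hq)) K
      (fun x y => Subtype.ext (hC x y)), Bd_K hp K hK hpσ]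

/-- equality of the bounds -/
theorem Bd_eq_iff {σ : Finset ℕ} (hσ : ∀ p ∈ σ, p.Prime) (hδ : ∀ p ∈ σ, 0 < δ p ∧ δ p ≤ 1 / p)
    {a b : ℕ} (hab : a ∣ b) (hb : b ≠ 0) (h : Bd σ δ b ≤ Bd σ δ a) :
    ∀ p ∈ σ, a.factorization p = b.factorization p := by
  classical
  intro p hp
  have hδ' : ∀ q ∈ σ, 0 ≤ δ q ∧ δ q ≤ 1 / q := fun q hq => ⟨(hδ q hq).1.le, (hδ q hq).2⟩
  have hle : a.factorization p ≤ b.factorization p :=
    (Nat.factorization_le_iff_dvd (ne_zero_of_dvd_ne_zero hb hab) hb).2 hab p
  by_contra hne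
  have hlt : a.factorization p < b.factorization p := lt_of_le_of_ne hle hne
  have h1 := Bd_mono (δ := δ) (σ := σ.erase p) (fun q hq => hσ q (Finset.mem_of_mem_erase hq))
    (fun q hq => hδ' q (Finset.mem_of_mem_erase hq)) hab hb
  have h2 := Bd_pos (δ := δ) (σ := σ.erase p) (a := b)
    (fun q hq => hσ q (Finset.mem_of_mem_erase hq)) (fun q hq => hδ' q (Finset.mem_of_mem_erase hq))
  rw [Bd_erase hp, Bd_erase hp] at h
  have ha := pow_fac_pos (n := a) (hσ p hp)
  have h3 : ((p ^ a.factorization p : ℕ) : ℝ) < (p ^ b.factorization p : ℕ) := by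
    exact_mod_cast Nat.pow_lt_pow_right (hσ p hp).one_lt hlt
  have h4 : δ p / (p ^ b.factorization p : ℕ) < δ p / (p ^ a.factorization p : ℕ) :=
    div_lt_div_of_pos_left (hδ p hp).1 (by linarith) h3
  have h5 := (fac_mem (n := a) (hσ p hp) (hδ' p hp)).2
  have h6 : (1 - δ p / (p ^ a.factorization p : ℕ)) * Bd (σ.erase p) δ a ≤
      (1 - δ p / (p ^ a.factorization p : ℕ)) * Bd (σ.erase p) δ b :=
    mul_le_mul_of_nonneg_left h1 (by linarith)
  have h7 : (1 - δ p / (p ^ a.factorization p : ℕ)) * Bd (σ.erase p) δ b <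
      (1 - δ p / (p ^ b.factorization p : ℕ)) * Bd (σ.erase p) δ b :=
    mul_lt_mul_of_pos_right (by linarith) h2
  linarith

/-- the direct product of a normal complement with a Sylow subgroup -/
theorem nilp_of (hp : p.Prime) (K : Subgroup G) (hK : ∀ g : G, g ∈ K ↔ ¬ p ∣ orderOf g)
    (hnil : Group.IsNilpotent K)
    (hcen : ∀ u : G, u ^ p ^ (Nat.card G).factorization p = 1 → ∀ x ∈ K, x * u = u * x) :
    Group.IsNilpotent G := by
  haveI : Fact p.Prime := ⟨hp⟩
  obtain ⟨P⟩ : Nonempty (Sylow p G) := inferInstance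
  have hPc : Nat.card P = p ^ (Nat.card G).factorization p := P.card_eq_multiplicity
  have hPn : Group.IsNilpotent P := P.isPGroup'.isNilpotent
  have hu : ∀ u ∈ P, u ^ p ^ (Nat.card G).factorization p = 1 := by
    intro u hu
    rw [← hPc]
    exact congrArg Subtype.val (pow_card_eq_one' (x := (⟨u, hu⟩ : P)))
  have hcomm : ∀ (x : K) (u : P), Commute (K.subtype x) ((P : Subgroup G).subtype u) := fun x u =>
    hcen u (hu u u.2) x x.2
  have hco : Nat.Coprime (Nat.card K) (Nat.card P) := by
    rw [card_K hp K hK, hPc]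
    exact (Nat.Coprime.pow_left _ (Nat.coprime_ordCompl hp Nat.card_pos.ne')).symm
  have hcompl : Subgroup.IsComplement' K (P : Subgroup G) := by
    apply Subgroup.isComplement'_of_coprime _ hco
    rw [card_K hp K hK]
    rw [hPc, mul_comm]
    exact Nat.ordProj_mul_ordCompl_eq_self _ _
  have hsurj : Function.Surjective (MonoidHom.noncommCoprod K.subtype (P : Subgroup G).subtype hcomm) := by
    intro g
    obtain ⟨x, hx⟩ := hcompl.2 g
    exact ⟨x, hx⟩
  exact Group.nilpotent_of_surjective _ hsurj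

end

/-- **Equality in the main inequality.** -/
theorem eq_nilp (C : (G : Type) → [Group G] → Prop) (hN : S_NUM)
    (hsub : ∀ (G : Type) [Group G] (H : Subgroup G), C G → C H)
    (hD : ∀ (G : Type) [Group G] [Finite G] (p : ℕ), p.Prime → C G → Dich G p) (N : ℕ) :
    ∀ (G : Type) [Group G] [Finite G], Nat.card G ≤ N → C G → ∀ (σ : Finset ℕ) (δ : ℕ → ℝ),
      (∀ p ∈ σ, p.Prime) → (∀ p ∈ σ, 0 < δ p ∧ δ p ≤ 1 / p) →
      (∀ p : ℕ, p.Prime → p ∣ Nat.card G → p ∈ σ) →
      Sm σ δ G = Nat.card G * Bd σ δ (Nat.card G) → Group.IsNilpotent G := by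
  classical
  induction N with
  | zero =>
    intro G _ _ h
    have := Nat.card_pos (α := G)
    omega
  | succ N ih =>
    intro G _ _ hG hC σ δ hσ hδ hall heq
    set n := Nat.card G with hn
    have hn0 : n ≠ 0 := Nat.card_pos.ne'
    have hδ' : ∀ q ∈ σ, 0 ≤ δ q ∧ δ q ≤ 1 / q := fun q hq => ⟨(hδ q hq).1.le, (hδ q hq).2⟩
    by_cases hn1 : n = 1
    · haveI : Subsingleton G := (Nat.card_eq_one_iff_unique.1 (hn ▸ hn1)).1
      infer_instance
    by_cases hA : ∃ p ∈ σ, p ∣ n ∧ NC G p
    · obtain ⟨p, hpσ, hpn, K, hK⟩ := hA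
      have hp := hσ p hpσ
      have hσ0 : ∀ q ∈ σ.erase p, q.Prime := fun q hq => hσ q (Finset.mem_of_mem_erase hq)
      have hδ0 : ∀ q ∈ σ.erase p, 0 < δ q ∧ δ q ≤ 1 / q := fun q hq =>
        hδ q (Finset.mem_of_mem_erase hq)
      have hδ0' : ∀ q ∈ σ.erase p, 0 ≤ δ q ∧ δ q ≤ 1 / q := fun q hq =>
        hδ' q (Finset.mem_of_mem_erase hq)
      have hcK := card_K hp K hK
      have hlt : Nat.card K < n := by
        rw [hcK]
        apply Nat.div_lt_self (Nat.pos_of_ne_zero hn0)
        exact Nat.one_lt_pow (hp.factorization_pos_of_dvd hn0 hpn).ne' hp.one_lt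
      have hβ := Bd_pos (a := n) hσ0 hδ0'
      have hδ2 := le_half hp (hδ' p hpσ)
      have hH1 : ∀ u : G, Sm (σ.erase p) δ ↥(K ⊓ Subgroup.centralizer {(u : G)}) ≤
          Nat.card ↥(K ⊓ Subgroup.centralizer {(u : G)}) *
            Bd (σ.erase p) δ (Nat.card ↥(K ⊓ Subgroup.centralizer {(u : G)})) := by
        intro u
        exact main C hN hsub hD _ _ le_rfl (hsub G _ hC) (σ.erase p) δ hσ0 hδ0'
      have hH2 : ∀ u : G, Bd (σ.erase p) δ (Nat.card ↥(K ⊓ Subgroup.centralizer {(u : G)})) ≤
          Bd (σ.erase p) δ n := fun u => Bd_mono hσ0 hδ0' (Subgroup.card_subgroup_dvd_card _) hn0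
      have hH : ∀ u : G, Sm (σ.erase p) δ ↥(K ⊓ Subgroup.centralizer {(u : G)}) ≤
          Nat.card ↥(K ⊓ Subgroup.centralizer {(u : G)}) * Bd (σ.erase p) δ n := fun u =>
        (hH1 u).trans (mul_le_mul_of_nonneg_left (hH2 u) (Nat.cast_nonneg _))
      rw [Sm_eq hp K hK hσ hpσ δ, Bd_sum hp K hK hpσ δ] at heq
      haveI : Fintype {u : G // u ^ p ^ (Nat.card G).factorization p = 1} := Fintype.ofFinite _
      rw [finsum_eq_sum_of_fintype, finsum_eq_sum_of_fintype] at heq
      have hw : ∀ u : G, (0 : ℝ) < (if u = 1 then 1 - δ p else 1) := by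
        intro u
        split_ifs
        · linarith
        · exact one_pos
      have h1 := (Finset.sum_eq_sum_iff_of_le (fun u _ =>
        mul_le_mul_of_nonneg_left (hH (u : {u : G // u ^ p ^ (Nat.card G).factorization p = 1}).1)
          (hw u.1).le)).1 heq
      have h2 : ∀ u : G, u ^ p ^ n.factorization p = 1 →
          Sm (σ.erase p) δ ↥(K ⊓ Subgroup.centralizer {(u : G)}) =
            Nat.card ↥(K ⊓ Subgroup.centralizer {(u : G)}) * Bd (σ.erase p) δ n := by
        intro u hu
        exact mul_left_cancel₀ (hw u).ne' (h1 ⟨u, hu⟩ (Finset.mem_univ _))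
      -- the elements of order a power of `p` centralize `K`
      have hcen : ∀ u : G, u ^ p ^ n.factorization p = 1 → ∀ x ∈ K, x * u = u * x := by
        intro u hu
        have e1 := h2 u hu
        have e2 := hH1 u
        rw [e1] at e2
        have e3 : (0 : ℝ) < Nat.card ↥(K ⊓ Subgroup.centralizer {(u : G)}) := by
          exact_mod_cast Nat.card_pos
        have e4 := le_of_mul_le_mul_left e2 e3
        have e5 := Bd_eq_iff hσ0 hδ0 (Subgroup.card_subgroup_dvd_card _) hn0 e4
        have e6 : Nat.card ↥(K ⊓ Subgroup.centralizer {(u : G)}) = Nat.card K := by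
          apply Nat.eq_of_factorization_eq Nat.card_pos.ne' Nat.card_pos.ne'
          intro q
          by_cases hq : q.Prime
          · by_cases hqp : q = p
            · subst hqp
              have : ¬ q ∣ Nat.card K := by
                rw [hcK]
                exact Nat.not_dvd_ordCompl hp hn0
              rw [Nat.factorization_eq_zero_of_not_dvd this, Nat.factorization_eq_zero_of_not_dvd]
              exact fun h => this (h.trans (Subgroup.card_dvd_of_le inf_le_left))
            · have h3 : (Nat.card K).factorization q = n.factorization q := by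
                rw [hcK, Nat.factorization_ordCompl, Finsupp.erase_ne hqp]
              rw [h3]
              by_cases hqn : q ∣ n
              · exact e5 q (Finset.mem_erase.2 ⟨hqp, hall q hq hqn⟩)
              · rw [Nat.factorization_eq_zero_of_not_dvd hqn,
                  Nat.factorization_eq_zero_of_not_dvd]
                exact fun h => hqn (h.trans (Subgroup.card_subgroup_dvd_card _))
          · rw [Nat.factorization_eq_zero_of_not_prime _ hq,
              Nat.factorization_eq_zero_of_not_prime _ hq]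
        have e7 : K ⊓ Subgroup.centralizer {(u : G)} = K :=
          Subgroup.eq_of_le_of_card_ge inf_le_left e6.symm.le
        intro x hx
        rw [← e7] at hx
        exact Subgroup.mem_centralizer_singleton_iff.1 (Subgroup.mem_inf.1 hx).2
      have hnil : Group.IsNilpotent K := by
        apply ih K (by omega) (hsub G K hC) (σ.erase p) δ hσ0 hδ0
        · intro q hq hqK
          refine Finset.mem_erase.2 ⟨?_, hall q hq (hqK.trans (Subgroup.card_subgroup_dvd_card K))⟩
          rintro rfl
          rw [hcK] at hqK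
          exact Nat.not_dvd_ordCompl hp hn0 hqK
        · have := h2 1 (one_pow _)
          rw [centralizer_one_inf] at this
          rw [this, Bd_K hp K hK (Finset.notMem_erase p σ)]
      exact nilp_of hp K hK hnil hcen
    · exfalso
      push Not at hA
      rw [Sm_filter, Bd_filter] at heq
      have hpr : 0 < ∏ p ∈ σ.filter fun p => ¬ p ∣ n, (1 - δ p) := by
        apply Finset.prod_pos
        intro p hp
        have hp' := (Finset.mem_filter.1 hp).1
        linarith [le_half (hσ p hp') (hδ' p hp')]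
      have hlt := (caseB hN (G := G) (σ := σ.filter fun p => p ∣ n) (δ := δ)
        (fun p hp => hσ p (Finset.mem_filter.1 hp).1) (fun p hp => hδ' p (Finset.mem_filter.1 hp).1)
        (fun p hp => by
          obtain ⟨h1, h2⟩ := Finset.mem_filter.1 hp
          exact (hD G p (hσ p h1) hC).resolve_left (hA p h1 h2))).2
        (fun p hp => (hδ p (Finset.mem_filter.1 hp).1).1)
        (fun p hp h => (hσ p (Finset.mem_filter.1 hp).1).one_lt.ne' (Nat.dvd_one.1 h))
        (by
          obtain ⟨q, hq, hqn⟩ := Nat.exists_prime_and_dvd hn1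
          exact ⟨q, Finset.mem_filter.2 ⟨hall q hq hqn, hqn⟩⟩)
      have h2 := mul_lt_mul_of_pos_left hlt hpr
      rw [heq] at h2
      have h3 : (∏ p ∈ σ.filter fun p => ¬ p ∣ n, (1 - δ p)) *
          (n * Bd (σ.filter fun p => p ∣ n) δ n) =
          n * ((∏ p ∈ σ.filter fun p => ¬ p ∣ n, (1 - δ p)) * Bd (σ.filter fun p => p ∣ n) δ n) := by
        ring
      rw [← hn, h3] at h2
      exact lt_irrefl _ h2

end Pool.Agent.Y536.OP
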