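import Pool.Agent.Y536.OP.Parts

/-! Project OP: the main inequality. -/

set_option autoImplicit false
set_option linter.unusedSectionVars false
set_option linter.style.haveILetI false

namespace Pool.Agent.Y536.OP

open Finset

/-- Weierstrass' inequality. -/
theorem weier (σ : Finset ℕ) (x : ℕ → ℝ) (hx : ∀ p ∈ σ, 0 ≤ x p ∧ x p ≤ 1) :
    1 - ∑ p ∈ σ, x p ≤ ∏ p ∈ σ, (1 - x p) := by
  classical
  induction σ using Finset.induction_on with
  | empty => simp
  | insert p σ hp ih =>
    rw [Finset.sum_insert hp, Finset.prod_insert hp]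
    have h1 := ih (fun q hq => hx q (Finset.mem_insert_of_mem hq))
    have h2 := hx p (Finset.mem_insert_self p σ)
    have h3 : 0 ≤ ∑ q ∈ σ, x q := Finset.sum_nonneg fun q hq => (hx q (Finset.mem_insert_of_mem hq)).1
    have h4 : (1 - x p) * (1 - ∑ q ∈ σ, x q) ≤ (1 - x p) * ∏ q ∈ σ, (1 - x q) :=
      mul_le_mul_of_nonneg_left h1 (by linarith)
    nlinarith [mul_nonneg h2.1 h3]

section
variable {δ : ℕ → ℝ}

theorem pow_fac_pos {p n : ℕ} (hp : p.Prime) : (1 : ℝ) ≤ (p ^ n.factorization p : ℕ) := by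
  exact_mod_cast Nat.one_le_pow _ _ hp.pos

theorem fac_mem {p n : ℕ} (hp : p.Prime) (hδ : 0 ≤ δ p ∧ δ p ≤ 1 / p) :
    0 ≤ δ p / (p ^ n.factorization p : ℕ) ∧ δ p / (p ^ n.factorization p : ℕ) ≤ 1 / 2 := by
  have h1 := pow_fac_pos (n := n) hp
  have h2 : (2 : ℝ) ≤ p := by exact_mod_cast hp.two_le
  have h3 : δ p ≤ 1 / 2 := hδ.2.trans (one_div_le_one_div_of_le (by norm_num) h2)
  refine ⟨div_nonneg hδ.1 (by linarith), ?_⟩
  rw [div_le_iff₀ (by linarith)]
  nlinarith

theorem le_half {p : ℕ} (hp : p.Prime) (hδ : 0 ≤ δ p ∧ δ p ≤ 1 / p) : δ p ≤ 1 / 2 := by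
  have h2 : (2 : ℝ) ≤ p := by exact_mod_cast hp.two_le
  exact hδ.2.trans (one_div_le_one_div_of_le (by norm_num) h2)

/-- monotonicity of the bound -/
theorem fac_mono {p a b : ℕ} (hp : p.Prime) (hδ : 0 ≤ δ p ∧ δ p ≤ 1 / p) (hab : a ∣ b)
    (hb : b ≠ 0) : 1 - δ p / (p ^ a.factorization p : ℕ) ≤ 1 - δ p / (p ^ b.factorization p : ℕ) := by
  have ha := pow_fac_pos (n := a) hp
  have hle : a.factorization p ≤ b.factorization p :=
    (Nat.factorization_le_iff_dvd (ne_zero_of_dvd_ne_zero hb hab) hb).2 hab p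
  have : ((p ^ a.factorization p : ℕ) : ℝ) ≤ (p ^ b.factorization p : ℕ) := by
    exact_mod_cast Nat.pow_le_pow_right hp.pos hle
  have := div_le_div_of_nonneg_left hδ.1 (by linarith) this
  linarith

theorem Bd_mono {σ : Finset ℕ} (hσ : ∀ p ∈ σ, p.Prime) (hδ : ∀ p ∈ σ, 0 ≤ δ p ∧ δ p ≤ 1 / p)
    {a b : ℕ} (hab : a ∣ b) (hb : b ≠ 0) : Bd σ δ a ≤ Bd σ δ b := by
  unfold Bd
  apply Finset.prod_le_prod
  · intro p hp
    have := (fac_mem (n := a) (hσ p hp) (hδ p hp)).2
    linarith
  · intro p hp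
    exact fac_mono (hσ p hp) (hδ p hp) hab hb

theorem Bd_pos {σ : Finset ℕ} (hσ : ∀ p ∈ σ, p.Prime) (hδ : ∀ p ∈ σ, 0 ≤ δ p ∧ δ p ≤ 1 / p)
    {a : ℕ} : 0 < Bd σ δ a := by
  unfold Bd
  apply Finset.prod_pos
  intro p hp
  have := (fac_mem (n := a) (hσ p hp) (hδ p hp)).2
  linarith

end

section
variable (C : (G : Type) → [Group G] → Prop)

/-- the bound when no element of `σ` is exceptional -/
theorem caseB (hN : S_NUM) {G : Type} [Group G] [Finite G] {σ : Finset ℕ} {δ : ℕ → ℝ}
    (hσ : ∀ p ∈ σ, p.Prime) (hδ : ∀ p ∈ σ, 0 ≤ δ p ∧ δ p ≤ 1 / p)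
    (hd : ∀ p ∈ σ, (p + 1) * (Nat.card G / p ^ (Nat.card G).factorization p) ≤ 2 * regs G p) :
    Sm σ δ G ≤ Nat.card G * Bd σ δ (Nat.card G) ∧
      ((∀ p ∈ σ, 0 < δ p) → (∀ p ∈ σ, ¬ p ∣ 1) → σ.Nonempty →
        Sm σ δ G < Nat.card G * Bd σ δ (Nat.card G)) := by
  classical
  haveI := Fintype.ofFinite G
  set n := Nat.card G with hn
  have hn0 : (0 : ℝ) < n := by exact_mod_cast Nat.card_pos
  -- pointwise
  let S : G → Finset ℕ := fun g => σ.filter fun p => ¬ p ∣ orderOf g
  have hS : ∀ g, phi σ δ g = ∏ p ∈ S g, (1 - δ p) := by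
    intro g
    unfold phi
    rw [Finset.prod_filter]
    apply Finset.prod_congr rfl
    intro p _
    by_cases h : p ∣ orderOf g <;> simp [h]
  have hpt : ∀ g, phi σ δ g ≤ 1 - ∑ p ∈ S g, 2 * δ p / (p + 1) := by
    intro g
    have h1 := (hN (S g) δ (fun p hp => hσ p (Finset.mem_filter.1 hp).1)).1
      (fun p hp => hδ p (Finset.mem_filter.1 hp).1)
    rw [hS]; linarith
  have hsum : ∑ g : G, ∑ p ∈ S g, 2 * δ p / (p + 1) = ∑ p ∈ σ, (regs G p : ℝ) * (2 * δ p / (p + 1)) := by
    simp only [S, Finset.sum_filter]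
    rw [Finset.sum_comm]
    apply Finset.sum_congr rfl
    intro p _
    rw [← Finset.sum_filter, Finset.sum_const, nsmul_eq_mul]
    congr 2
    unfold regs
    rw [Nat.card_eq_fintype_card, Fintype.card_subtype]
  have hlow : (n : ℝ) * ∑ p ∈ σ, δ p / (p ^ n.factorization p : ℕ) ≤
      ∑ p ∈ σ, (regs G p : ℝ) * (2 * δ p / (p + 1)) := by
    rw [Finset.mul_sum]
    apply Finset.sum_le_sum
    intro p hp
    have h1 := hd p hp
    have hp1 := pow_fac_pos (n := n) (hσ p hp)
    have hp0 : (0 : ℝ) < (p : ℝ) + 1 := by positivity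
    have h2 : (n : ℝ) = (p ^ n.factorization p : ℕ) * (n / p ^ n.factorization p : ℕ) := by
      rw [← Nat.cast_mul, Nat.ordProj_mul_ordCompl_eq_self]
    have h3 : ((p : ℝ) + 1) * (n / p ^ n.factorization p : ℕ) ≤ 2 * regs G p := by
      exact_mod_cast h1
    set q : ℝ := ((p ^ n.factorization p : ℕ) : ℝ) with hq
    set m : ℝ := ((n / p ^ n.factorization p : ℕ) : ℝ) with hm
    have h4 : (n : ℝ) * (δ p / q) = m * δ p := by
      rw [h2]; field_simp
    rw [h4]
    have h5 : (regs G p : ℝ) * (2 * δ p / (p + 1)) = (2 * regs G p) * δ p / (p + 1) := by ring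
    rw [h5, le_div_iff₀ hp0]
    have := mul_le_mul_of_nonneg_right h3 (hδ p hp).1
    linarith
  have hw := weier σ (fun p => δ p / (p ^ n.factorization p : ℕ)) (fun p hp => by
    have := fac_mem (n := n) (hσ p hp) (hδ p hp)
    exact ⟨this.1, by linarith [this.2]⟩)
  have hBd : Bd σ δ n = ∏ p ∈ σ, (1 - δ p / (p ^ n.factorization p : ℕ)) := rfl
  rw [← hBd] at hw
  have hw2 := mul_le_mul_of_nonneg_left hw hn0.le
  have hcard : ∑ g : G, (1 : ℝ) = n := by
    rw [Finset.sum_const, Finset.card_univ, nsmul_eq_mul, mul_one, hn, Nat.card_eq_fintype_card]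
  have hSm : Sm σ δ G = ∑ g : G, phi σ δ g := finsum_eq_sum_of_fintype _
  have htot : ∑ g : G, (1 - ∑ p ∈ S g, 2 * δ p / (p + 1)) ≤ n * Bd σ δ n := by
    rw [Finset.sum_sub_distrib, hcard, hsum]
    linarith
  refine ⟨?_, ?_⟩
  · rw [hSm]
    exact (Finset.sum_le_sum fun g _ => hpt g).trans htot
  · intro hpos hone hne
    rw [hSm]
    refine lt_of_lt_of_le (Finset.sum_lt_sum (fun g _ => hpt g) ⟨1, Finset.mem_univ _, ?_⟩) htot
    have hS1 : S (1 : G) = σ := by
      apply Finset.filter_true_of_mem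
      intro p hp
      rw [orderOf_one]
      exact hone p hp
    have h1 := (hN (S (1 : G)) δ (fun p hp => hσ p (Finset.mem_filter.1 hp).1)).2
      (fun p hp => ⟨hpos p (Finset.mem_filter.1 hp).1, (hδ p (Finset.mem_filter.1 hp).1).2⟩)
      (by rw [hS1]; exact hne)
    rw [hS]; linarith

/-- removing the primes which do not divide the order -/
theorem Sm_filter {G : Type} [Group G] [Finite G] (σ : Finset ℕ) (δ : ℕ → ℝ) :
    Sm σ δ G = (∏ p ∈ σ.filter fun p => ¬ p ∣ Nat.card G, (1 - δ p)) *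
      Sm (σ.filter fun p => p ∣ Nat.card G) δ G := by
  classical
  haveI := Fintype.ofFinite G
  unfold Sm
  rw [finsum_eq_sum_of_fintype, finsum_eq_sum_of_fintype, Finset.mul_sum]
  apply Finset.sum_congr rfl
  intro g _
  unfold phi
  rw [← Finset.prod_filter_mul_prod_filter_not σ (fun p => p ∣ Nat.card G), mul_comm]
  congr 1
  apply Finset.prod_congr rfl
  intro p hp
  rw [if_neg]
  exact fun h => (Finset.mem_filter.1 hp).2 (h.trans (orderOf_dvd_natCard g))

theorem Bd_filter {n : ℕ} (σ : Finset ℕ) (δ : ℕ → ℝ) :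
    Bd σ δ n = (∏ p ∈ σ.filter fun p => ¬ p ∣ n, (1 - δ p)) *
      Bd (σ.filter fun p => p ∣ n) δ n := by
  classical
  unfold Bd
  rw [← Finset.prod_filter_mul_prod_filter_not σ (fun p => p ∣ n), mul_comm]
  congr 1
  apply Finset.prod_congr rfl
  intro p hp
  rw [Nat.factorization_eq_zero_of_not_dvd (Finset.mem_filter.1 hp).2, pow_zero, Nat.cast_one,
    div_one]

theorem Bd_erase {n p : ℕ} {σ : Finset ℕ} (hp : p ∈ σ) (δ : ℕ → ℝ) :
    Bd σ δ n = (1 - δ p / (p ^ n.factorization p : ℕ)) * Bd (σ.erase p) δ n := by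
  classical
  unfold Bd
  rw [Finset.mul_prod_erase σ (fun p => 1 - δ p / (p ^ n.factorization p : ℕ)) hp]

/-- **The main inequality.** -/
theorem main (hN : S_NUM) (hsub : ∀ (G : Type) [Group G] (H : Subgroup G), C G → C H)
    (hD : ∀ (G : Type) [Group G] [Finite G] (p : ℕ), p.Prime → C G → Dich G p) (N : ℕ) :
    ∀ (G : Type) [Group G] [Finite G], Nat.card G ≤ N → C G → ∀ (σ : Finset ℕ) (δ : ℕ → ℝ),
      (∀ p ∈ σ, p.Prime) → (∀ p ∈ σ, 0 ≤ δ p ∧ δ p ≤ 1 / p) →
      Sm σ δ G ≤ Nat.card G * Bd σ δ (Nat.card G) := by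
  classical
  induction N with
  | zero =>
    intro G _ _ h
    have := Nat.card_pos (α := G)
    omega
  | succ N ih =>
    intro G _ _ hG hC σ δ hσ hδ
    set n := Nat.card G with hn
    have hn0 : n ≠ 0 := Nat.card_pos.ne'
    by_cases hA : ∃ p ∈ σ, p ∣ n ∧ NC G p
    · obtain ⟨p, hpσ, hpn, K, hK⟩ := hA
      have hp := hσ p hpσ
      have hσ0 : ∀ q ∈ σ.erase p, q.Prime := fun q hq => hσ q (Finset.mem_of_mem_erase hq)
      have hδ0 : ∀ q ∈ σ.erase p, 0 ≤ δ q ∧ δ q ≤ 1 / q := fun q hq =>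
        hδ q (Finset.mem_of_mem_erase hq)
      have hcK := card_K hp K hK
      have hlt : Nat.card K < n := by
        rw [hcK]
        apply Nat.div_lt_self (Nat.pos_of_ne_zero hn0)
        exact Nat.one_lt_pow (hp.factorization_pos_of_dvd hn0 hpn).ne' hp.one_lt
      have hβ := Bd_pos (a := n) hσ0 hδ0
      have hδp := hδ p hpσ
      have hδ2 := le_half hp hδp
      have hH : ∀ u : G, Sm (σ.erase p) δ ↥(K ⊓ Subgroup.centralizer {(u : G)}) ≤
          Nat.card ↥(K ⊓ Subgroup.centralizer {(u : G)}) * Bd (σ.erase p) δ n := by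
        intro u
        have hle : Nat.card ↥(K ⊓ Subgroup.centralizer {(u : G)}) ≤ Nat.card K :=
          Subgroup.card_le_of_le inf_le_left
        have h1 := ih ↥(K ⊓ Subgroup.centralizer {(u : G)}) (by omega) (hsub G _ hC) (σ.erase p) δ
          hσ0 hδ0
        refine h1.trans (mul_le_mul_of_nonneg_left ?_ (Nat.cast_nonneg _))
        exact Bd_mono hσ0 hδ0 (Subgroup.card_subgroup_dvd_card _) hn0
      rw [Sm_eq hp K hK hσ hpσ δ]
      haveI : Fintype {u : G // u ^ p ^ (Nat.card G).factorization p = 1} := Fintype.ofFinite _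
      rw [finsum_eq_sum_of_fintype]
      have h1 : ∀ u : {u : G // u ^ p ^ (Nat.card G).factorization p = 1},
          (if (u : G) = 1 then 1 - δ p else 1) *
            Sm (σ.erase p) δ ↥(K ⊓ Subgroup.centralizer {(u : G)}) ≤
          (Nat.card ↥(K ⊓ Subgroup.centralizer {(u : G)}) : ℝ) * Bd (σ.erase p) δ n -
            (if (u : G) = 1 then δ p * Nat.card K * Bd (σ.erase p) δ n else 0) := by
        intro u
        by_cases hu : (u : G) = 1
        · rw [if_pos hu, if_pos hu]
          have h2 := mul_le_mul_of_nonneg_left (hH u) (show 0 ≤ 1 - δ p by linarith)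
          have h3 : Nat.card ↥(K ⊓ Subgroup.centralizer {(u : G)}) = Nat.card K := by
            have : K ⊓ Subgroup.centralizer {(u : G)} = K := by
              rw [inf_eq_left, hu]
              intro x _
              rw [Subgroup.mem_centralizer_singleton_iff, mul_one, one_mul]
            rw [this]
          rw [h3] at h2 ⊢
          linarith
        · rw [if_neg hu, if_neg hu, one_mul, sub_zero]
          exact hH u
      refine (Finset.sum_le_sum fun u _ => h1 u).trans ?_
      rw [Finset.sum_sub_distrib, ← Finset.sum_mul]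
      have h2 := card_eq hp K hK
      rw [finsum_eq_sum_of_fintype] at h2
      rw [← h2]
      have h3 : ∑ u : {u : G // u ^ p ^ (Nat.card G).factorization p = 1},
          (if (u : G) = 1 then δ p * Nat.card K * Bd (σ.erase p) δ n else 0) =
          δ p * Nat.card K * Bd (σ.erase p) δ n := by
        rw [Finset.sum_eq_single (⟨1, one_pow _⟩ : {u : G // u ^ p ^ (Nat.card G).factorization p = 1})]
        · simp
        · intro b _ hb
          rw [if_neg]
          intro hb1
          exact hb (Subtype.ext hb1)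
        · intro h; exact absurd (Finset.mem_univ _) h
      rw [h3, Bd_erase hpσ, hcK]
      have hq0 := pow_fac_pos (n := n) hp
      have h4 : (n : ℝ) = (p ^ n.factorization p : ℕ) * (n / p ^ n.factorization p : ℕ) := by
        rw [← Nat.cast_mul, Nat.ordProj_mul_ordCompl_eq_self]
      have h5 : (n : ℝ) * (1 - δ p / (p ^ n.factorization p : ℕ)) =
          n - δ p * (n / p ^ n.factorization p : ℕ) := by
        have h6 : (n : ℝ) * (δ p / (p ^ n.factorization p : ℕ)) =
            δ p * (n / p ^ n.factorization p : ℕ) := by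
          nth_rewrite 1 [h4]
          field_simp
        rw [mul_sub, h6, mul_one]
      rw [← mul_assoc, h5]
      apply le_of_eq
      ring
    · push Not at hA
      rw [Sm_filter, Bd_filter]
      have hpr : 0 ≤ ∏ p ∈ σ.filter fun p => ¬ p ∣ n, (1 - δ p) := by
        apply Finset.prod_nonneg
        intro p hp
        have hp' := (Finset.mem_filter.1 hp).1
        linarith [le_half (hσ p hp') (hδ p hp')]
      have := (caseB hN (G := G) (σ := σ.filter fun p => p ∣ n) (δ := δ)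
        (fun p hp => hσ p (Finset.mem_filter.1 hp).1) (fun p hp => hδ p (Finset.mem_filter.1 hp).1)
        (fun p hp => by
          obtain ⟨h1, h2⟩ := Finset.mem_filter.1 hp
          exact (hD G p (hσ p h1) hC).resolve_left (hA p h1 h2))).1
      have h2 := mul_le_mul_of_nonneg_left this hpr
      calc _ ≤ _ := h2
        _ = _ := by ring

end

end Pool.Agent.Y536.OP
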