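import Pool.Agent.Y536.OP.Parts

/-! Project OP, job QUO1: normal subgroups of order prime to `p`. -/

set_option autoImplicit false
set_option linter.unusedSectionVars false
set_option linter.style.haveILetI false

namespace Pool.Agent.Y536.OP.QUO1

open Finset

section
variable {G : Type} [Group G] [Finite G] {p : ℕ}

/-- the part of the order of `G` prime to `p` -/
theorem card_mul (N : Subgroup G) [N.Normal] : Nat.card G = Nat.card (G ⧸ N) * Nat.card N :=
  Subgroup.card_eq_card_quotient_mul_card_subgroup N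

theorem ord_quot_dvd (N : Subgroup G) [N.Normal] (g : G) : orderOf (g : G ⧸ N) ∣ orderOf g :=
  orderOf_map_dvd (QuotientGroup.mk' N) g

theorem reg_iff (hp : p.Prime) (N : Subgroup G) [N.Normal] (hN : ¬ p ∣ Nat.card N) (g : G) :
    p ∣ orderOf (g : G ⧸ N) ↔ p ∣ orderOf g := by
  constructor
  · exact fun h => h.trans (ord_quot_dvd N g)
  · intro h
    have h1 : g ^ orderOf (g : G ⧸ N) ∈ N := by
      rw [← QuotientGroup.eq_one_iff, QuotientGroup.mk_pow, pow_orderOf_eq_one]
    have h2 : g ^ (orderOf (g : G ⧸ N) * Nat.card N) = 1 := by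
      rw [pow_mul]
      exact congrArg (Subtype.val) (pow_card_eq_one' (x := (⟨_, h1⟩ : N)))
    have h3 := h.trans (orderOf_dvd_of_pow_eq_one h2)
    exact (hp.dvd_mul.1 h3).resolve_right hN

end

theorem done : S_QUO1 := by
  classical
  intro G _ _ p hp N _ hN hD
  rcases hD with ⟨K, hK⟩ | hD
  · left
    refine ⟨K.comap (QuotientGroup.mk' N), fun g => ?_⟩
    rw [Subgroup.mem_comap, QuotientGroup.mk'_apply, hK, reg_iff hp N hN]
  · right
    have h1 : regs G p = Nat.card N * regs (G ⧸ N) p := by
      unfold regs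
      have e : {g : G // ¬ p ∣ orderOf g} ≃ N × {x : G ⧸ N // ¬ p ∣ orderOf x} := by
        refine Equiv.trans ?_ (QuotientGroup.preimageMkEquivSubgroupProdSet N {x | ¬ p ∣ orderOf x})
        apply Equiv.subtypeEquivRight
        intro g
        rw [Set.mem_preimage, Set.mem_ofPred_eq, reg_iff hp N hN]
      rw [Nat.card_congr e, Nat.card_prod]
    have h2 : Nat.card G / p ^ (Nat.card G).factorization p =
        Nat.card N * (Nat.card (G ⧸ N) / p ^ (Nat.card (G ⧸ N)).factorization p) := by
      rw [card_mul N, Nat.ordCompl_mul, mul_comm]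
      congr 1
      rw [Nat.factorization_eq_zero_of_not_dvd hN, pow_zero, Nat.div_one]
    rw [h1, h2]
    calc _ = Nat.card N * ((p + 1) * (Nat.card (G ⧸ N) / p ^ (Nat.card (G ⧸ N)).factorization p)) := by
          ring
      _ ≤ Nat.card N * (2 * regs (G ⧸ N) p) := Nat.mul_le_mul_left _ hD
      _ = _ := by ring

end Pool.Agent.Y536.OP.QUO1
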