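import Pool.Agent.Y536.OP.ABL
import Pool.Agent.Y536.OP.AEQ
import Pool.Agent.Y536.OP.QUO2

/-! Project OP: normal subgroups with abelian Sylow `p`-subgroups. -/

set_option autoImplicit false
set_option linter.unusedSectionVars false
set_option linter.style.haveILetI false

namespace Pool.Agent.Y536.OP.QUO3

open Finset

/-- the number of the elements of `Q` which commute with `x` -/
noncomputable def cp {G : Type} [Group G] (Q : Subgroup G) (x : G) : ℕ :=
  Nat.card {u : G // u ∈ Q ∧ x * u = u * x}

section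
variable {G : Type} [Group G] [Fintype G] {p : ℕ}

open Classical in
/-- the formula for a subgroup -/
theorem aint_sub [Fact p.Prime] (H Q : Subgroup G) (hQH : Q ≤ H)
    (hcard : Nat.card Q = p ^ (Nat.card H).factorization p)
    (hab : ∀ x ∈ Q, ∀ y ∈ Q, x * y = y * x) :
    (((univ.filter fun x : G => x ∈ Subgroup.normalizer (Q : Set G) ∧ x ∈ H).card : ℕ) : ℚ) *
      (((univ.filter fun g : G => g ∈ H ∧ ¬ p ∣ orderOf g).card : ℕ) : ℚ) =
      (Nat.card H : ℚ) *
        ∑ x ∈ univ.filter (fun x : G => x ∈ Subgroup.normalizer (Q : Set G) ∧ x ∈ H),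
          1 / (cp Q x : ℚ) := by
  let PH : Sylow p H := Sylow.ofCard (Q.subgroupOf H) (by
    rw [Nat.card_congr (Subgroup.subgroupOfEquivOfLe hQH).toEquiv, hcard])
  have hmem : ∀ u : H, u ∈ PH ↔ (u : G) ∈ Q := by
    intro u
    change u ∈ (PH : Subgroup H) ↔ _
    rw [Sylow.coe_ofCard, Subgroup.mem_subgroupOf]
  have hform := AINT.done AEQ.done H p PH (fun x hx y hy =>
    Subtype.ext (hab x ((hmem x).1 hx) y ((hmem y).1 hy)))
  have hnorm : ∀ x : H, x ∈ Subgroup.normalizer (PH : Set H) ↔
      (x : G) ∈ Subgroup.normalizer (Q : Set G) := by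
    intro x
    have e1 : x ∈ Subgroup.normalizer (PH : Set H) ↔
        ∀ u : H, u ∈ PH ↔ x * u * x⁻¹ ∈ PH := Iff.rfl
    have e2 : (x : G) ∈ Subgroup.normalizer (Q : Set G) ↔
        ∀ u : G, u ∈ Q ↔ (x : G) * u * (x : G)⁻¹ ∈ Q := Iff.rfl
    rw [e1, e2]
    constructor
    · intro h u
      by_cases hu : u ∈ H
      · have := h ⟨u, hu⟩
        rw [hmem, hmem] at this
        exact this
      · constructor
        · exact fun h1 => absurd (hQH h1) hu
        · intro h1
          exfalso
          apply hu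
          have h2 := H.mul_mem (H.mul_mem (H.inv_mem x.2) (hQH h1)) x.2
          have h3 : (x : G)⁻¹ * ((x : G) * u * (x : G)⁻¹) * x = u := by group
          rwa [h3] at h2
    · intro h u
      rw [hmem, hmem]
      exact h u
  let e : Subgroup.normalizer (PH : Set H) ≃
      {x : G // x ∈ Subgroup.normalizer (Q : Set G) ∧ x ∈ H} :=
    ⟨fun x => ⟨(x : H), (hnorm x).1 x.2, (x : H).2⟩,
      fun x => ⟨⟨(x : G), x.2.2⟩, (hnorm _).2 x.2.1⟩, fun _ => rfl, fun _ => rfl⟩
  have h1 : (∑ᶠ x : Subgroup.normalizer (PH : Set H),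
      1 / (Nat.card {u : H // u ∈ PH ∧ (x : H) * u = u * x} : ℚ)) =
      ∑ᶠ x : {x : G // x ∈ Subgroup.normalizer (Q : Set G) ∧ x ∈ H}, 1 / (cp Q x : ℚ) := by
    rw [← finsum_comp_equiv e]
    apply finsum_congr
    intro x
    have : Nat.card {u : H // u ∈ PH ∧ (x : H) * u = u * x} = cp Q (e x : G) := by
      apply Nat.card_congr
      refine ⟨fun u => ⟨(u : H), (hmem _).1 u.2.1, congrArg Subtype.val u.2.2⟩,
        fun u => ⟨⟨(u : G), hQH u.2.1⟩, (hmem _).2 u.2.1, Subtype.ext u.2.2⟩, ?_, ?_⟩
      · intro u; rfl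
      · intro u; rfl
    rw [this]
  have h2 : regs H p = (univ.filter fun g : G => g ∈ H ∧ ¬ p ∣ orderOf g).card := by
    rw [← AINT.nc_eq]
    apply Nat.card_congr
    refine ⟨fun x => ⟨(x : H), (x : H).2, ?_⟩, fun x => ⟨⟨(x : G), x.2.1⟩, ?_⟩, ?_, ?_⟩
    · rw [Subgroup.orderOf_coe]; exact x.2
    · rw [← Subgroup.orderOf_coe]; exact x.2.2
    · intro x; rfl
    · intro x; rfl
  rw [h1, Nat.card_congr e, AINT.fs_eq (fun x => x ∈ Subgroup.normalizer (Q : Set G) ∧ x ∈ H)
    (fun x => 1 / (cp Q x : ℚ)), h2, AINT.nc_eq] at hform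
  exact hform

end

section
variable {G : Type} [Group G] [Fintype G] {p : ℕ} (N : Subgroup G) [N.Normal] (Q : Subgroup G)

open Classical in
/-- the number of elements of order prime to `p` in a coset -/
noncomputable def rr (p : ℕ) (c : G ⧸ N) : ℚ :=
  (((univ.filter fun g : G => ¬ p ∣ orderOf g).filter fun g : G => (g : G ⧸ N) = c).card : ℕ)

open Classical in
/-- the sum over the elements of the normalizer of `Q` in a coset -/
noncomputable def ss (c : G ⧸ N) : ℚ :=
  ∑ x ∈ (univ.filter fun x : G => x ∈ Subgroup.normalizer (Q : Set G)).filter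
    (fun x : G => (x : G ⧸ N) = c), 1 / (cp Q x : ℚ)

open Classical in
/-- the number of elements of the normalizer of `Q` in a coset -/
noncomputable def ww (c : G ⧸ N) : ℕ :=
  ((univ.filter fun x : G => x ∈ Subgroup.normalizer (Q : Set G)).filter
    (fun x : G => (x : G ⧸ N) = c)).card

/-- all cosets contain equally many elements of the normalizer -/
theorem ww_eq (hF : ∀ c : G ⧸ N, ∃ w ∈ Subgroup.normalizer (Q : Set G), (w : G ⧸ N) = c)
    (c : G ⧸ N) : ww N Q c = ww N Q 1 := by
  classical
  obtain ⟨w, hw, rfl⟩ := hF c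
  unfold ww
  symm
  apply Finset.card_bij (fun x _ => w * x)
  · intro x hx
    simp only [Finset.mem_filter, Finset.mem_univ, true_and] at hx ⊢
    refine ⟨Subgroup.mul_mem _ hw hx.1, ?_⟩
    rw [QuotientGroup.mk_mul, hx.2, mul_one]
  · intro x _ y _ h
    exact mul_left_cancel h
  · intro y hy
    simp only [Finset.mem_filter, Finset.mem_univ, true_and] at hy
    refine ⟨w⁻¹ * y, ?_, by group⟩
    simp only [Finset.mem_filter, Finset.mem_univ, true_and]
    refine ⟨Subgroup.mul_mem _ (Subgroup.inv_mem _ hw) hy.1, ?_⟩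
    rw [QuotientGroup.mk_mul, QuotientGroup.mk_inv, hy.2, inv_mul_cancel]

/-- the difference -/
noncomputable def DD (p : ℕ) (c : G ⧸ N) : ℚ :=
  rr N p c * ww N Q 1 - Nat.card N * ss N Q c

/-- the sum of the differences over a subgroup -/
theorem sumD [Fact p.Prime] (hQN : Q ≤ N) (hcard : Nat.card Q = p ^ (Nat.card N).factorization p)
    (hab : ∀ x ∈ Q, ∀ y ∈ Q, x * y = y * x)
    (hF : ∀ c : G ⧸ N, ∃ w ∈ Subgroup.normalizer (Q : Set G), (w : G ⧸ N) = c)
    [Fintype (G ⧸ N)] (Z : Subgroup (G ⧸ N)) (hZ : ¬ p ∣ Nat.card Z) :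
    (open Classical in ∑ c ∈ univ.filter (fun c => c ∈ Z), DD N Q p c) = 0 := by
  classical
  set H : Subgroup G := Z.comap (QuotientGroup.mk' N) with hH
  have hNH : N ≤ H := by
    intro x hx
    rw [hH, Subgroup.mem_comap, QuotientGroup.mk'_apply, (QuotientGroup.eq_one_iff x).2 hx]
    exact Z.one_mem
  have hmem : ∀ x : G, x ∈ H ↔ (x : G ⧸ N) ∈ Z := fun x => Iff.rfl
  have hHc : Nat.card H = Nat.card N * Nat.card Z := by
    have e : {x : G // x ∈ H} ≃ N × {c : G ⧸ N // c ∈ Z} :=
      QuotientGroup.preimageMkEquivSubgroupProdSet N {c | c ∈ Z}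
    change Nat.card {x : G // x ∈ H} = _
    rw [Nat.card_congr e, Nat.card_prod]
  have hp : p.Prime := Fact.out
  have hcard' : Nat.card Q = p ^ (Nat.card H).factorization p := by
    rw [hHc, Nat.factorization_mul Nat.card_pos.ne' Nat.card_pos.ne', Finsupp.add_apply,
      Nat.factorization_eq_zero_of_not_dvd hZ, add_zero, hcard]
  have hform := aint_sub H Q (hQN.trans hNH) hcard' hab
  -- the three sums over the cosets
  have h1 : (((univ.filter fun g : G => g ∈ H ∧ ¬ p ∣ orderOf g).card : ℕ) : ℚ) =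
      ∑ c ∈ univ.filter (fun c => c ∈ Z), rr N p c := by
    unfold rr
    rw [← Nat.cast_sum]
    congr 1
    have := Finset.card_eq_sum_card_fiberwise (s := univ.filter fun g : G => g ∈ H ∧ ¬ p ∣ orderOf g)
      (t := univ.filter (fun c : G ⧸ N => c ∈ Z)) (f := fun g : G => (g : G ⧸ N)) (by
        intro g hg
        simp only [Finset.coe_filter, Finset.mem_univ, true_and] at hg ⊢
        exact hg.1)
    rw [this]
    apply Finset.sum_congr rfl
    intro c hc
    congr 1
    ext g
    simp only [Finset.mem_filter, Finset.mem_univ, true_and] at hc ⊢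
    constructor
    · exact fun h => ⟨h.1.2, h.2⟩
    · rintro ⟨h1, h2⟩
      exact ⟨⟨by rw [hmem, h2]; exact hc, h1⟩, h2⟩
  have h2 : (∑ x ∈ univ.filter (fun x : G => x ∈ Subgroup.normalizer (Q : Set G) ∧ x ∈ H),
      1 / (cp Q x : ℚ)) = ∑ c ∈ univ.filter (fun c => c ∈ Z), ss N Q c := by
    unfold ss
    have := Finset.sum_fiberwise_of_maps_to
      (s := univ.filter (fun x : G => x ∈ Subgroup.normalizer (Q : Set G) ∧ x ∈ H))
      (t := univ.filter (fun c : G ⧸ N => c ∈ Z)) (g := fun g : G => (g : G ⧸ N)) (by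
        intro g hg
        simp only [Finset.mem_filter, Finset.mem_univ, true_and] at hg ⊢
        exact hg.2) (fun x => 1 / (cp Q x : ℚ))
    rw [← this]
    apply Finset.sum_congr rfl
    intro c hc
    apply Finset.sum_congr _ fun _ _ => rfl
    ext g
    simp only [Finset.mem_filter, Finset.mem_univ, true_and] at hc ⊢
    constructor
    · exact fun h => ⟨h.1.1, h.2⟩
    · rintro ⟨h1, h2⟩
      exact ⟨⟨h1, by rw [hmem, h2]; exact hc⟩, h2⟩
  have h3 : (univ.filter fun x : G => x ∈ Subgroup.normalizer (Q : Set G) ∧ x ∈ H).card =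
      Nat.card Z * ww N Q 1 := by
    have := Finset.card_eq_sum_card_fiberwise
      (s := univ.filter fun x : G => x ∈ Subgroup.normalizer (Q : Set G) ∧ x ∈ H)
      (t := univ.filter (fun c : G ⧸ N => c ∈ Z)) (f := fun g : G => (g : G ⧸ N)) (by
        intro g hg
        simp only [Finset.coe_filter, Finset.mem_univ, true_and] at hg ⊢
        exact hg.2)
    rw [this]
    have h4 : ∀ c ∈ univ.filter (fun c : G ⧸ N => c ∈ Z),
        ((univ.filter fun x : G => x ∈ Subgroup.normalizer (Q : Set G) ∧ x ∈ H).filter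
          fun g : G => (g : G ⧸ N) = c).card = ww N Q 1 := by
      intro c hc
      rw [← ww_eq N Q hF c]
      unfold ww
      congr 1
      ext g
      simp only [Finset.mem_filter, Finset.mem_univ, true_and] at hc ⊢
      constructor
      · exact fun h => ⟨h.1.1, h.2⟩
      · rintro ⟨h1, h2⟩
        exact ⟨⟨h1, by rw [hmem, h2]; exact hc⟩, h2⟩
    rw [Finset.sum_congr rfl h4, Finset.sum_const, smul_eq_mul]
    congr 1
    rw [← AINT.nc_eq]
  rw [h1, h2, h3, hHc] at hform
  unfold DD
  rw [Finset.sum_sub_distrib, ← Finset.sum_mul, ← Finset.mul_sum]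
  have hZ0 : (Nat.card Z : ℚ) ≠ 0 := by exact_mod_cast Nat.card_pos.ne'
  apply mul_left_cancel₀ hZ0
  rw [mul_zero, mul_sub, sub_eq_zero]
  push_cast at hform
  linear_combination hform

/-- sums over the fibers of a map -/
theorem sum_zero {α κ : Type} [DecidableEq κ] (s : Finset α) (g : α → κ) (h : α → ℚ)
    (H : ∀ i ∈ s, ∑ j ∈ s.filter (fun j => g j = g i), h j = 0) : ∑ i ∈ s, h i = 0 := by
  rw [← Finset.sum_fiberwise_of_maps_to (t := s.image g) (g := g)
    (fun i hi => Finset.mem_image_of_mem g hi) h]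
  apply Finset.sum_eq_zero
  intro k hk
  obtain ⟨i, hi, rfl⟩ := Finset.mem_image.1 hk
  exact H i hi

/-- functions on a group whose sums over the cyclic subgroups vanish -/
theorem cyc_zero {R : Type} [Group R] [Fintype R] (p : ℕ) (D : R → ℚ)
    (hD : ∀ Z : Subgroup R, ¬ p ∣ Nat.card Z →
      (open Classical in ∑ c ∈ univ.filter (fun c => c ∈ Z), D c) = 0) :
    (open Classical in ∑ c ∈ univ.filter (fun c : R => ¬ p ∣ orderOf c), D c) = 0 := by
  classical
  have key : ∀ (n : ℕ) (c : R), orderOf c ≤ n → ¬ p ∣ orderOf c →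
      ∑ j ∈ univ.filter (fun j => Subgroup.zpowers j = Subgroup.zpowers c), D j = 0 := by
    intro n
    induction n with
    | zero =>
      intro c hc
      have := orderOf_pos c
      omega
    | succ n ih =>
      intro c hc hpc
      have h1 := hD (Subgroup.zpowers c) (by rwa [Nat.card_zpowers])
      rw [← Finset.sum_filter_add_sum_filter_not _
        (fun j => Subgroup.zpowers j = Subgroup.zpowers c)] at h1
      have h2 : ∑ j ∈ (univ.filter fun j => j ∈ Subgroup.zpowers c).filter
          (fun j => ¬ Subgroup.zpowers j = Subgroup.zpowers c), D j = 0 := by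
        apply sum_zero _ (fun j => Subgroup.zpowers j)
        intro i hi
        simp only [Finset.mem_filter, Finset.mem_univ, true_and] at hi
        have hle : Subgroup.zpowers i ≤ Subgroup.zpowers c := by
          rw [Subgroup.zpowers_le]; exact hi.1
        have hdvd : orderOf i ∣ orderOf c := by
          have := Subgroup.card_dvd_of_le hle
          rwa [Nat.card_zpowers, Nat.card_zpowers] at this
        have hlt : orderOf i < orderOf c := by
          refine lt_of_le_of_ne (Nat.le_of_dvd (orderOf_pos c) hdvd) fun h => hi.2 ?_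
          apply Subgroup.eq_of_le_of_card_ge hle
          rw [Nat.card_zpowers, Nat.card_zpowers, h]
        rw [← ih i (by omega) (fun h => hpc (h.trans hdvd))]
        apply Finset.sum_congr _ fun _ _ => rfl
        ext j
        simp only [Finset.mem_filter, Finset.mem_univ, true_and]
        constructor
        · exact fun h => h.2
        · intro h
          have hj : j ∈ Subgroup.zpowers i := by rw [← h]; exact Subgroup.mem_zpowers j
          exact ⟨⟨hle hj, by rw [h]; exact hi.2⟩, h⟩
      rw [h2, add_zero] at h1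
      rw [← h1]
      apply Finset.sum_congr _ fun _ _ => rfl
      ext j
      simp only [Finset.mem_filter, Finset.mem_univ, true_and]
      constructor
      · intro h
        exact ⟨by rw [← h]; exact Subgroup.mem_zpowers j, h⟩
      · exact fun h => h.2
  apply sum_zero _ (fun j => Subgroup.zpowers j)
  intro i hi
  simp only [Finset.mem_filter, Finset.mem_univ, true_and] at hi
  rw [← key _ i le_rfl hi]
  apply Finset.sum_congr _ fun _ _ => rfl
  ext j
  simp only [Finset.mem_filter, Finset.mem_univ, true_and]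
  constructor
  · exact fun h => h.2
  · intro h
    refine ⟨?_, h⟩
    have : orderOf j = orderOf i := by rw [← Nat.card_zpowers, ← Nat.card_zpowers, h]
    rwa [this]

/-- the sums over a coset -/
theorem ss_ge [Fact p.Prime] (hcard : Nat.card Q = p ^ (Nat.card N).factorization p)
    (hF : ∀ c : G ⧸ N, ∃ w ∈ Subgroup.normalizer (Q : Set G), (w : G ⧸ N) = c)
    (hnc : ¬ Subgroup.normalizer (Q : Set G) ⊓ N ≤ Subgroup.centralizer (Q : Set G))
    (c : G ⧸ N) : ((p : ℚ) + 1) * ww N Q 1 ≤ 2 * (Nat.card Q * ss N Q c) := by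
  classical
  have hp : p.Prime := Fact.out
  obtain ⟨w, hw, rfl⟩ := hF c
  set W := Subgroup.normalizer (Q : Set G) with hW
  set s := (univ.filter fun x : G => x ∈ W).filter (fun x : G => (x : G ⧸ N) = w) with hs
  set t := s.filter (fun x => x ∈ Subgroup.centralizer (Q : Set G)) with ht
  have hQ0 : (0 : ℚ) < Nat.card Q := by exact_mod_cast Nat.card_pos
  have hw1 : (ww N Q 1 : ℚ) = s.card := by
    rw [← ww_eq N Q hF (w : G ⧸ N)]
    rfl
  -- the elements which centralize `Q`
  have ht2 : 2 * t.card ≤ s.card := by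
    rcases t.eq_empty_or_nonempty with he | ⟨y, hy⟩
    · rw [he]; simp
    · have hy' : y ∈ W ∧ (y : G ⧸ N) = w ∧ y ∈ Subgroup.centralizer (Q : Set G) := by
        simp only [ht, hs, Finset.mem_filter, Finset.mem_univ, true_and] at hy
        exact ⟨hy.1.1, hy.1.2, hy.2⟩
      have hle : t.card ≤ Nat.card (W ⊓ N ⊓ Subgroup.centralizer (Q : Set G) : Subgroup G) := by
        have e : Nat.card (W ⊓ N ⊓ Subgroup.centralizer (Q : Set G) : Subgroup G) =
            (univ.filter fun x : G => x ∈ W ⊓ N ⊓ Subgroup.centralizer (Q : Set G)).card := by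
          rw [← AINT.nc_eq]
        rw [e]
        apply Finset.card_le_card_of_injOn (fun x => y⁻¹ * x)
        · intro x hx
          simp only [ht, hs, Finset.coe_filter, Finset.mem_filter, Finset.mem_univ, true_and] at hx
          simp only [Finset.coe_filter, Finset.mem_univ, true_and]
          obtain ⟨⟨hx1, hx2⟩, hx3⟩ := hx
          refine Subgroup.mem_inf.2 ⟨Subgroup.mem_inf.2 ⟨W.mul_mem (W.inv_mem hy'.1) hx1, ?_⟩,
            Subgroup.mul_mem _ (Subgroup.inv_mem _ hy'.2.2) hx3⟩
          rw [← QuotientGroup.eq, hy'.2.1, hx2]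
        · intro x _ z _ h
          exact mul_left_cancel h
      have hlt := ABL.two_mul_le (H := W ⊓ N ⊓ Subgroup.centralizer (Q : Set G)) (K := W ⊓ N)
        inf_le_left (fun h => hnc (inf_eq_left.1 h))
      have hWN : Nat.card (W ⊓ N : Subgroup G) = s.card := by
        have e : Nat.card (W ⊓ N : Subgroup G) = ww N Q 1 := by
          unfold ww
          rw [Finset.filter_filter, ← AINT.nc_eq]
          apply Nat.card_congr
          apply Equiv.subtypeEquivRight
          intro x
          rw [Subgroup.mem_inf, QuotientGroup.eq_one_iff]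
        rw [e]
        exact_mod_cast hw1
      omega
  -- the terms
  have hpt : ∀ x ∈ s, ((if x ∈ Subgroup.centralizer (Q : Set G) then 1 else p : ℕ) : ℚ) ≤
      Nat.card Q * (1 / (cp Q x : ℚ)) := by
    intro x hx
    have hcpx : cp Q x = Nat.card (Q ⊓ Subgroup.centralizer {x} : Subgroup G) := by
      apply Nat.card_congr
      apply Equiv.subtypeEquivRight
      intro u
      rw [Subgroup.mem_inf, Subgroup.mem_centralizer_singleton_iff]
      exact and_congr_right fun _ => eq_comm
    have hpos : 0 < cp Q x := by rw [hcpx]; exact Nat.card_pos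
    have hle : (if x ∈ Subgroup.centralizer (Q : Set G) then 1 else p) * cp Q x ≤ Nat.card Q := by
      by_cases hxD : x ∈ Subgroup.centralizer (Q : Set G)
      · rw [if_pos hxD, one_mul, hcpx]
        exact Subgroup.card_le_of_le inf_le_left
      · rw [if_neg hxD]
        have hne : Q ⊓ Subgroup.centralizer {x} ≠ Q := by
          intro h
          apply hxD
          refine Subgroup.mem_centralizer_iff.2 fun u hu => ?_
          have h1 := inf_eq_left.1 h hu
          exact Subgroup.mem_centralizer_singleton_iff.1 h1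
        obtain ⟨k, hk1, hk2⟩ := (Nat.dvd_prime_pow hp).1
          (hcard ▸ Subgroup.card_dvd_of_le (inf_le_left : Q ⊓ Subgroup.centralizer {x} ≤ Q))
        have hlt : k < (Nat.card N).factorization p := by
          rcases hk1.lt_or_eq with h | h
          · exact h
          · exfalso
            apply hne
            apply Subgroup.eq_of_le_of_card_ge inf_le_left
            rw [hk2, h]
            exact hcard.le
        rw [hcpx, hk2, hcard, ← pow_succ']
        exact Nat.pow_le_pow_right hp.pos hlt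
    have hpos' : (0 : ℚ) < cp Q x := by exact_mod_cast hpos
    rw [mul_one_div, le_div_iff₀ hpos']
    exact_mod_cast hle
  have h1 : ((∑ x ∈ s, (if x ∈ Subgroup.centralizer (Q : Set G) then 1 else p) : ℕ) : ℚ) ≤
      Nat.card Q * ss N Q w := by
    rw [Nat.cast_sum]
    have : (Nat.card Q : ℚ) * ss N Q w = ∑ x ∈ s, Nat.card Q * (1 / (cp Q x : ℚ)) := by
      rw [← Finset.mul_sum]
      rfl
    rw [this]
    exact Finset.sum_le_sum hpt
  have h3 : ∑ x ∈ s, (if x ∈ Subgroup.centralizer (Q : Set G) then 1 else p) + (p - 1) * t.card =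
      p * s.card := by
    have e1 : t.card = ∑ x ∈ s, (if x ∈ Subgroup.centralizer (Q : Set G) then 1 else 0) := by
      rw [← Finset.sum_filter, Finset.sum_const, smul_eq_mul, mul_one]
    have e2 : s.card = ∑ x ∈ s, 1 := by
      rw [Finset.sum_const, smul_eq_mul, mul_one]
    rw [e1, e2, Finset.mul_sum, Finset.mul_sum, ← Finset.sum_add_distrib]
    apply Finset.sum_congr rfl
    intro x _
    have := hp.one_lt
    split_ifs <;> omega
  have h4 : (p + 1) * s.card ≤
      2 * ∑ x ∈ s, (if x ∈ Subgroup.centralizer (Q : Set G) then 1 else p) := by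
    obtain ⟨r, hr⟩ : ∃ r, p = r + 1 := ⟨p - 1, by have := hp.one_lt; omega⟩
    have h5 : (p - 1) * (2 * t.card) ≤ (p - 1) * s.card := Nat.mul_le_mul_left _ ht2
    rw [hr] at h3 h5 ⊢
    rw [Nat.add_sub_cancel] at h3 h5
    nlinarith
  have h7 : ((p : ℚ) + 1) * s.card ≤
      2 * ((∑ x ∈ s, (if x ∈ Subgroup.centralizer (Q : Set G) then 1 else p) : ℕ) : ℚ) := by
    exact_mod_cast h4
  rw [hw1]
  linarith

end

/-- QUO3: normal subgroups with abelian Sylow `p`-subgroups. -/
def S_QUO3 : Prop := ∀ (G : Type) [Group G] [Finite G] (p : ℕ), p.Prime →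
  ∀ (N : Subgroup G) [N.Normal],
    (∀ P : Sylow p N, ∀ x ∈ P, ∀ y ∈ P, x * y = y * x) → Dich (G ⧸ N) p → Dich G p

theorem Dich_congr {G H : Type} [Group G] [Group H] (e : G ≃* H) {p : ℕ} (h : Dich G p) :
    Dich H p := by
  rcases h with ⟨K, hK⟩ | h
  · left
    refine ⟨K.comap e.symm.toMonoidHom, fun g => ?_⟩
    rw [Subgroup.mem_comap, hK]
    have : orderOf (e.symm g) = orderOf g := MulEquiv.orderOf_eq e.symm g
    change ¬ p ∣ orderOf (e.symm g) ↔ _
    rw [this]
  · right
    rw [← Nat.card_congr e.toEquiv, ← AEQ.regs_congr e p]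
    exact h

theorem regs_ge {G : Type} [Group G] [Finite G] {p : ℕ} (hp : p.Prime) (h : Dich G p) :
    Nat.card G / p ^ (Nat.card G).factorization p ≤ regs G p := by
  rcases h with ⟨K, hK⟩ | h
  · rw [← card_K hp K hK]
    apply le_of_eq
    apply Nat.card_congr
    exact Equiv.subtypeEquivRight hK
  · have h2 := hp.two_le
    have h3 : 2 * (Nat.card G / p ^ (Nat.card G).factorization p) ≤
        (p + 1) * (Nat.card G / p ^ (Nat.card G).factorization p) :=
      Nat.mul_le_mul_right _ (by omega)
    omega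

theorem done : S_QUO3 := by
  classical
  intro G _ _ p hp N _ hab hD
  haveI : Fact p.Prime := ⟨hp⟩
  haveI := Fintype.ofFinite G
  haveI := Fintype.ofFinite (G ⧸ N)
  obtain ⟨P⟩ : Nonempty (Sylow p N) := inferInstance
  have hPab := hab P
  set Q : Subgroup G := (P : Subgroup N).map N.subtype with hQ
  have hQN : Q ≤ N := Subgroup.map_subtype_le _
  have hmemQ : ∀ x : N, (x : G) ∈ Q ↔ x ∈ P := by
    intro x
    constructor
    · rintro ⟨y, hy, hyx⟩
      rw [← Subtype.ext hyx]
      exact hy
    · exact fun h => ⟨x, h, rfl⟩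
  have hcard : Nat.card Q = p ^ (Nat.card N).factorization p := by
    rw [← P.card_eq_multiplicity]
    exact (Nat.card_congr ((P : Subgroup N).equivMapOfInjective N.subtype
      N.subtype_injective).toEquiv).symm
  have hQab : ∀ x ∈ Q, ∀ y ∈ Q, x * y = y * x := by
    rintro _ ⟨x, hx, rfl⟩ _ ⟨y, hy, rfl⟩
    exact congrArg Subtype.val (hPab x hx y hy)
  have hF : ∀ c : G ⧸ N, ∃ w ∈ Subgroup.normalizer (Q : Set G), (w : G ⧸ N) = c := by
    intro c
    obtain ⟨g, rfl⟩ := QuotientGroup.mk_surjective c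
    have h1 : g ∈ Subgroup.normalizer (Q : Set G) ⊔ N := by
      have := Sylow.normalizer_sup_eq_top P
      rw [this]
      exact Subgroup.mem_top g
    have h2 : g ∈ ((Subgroup.normalizer (Q : Set G) ⊔ N : Subgroup G) : Set G) := h1
    rw [Subgroup.mul_normal] at h2
    obtain ⟨w, hw, n, hn, rfl⟩ := h2
    refine ⟨w, hw, ?_⟩
    change (w : G ⧸ N) = ((w * n : G) : G ⧸ N)
    rw [QuotientGroup.mk_mul, (QuotientGroup.eq_one_iff n).2 hn, mul_one]
  by_cases hnc : Subgroup.normalizer (Q : Set G) ⊓ N ≤ Subgroup.centralizer (Q : Set G)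
  · -- `N` has a normal complement
    have hcen : Subgroup.normalizer (P : Set N) ≤ Subgroup.centralizer (P : Set N) := by
      intro x hx
      have e1 : ∀ u : N, u ∈ P ↔ x * u * x⁻¹ ∈ P := hx
      have hx' : (x : G) ∈ Subgroup.normalizer (Q : Set G) := by
        change ∀ u : G, u ∈ Q ↔ (x : G) * u * (x : G)⁻¹ ∈ Q
        intro u
        by_cases hu : u ∈ N
        · have h1 := e1 ⟨u, hu⟩
          rw [← hmemQ, ← hmemQ] at h1
          exact h1
        · constructor
          · exact fun h1 => absurd (hQN h1) hu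
          · intro h1
            exfalso
            apply hu
            have h2 := N.mul_mem (N.mul_mem (N.inv_mem x.2) (hQN h1)) x.2
            have h3 : (x : G)⁻¹ * ((x : G) * u * (x : G)⁻¹) * x = u := by group
            rwa [h3] at h2
      have h2 := hnc (Subgroup.mem_inf.2 ⟨hx', x.2⟩)
      rw [Subgroup.mem_centralizer_iff] at h2 ⊢
      intro y hy
      exact Subtype.ext (h2 y ((hmemQ y).2 hy))
    have hcompl := MonoidHom.ker_transferSylow_isComplement' P hcen
    set K := (MonoidHom.transferSylow P hcen).ker with hK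
    have hKp : ¬ p ∣ Nat.card K := MonoidHom.not_dvd_card_ker_transferSylow P hcen
    have hKmem : ∀ g : N, g ∈ K ↔ ¬ p ∣ orderOf g := by
      refine fun g => ⟨fun hg h => hKp ?_, fun hg => ?_⟩
      · have h1 := orderOf_dvd_natCard (⟨g, hg⟩ : K)
        rw [← Subgroup.orderOf_coe] at h1
        exact h.trans h1
      · rw [hK, MonoidHom.mem_ker]
        have h1 : orderOf (MonoidHom.transferSylow P hcen g) ∣ orderOf g := orderOf_map_dvd _ g
        have h2 : orderOf (MonoidHom.transferSylow P hcen g) ∣ p ^ (Nat.card N).factorization p := by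
          rw [← P.card_eq_multiplicity]; exact orderOf_dvd_natCard _
        obtain ⟨k, -, hk⟩ := (Nat.dvd_prime_pow hp).1 h2
        rcases Nat.eq_zero_or_pos k with rfl | hk0
        · rw [pow_zero] at hk
          exact orderOf_eq_one_iff.1 hk
        · exfalso
          apply hg
          refine (dvd_pow_self p hk0.ne').trans ?_
          rw [← hk]
          exact h1
    set K' : Subgroup G := K.map N.subtype with hK'
    have hK'mem : ∀ g : G, g ∈ K' ↔ g ∈ N ∧ ¬ p ∣ orderOf g := by
      intro g
      constructor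
      · rintro ⟨x, hx, rfl⟩
        refine ⟨x.2, ?_⟩
        have := (hKmem x).1 hx
        rwa [← Subgroup.orderOf_coe] at this
      · rintro ⟨h1, h2⟩
        refine ⟨⟨g, h1⟩, (hKmem _).2 ?_, rfl⟩
        rwa [← Subgroup.orderOf_coe]
    have hNn : N.Normal := inferInstance
    haveI : K'.Normal := by
      constructor
      intro n hn g
      rw [hK'mem] at hn ⊢
      refine ⟨hNn.conj_mem n hn.1 g, ?_⟩
      have : orderOf (g * n * g⁻¹) = orderOf n := by
        have := orderOf_injective (MulAut.conj g).toMonoidHom (MulAut.conj g).injective n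
        simpa using this
      rw [this]
      exact hn.2
    have hK'N : K' ≤ N := Subgroup.map_subtype_le _
    have hK'p : ¬ p ∣ Nat.card K' := by
      rw [← Nat.card_congr (K.equivMapOfInjective N.subtype N.subtype_injective).toEquiv]
      exact hKp
    set N' : Subgroup (G ⧸ K') := N.map (QuotientGroup.mk' K') with hN'
    have hN'Q : N' = Q.map (QuotientGroup.mk' K') := by
      apply le_antisymm
      · rintro _ ⟨n, hn, rfl⟩
        obtain ⟨⟨k, q⟩, hkq⟩ := hcompl.2 ⟨n, hn⟩
        have h1 : ((k : N) : G) * ((q : N) : G) = n := congrArg Subtype.val hkq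
        refine ⟨((q : N) : G), (hmemQ _).2 q.2, ?_⟩
        rw [← h1, map_mul]
        have h2 : QuotientGroup.mk' K' ((k : N) : G) = 1 := by
          rw [QuotientGroup.mk'_apply, QuotientGroup.eq_one_iff]
          exact ⟨(k : N), k.2, rfl⟩
        rw [h2, one_mul]
      · exact Subgroup.map_mono hQN
    have hN'c : ∃ a, Nat.card N' = p ^ a := by
      apply IsPGroup.iff_card.1
      rw [hN'Q]
      apply IsPGroup.map
      exact IsPGroup.of_card hcard
    have hN'ab : ∀ x ∈ N', ∀ y ∈ N', x * y = y * x := by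
      rw [hN'Q]
      rintro _ ⟨x, hx, rfl⟩ _ ⟨y, hy, rfl⟩
      rw [← map_mul, ← map_mul, hQab x hx y hy]
    apply QUO1.done G p hp K' hK'p
    apply QUO2.done (G ⧸ K') p hp N' hN'c hN'ab
    exact Dich_congr (QuotientGroup.quotientQuotientEquivQuotient K' N hK'N).symm hD
  · right
    have htot := cyc_zero p (DD N Q p) (fun Z hZ => sumD N Q hQN hcard hQab hF Z hZ)
    have hge := ss_ge (p := p) N Q hcard hF hnc
    have hw0 : 0 < ww N Q 1 := by
      unfold ww
      apply Finset.card_pos.2
      refine ⟨1, ?_⟩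
      simp only [Finset.mem_filter, Finset.mem_univ, true_and, QuotientGroup.mk_one, and_true]
      exact Subgroup.one_mem _
    set R := univ.filter (fun c : G ⧸ N => ¬ p ∣ orderOf c) with hR
    have hRc : R.card = regs (G ⧸ N) p := by
      rw [QUO2.regs_eq]
    have hrr : ∑ c ∈ R, rr N p c ≤ regs G p := by
      have e1 : (regs G p : ℚ) = ∑ c : G ⧸ N, rr N p c := by
        unfold rr
        rw [← Nat.cast_sum, QUO2.regs_eq]
        congr 1
        exact Finset.card_eq_sum_card_fiberwise (fun g _ => Finset.mem_coe.2 (Finset.mem_univ _))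
      rw [e1]
      apply Finset.sum_le_sum_of_subset_of_nonneg (Finset.subset_univ R)
      intro c _ _
      unfold rr
      exact Nat.cast_nonneg _
    have hQ0 : (0 : ℚ) < Nat.card Q := by exact_mod_cast Nat.card_pos
    have hw0' : (0 : ℚ) < ww N Q 1 := by exact_mod_cast hw0
    set m := Nat.card N / p ^ (Nat.card N).factorization p with hm
    have hNQ : (Nat.card N : ℚ) = Nat.card Q * m := by
      rw [hcard, ← Nat.cast_mul, hm, Nat.ordProj_mul_ordCompl_eq_self]
    have h1 : (∑ c ∈ R, rr N p c) * ww N Q 1 = Nat.card N * ∑ c ∈ R, ss N Q c := by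
      unfold DD at htot
      rw [Finset.sum_sub_distrib, ← Finset.sum_mul, ← Finset.mul_sum, sub_eq_zero] at htot
      exact htot
    have h2 : (regs (G ⧸ N) p : ℚ) * (((p : ℚ) + 1) * ww N Q 1) ≤
        2 * (Nat.card Q * ∑ c ∈ R, ss N Q c) := by
      have h3 := Finset.sum_le_sum (s := R) fun c _ => hge c
      rw [Finset.sum_const, nsmul_eq_mul, hRc, ← Finset.mul_sum, ← Finset.mul_sum] at h3
      exact h3
    have h4 : ((p : ℚ) + 1) * (m * regs (G ⧸ N) p) ≤ 2 * regs G p := by
      have h5 : (m : ℚ) * ((regs (G ⧸ N) p : ℚ) * (((p : ℚ) + 1) * ww N Q 1)) ≤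
          m * (2 * (Nat.card Q * ∑ c ∈ R, ss N Q c)) :=
        mul_le_mul_of_nonneg_left h2 (Nat.cast_nonneg _)
      have h6 : (m : ℚ) * (2 * (Nat.card Q * ∑ c ∈ R, ss N Q c)) =
          2 * ((∑ c ∈ R, rr N p c) * ww N Q 1) := by
        rw [h1, hNQ]; ring
      rw [h6] at h5
      have h7 : (((p : ℚ) + 1) * (m * regs (G ⧸ N) p)) * ww N Q 1 ≤ (2 * regs G p) * ww N Q 1 := by
        have h8 := mul_le_mul_of_nonneg_right hrr hw0'.le
        linarith
      exact le_of_mul_le_mul_right h7 hw0'
    have h9 : Nat.card G / p ^ (Nat.card G).factorization p =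
        m * (Nat.card (G ⧸ N) / p ^ (Nat.card (G ⧸ N)).factorization p) := by
      rw [QUO1.card_mul N, Nat.ordCompl_mul, mul_comm]
    have h10 := regs_ge hp hD
    rw [h9]
    calc (p + 1) * (m * (Nat.card (G ⧸ N) / p ^ (Nat.card (G ⧸ N)).factorization p))
        ≤ (p + 1) * (m * regs (G ⧸ N) p) :=
          Nat.mul_le_mul_left _ (Nat.mul_le_mul_left _ h10)
      _ ≤ 2 * regs G p := by exact_mod_cast h4

end Pool.Agent.Y536.OP.QUO3
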