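import Pool.Agent.Y536.OP.Main2
import Pool.Agent.Y536.OP.ABL
import Pool.Agent.Y536.OP.Cls4

/-! Project OP: symmetric and alternating groups. -/

set_option autoImplicit false
set_option linter.unusedSectionVars false
set_option linter.style.haveILetI false

namespace Pool.Agent.Y536.OP.SA

open Finset Equiv.Perm

open scoped Nat

/-- a numerical inequality, `p ≥ 5` -/
theorem num5 {p : ℕ} (hp : 5 ≤ p) : ∀ k, 3 ≤ k → (p * k + p) * (p + 1) ≤ p ^ k + (p + 1) := by
  intro k hk
  induction k, hk using Nat.le_induction with
  | base =>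
    obtain ⟨q, rfl⟩ : ∃ q, p = q + 5 := ⟨p - 5, by omega⟩
    ring_nf
    nlinarith [Nat.zero_le q, sq_nonneg q]
  | succ k hk ih =>
    have h1 : p ^ (k + 1) = p ^ k * p := pow_succ p k
    have h2 : p * p ≤ p ^ k := by
      calc p * p = p ^ 2 := by ring
        _ ≤ p ^ k := Nat.pow_le_pow_right (by omega) (by omega)
    nlinarith

theorem num3 : ∀ k, 3 ≤ k → (3 * k + 2) * 4 ≤ 3 ^ (k + 1) := by
  intro k hk
  induction k, hk using Nat.le_induction with
  | base => norm_num
  | succ k hk ih =>
    have h1 : 3 ^ (k + 1 + 1) = 3 ^ (k + 1) * 3 := pow_succ 3 (k + 1)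
    omega

/-- the power of `p` in the factorial -/
theorem num {p n : ℕ} (hp : p.Prime) (h2 : p ≠ 2) (hn : 3 * p ≤ n) :
    n * (p + 1) ≤ p ^ (n !).factorization p := by
  set k := n / p with hk
  have hp0 : 0 < p := hp.pos
  have hk3 : 3 ≤ k := by
    rw [hk, Nat.le_div_iff_mul_le hp0]; exact hn
  have hkn : p * k ≤ n := Nat.mul_div_le n p
  have hnk : n < p * k + p := by
    have := Nat.lt_mul_div_succ n hp0
    rw [Nat.mul_succ] at this
    exact this
  have hdvd : (p * k)! ∣ n ! := Nat.factorial_dvd_factorial hkn
  have h1 : (p * k)!.factorization p ≤ (n !).factorization p :=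
    (Nat.factorization_le_iff_dvd (Nat.factorial_ne_zero _) (Nat.factorial_ne_zero _)).2 hdvd p
  rw [Nat.factorization_factorial_mul hp] at h1
  have hp3 : 3 ≤ p := by
    have := hp.two_le
    omega
  rcases hp3.eq_or_lt with h3 | h3
  · subst h3
    have h4 : 1 ≤ (k !).factorization 3 := by
      have h5 : 3 ∣ k ! := (Nat.Prime.dvd_factorial Nat.prime_three).2 hk3
      exact (Nat.Prime.factorization_pos_of_dvd Nat.prime_three (Nat.factorial_ne_zero _) h5)
    have h5 := num3 k hk3
    calc n * (3 + 1) ≤ (3 * k + 2) * 4 := Nat.mul_le_mul (by omega) (by omega)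
      _ ≤ 3 ^ (k + 1) := h5
      _ ≤ 3 ^ (n !).factorization 3 := Nat.pow_le_pow_right (by norm_num) (by omega)
  · have hp5 : 5 ≤ p := by
      by_contra h
      have : p = 4 := by omega
      subst this
      exact absurd hp (by norm_num)
    have h5 := num5 hp5 k hk3
    have h6 : n * (p + 1) + (p + 1) ≤ (p * k + p) * (p + 1) := by
      have : (n + 1) * (p + 1) ≤ (p * k + p) * (p + 1) := Nat.mul_le_mul_right _ (by omega)
      linarith
    calc n * (p + 1) ≤ p ^ k := by omega
      _ ≤ p ^ (n !).factorization p := Nat.pow_le_pow_right hp0 (by omega)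

section
variable {n : ℕ} (H : Subgroup (Equiv.Perm (Fin n))) (hH : alternatingGroup (Fin n) ≤ H)
include hH

/-- the elements with a given cycle type -/
theorem regs_ge_type {p : ℕ} (m : Multiset ℕ) (heven : Even (m.sum + Multiset.card m))
    (hm : ¬ p ∣ m.lcm) :
    (univ.filter fun g : Equiv.Perm (Fin n) => g.cycleType = m).card ≤ regs H p := by
  classical
  have hmem : ∀ g : Equiv.Perm (Fin n), g.cycleType = m → g ∈ H := by
    intro g hg
    apply hH
    rw [Equiv.Perm.mem_alternatingGroup, sign_of_cycleType, hg]
    exact heven.neg_one_pow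
  rw [← Fintype.card_subtype, ← Nat.card_eq_fintype_card]
  unfold regs
  apply Nat.card_le_card_of_injective (fun g : {g : Equiv.Perm (Fin n) // g.cycleType = m} =>
    (⟨⟨g, hmem g g.2⟩, ?_⟩ : {h : H // ¬ p ∣ orderOf h}))
  · intro g h hgh
    exact Subtype.ext (congrArg (fun z : {h : H // ¬ p ∣ orderOf h} => ((z : H) : Equiv.Perm (Fin n))) hgh)
  · rw [← Subgroup.orderOf_coe]
    change ¬ p ∣ orderOf (g : Equiv.Perm (Fin n))
    rw [← lcm_cycleType, g.2]
    exact hm

/-- many elements of order prime to `p` -/
theorem many {p : ℕ} (hp : p.Prime) (h2 : p ≠ 2) (hn : 9 ≤ n) : n ! ≤ 2 * n * regs H p := by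
  classical
  have hp3 : 3 ≤ p := by
    have := hp.two_le
    omega
  have key : ∀ (m : Multiset ℕ) (X : ℕ), Even (m.sum + Multiset.card m) → ¬ p ∣ m.lcm →
      (univ.filter fun g : Equiv.Perm (Fin n) => g.cycleType = m).card * X = n ! → X ≤ 2 * n →
      n ! ≤ 2 * n * regs H p := by
    intro m X h1 h2 h3 h4
    have h5 := regs_ge_type H hH m h1 h2
    rw [← h3, mul_comm]
    exact Nat.mul_le_mul h4 h5
  have hsing : ∀ a : ℕ, 2 ≤ a → a ≤ n →
      (univ.filter fun g : Equiv.Perm (Fin n) => g.cycleType = {a}).card * ((n - a)! * a) = n ! := by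
    intro a ha han
    have h := card_of_cycleType_mul_eq (Fin n) {a}
    rw [if_pos (by simpa using ⟨han, ha⟩)] at h
    simpa [mul_assoc] using h
  rcases Nat.even_or_odd n with he | ho
  · by_cases hpn : p ∣ n - 1
    · -- type `(n - 2, 2)`
      have hm2 : (n - 2) ≠ 2 := by omega
      apply key {n - 2, 2} (2 * (n - 2))
      · obtain ⟨k, hk⟩ := he
        refine ⟨k + 1, ?_⟩
        simp only [Multiset.insert_eq_cons, Multiset.sum_cons, Multiset.sum_singleton,
          Multiset.card_cons, Multiset.card_singleton]
        omega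
      · intro h
        have h3 : (({n - 2, 2} : Multiset ℕ)).lcm ∣ (n - 2) * 2 := by
          rw [Multiset.lcm_dvd]
          intro b hb
          simp only [Multiset.insert_eq_cons, Multiset.mem_cons, Multiset.mem_singleton] at hb
          rcases hb with rfl | rfl
          · exact Dvd.intro _ rfl
          · exact Dvd.intro_left _ rfl
        rcases (Nat.Prime.dvd_mul hp).1 (h.trans h3) with h4 | h4
        · have h5 : p ∣ (n - 1) - (n - 2) := Nat.dvd_sub hpn h4
          have h6 : (n - 1) - (n - 2) = 1 := by omega
          rw [h6] at h5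
          exact hp.one_lt.ne' (Nat.dvd_one.1 h5)
        · exact h2 ((Nat.prime_dvd_prime_iff_eq hp Nat.prime_two).1 h4)
      · have h := card_of_cycleType_mul_eq (Fin n) {n - 2, 2}
        have hcond : (({n - 2, 2} : Multiset ℕ)).sum ≤ Fintype.card (Fin n) ∧
            ∀ a ∈ ({n - 2, 2} : Multiset ℕ), 2 ≤ a := by
          constructor
          · simp only [Multiset.insert_eq_cons, Multiset.sum_cons, Multiset.sum_singleton,
              Fintype.card_fin]
            omega
          · intro a ha
            simp only [Multiset.insert_eq_cons, Multiset.mem_cons, Multiset.mem_singleton] at ha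
            omega
        rw [if_pos hcond] at h
        have hprod : ∏ a ∈ (({n - 2, 2} : Multiset ℕ)).toFinset,
            (({n - 2, 2} : Multiset ℕ).count a)! = 1 := by
          apply Finset.prod_eq_one
          intro a ha
          have hnd : (({n - 2, 2} : Multiset ℕ)).Nodup := by
            simp [hm2]
          have := Multiset.nodup_iff_count_le_one.1 hnd a
          interval_cases h7 : ({n - 2, 2} : Multiset ℕ).count a <;> rfl
        rw [hprod, mul_one] at h
        have hs : (Fintype.card (Fin n) - (({n - 2, 2} : Multiset ℕ)).sum)! = 1 := by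
          have : Fintype.card (Fin n) - (({n - 2, 2} : Multiset ℕ)).sum = 0 := by
            simp only [Multiset.insert_eq_cons, Multiset.sum_cons, Multiset.sum_singleton,
              Fintype.card_fin]
            omega
          rw [this]; rfl
        rw [hs, one_mul] at h
        have hpr : (({n - 2, 2} : Multiset ℕ)).prod = 2 * (n - 2) := by
          simp only [Multiset.insert_eq_cons, Multiset.prod_cons, Multiset.prod_singleton]
          ring
        rw [hpr, Fintype.card_fin] at h
        exact h
      · omega
    · apply key {n - 1} ((n - (n - 1))! * (n - 1))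
      · obtain ⟨k, hk⟩ := he
        refine ⟨k, ?_⟩
        simp only [Multiset.sum_singleton, Multiset.card_singleton]
        omega
      · rw [Multiset.lcm_singleton, normalize_eq]
        exact hpn
      · exact hsing (n - 1) (by omega) (by omega)
      · have : n - (n - 1) = 1 := by omega
        rw [this, Nat.factorial_one]
        omega
  · by_cases hpn : p ∣ n
    · apply key {n - 2} ((n - (n - 2))! * (n - 2))
      · obtain ⟨k, hk⟩ := ho
        refine ⟨k, ?_⟩
        simp only [Multiset.sum_singleton, Multiset.card_singleton]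
        omega
      · rw [Multiset.lcm_singleton, normalize_eq]
        intro h
        have h5 : p ∣ n - (n - 2) := Nat.dvd_sub hpn h
        have h6 : n - (n - 2) = 2 := by omega
        rw [h6] at h5
        exact h2 ((Nat.prime_dvd_prime_iff_eq hp Nat.prime_two).1 h5)
      · exact hsing (n - 2) (by omega) (by omega)
      · have : n - (n - 2) = 2 := by omega
        rw [this, Nat.factorial_two]
        omega
    · apply key {n} ((n - n)! * n)
      · obtain ⟨k, hk⟩ := ho
        refine ⟨k + 1, ?_⟩
        simp only [Multiset.sum_singleton, Multiset.card_singleton]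
        omega
      · rw [Multiset.lcm_singleton, normalize_eq]
        exact hpn
      · exact hsing n (by omega) le_rfl
      · rw [Nat.sub_self, Nat.factorial_zero]
        omega

/-- the order of `H` -/
theorem card_H (hn : 2 ≤ n) : Nat.card H ∣ n ! ∧ n ! ∣ 2 * Nat.card H := by
  haveI : Nontrivial (Fin n) := Fin.nontrivial_iff_two_le.2 hn
  constructor
  · have := Subgroup.card_subgroup_dvd_card H
    rwa [Nat.card_perm, Nat.card_fin] at this
  · have h1 := two_mul_nat_card_alternatingGroup (α := Fin n)
    rw [Nat.card_perm, Nat.card_fin] at h1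
    rw [← h1]
    exact Nat.mul_dvd_mul_left 2 (Subgroup.card_dvd_of_le hH)

/-- the odd part of the order of `H` -/
theorem fac_H (hn : 2 ≤ n) {p : ℕ} (hp : p.Prime) (h2 : p ≠ 2) :
    (Nat.card H).factorization p = (n !).factorization p := by
  obtain ⟨h3, h4⟩ := card_H H hH hn
  apply le_antisymm
  · exact (Nat.factorization_le_iff_dvd Nat.card_pos.ne' (Nat.factorial_ne_zero _)).2 h3 p
  · have h5 := (Nat.factorization_le_iff_dvd (Nat.factorial_ne_zero _)
      (mul_ne_zero two_ne_zero Nat.card_pos.ne')).2 h4 p
    rw [Nat.factorization_mul two_ne_zero Nat.card_pos.ne', Finsupp.add_apply,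
      Nat.factorization_eq_zero_of_not_dvd (fun h => h2 ((Nat.prime_dvd_prime_iff_eq hp
        Nat.prime_two).1 h)), zero_add] at h5
    exact h5

/-- the elements of order prime to `p` do not form a subgroup -/
theorem not_nc (hn : 5 ≤ n) {p : ℕ} (hp : p.Prime) (h2 : p ≠ 2) (hpn : p ≤ n) : ¬ NC H p := by
  rintro ⟨K, hK⟩
  have h5 : 5 ≤ Nat.card (Fin n) := by rwa [Nat.card_fin]
  have hle : alternatingGroup (Fin n) ≤ K.map H.subtype := by
    rw [← closure_cycleType_eq_two_two_eq_alternatingGroup h5, Subgroup.closure_le]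
    intro g hg
    have hgt : g.cycleType = {2, 2} := hg
    have hgH : g ∈ H := by
      apply hH
      rw [← closure_cycleType_eq_two_two_eq_alternatingGroup h5]
      exact Subgroup.subset_closure hg
    refine ⟨⟨g, hgH⟩, ?_, rfl⟩
    have hord : orderOf g = 2 := by
      rw [← lcm_cycleType, hgt]
      rfl
    refine (hK ⟨g, hgH⟩).2 ?_
    rw [← Subgroup.orderOf_coe]
    change ¬ p ∣ orderOf g
    rw [hord]
    exact fun h => h2 ((Nat.prime_dvd_prime_iff_eq hp Nat.prime_two).1 h)
  -- a `p`-cycle
  obtain ⟨g, hg⟩ := (Equiv.Perm.exists_with_cycleType_iff (Fin n) (m := {p})).2 (by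
    simp only [Multiset.sum_singleton, Fintype.card_fin, Multiset.mem_singleton, forall_eq]
    exact ⟨hpn, hp.two_le⟩)
  have hgA : g ∈ alternatingGroup (Fin n) := by
    rw [Equiv.Perm.mem_alternatingGroup, sign_of_cycleType, hg]
    obtain ⟨k, hk⟩ := hp.odd_of_ne_two h2
    apply Even.neg_one_pow
    refine ⟨k + 1, ?_⟩
    simp only [Multiset.sum_singleton, Multiset.card_singleton]
    omega
  obtain ⟨x, hx, hxg⟩ := hle hgA
  have h3 := (hK x).1 hx
  rw [← Subgroup.orderOf_coe] at h3
  apply h3
  have h4 : ((x : H) : Equiv.Perm (Fin n)) = g := hxg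
  rw [h4, ← lcm_cycleType, hg, Multiset.lcm_singleton, normalize_eq]

/-- the bound for the number of elements of order prime to `p` -/
theorem bound (hn : 5 ≤ n) {p : ℕ} (hp : p.Prime) (h2 : p ≠ 2) (hpn : p ≤ n) :
    (p + 1) * (Nat.card H / p ^ (Nat.card H).factorization p) ≤ 2 * regs H p := by
  classical
  have hp3 : 3 ≤ p := by
    have := hp.two_le
    omega
  have hfac := fac_H H hH (by omega) hp h2
  rcases lt_or_ge n (3 * p) with h | h
  · -- the Sylow subgroups have order at most `p ^ 2`
    haveI : Fact p.Prime := ⟨hp⟩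
    have hν : (n !).factorization p ≤ 2 := by
      have hlog : Nat.log p n < 2 := by
        apply Nat.log_lt_of_lt_pow (by omega)
        nlinarith
      rw [Nat.factorization_factorial hp hlog]
      have : Finset.Ico 1 2 = {1} := rfl
      rw [this, Finset.sum_singleton, pow_one]
      have : n / p < 3 := Nat.div_lt_of_lt_mul (by rwa [mul_comm] at h)
      omega
    refine (ABL.done (AINT.done AEQ.done) H p hp ?_).resolve_left (not_nc H hH hn hp h2 hpn)
    intro P x hx y hy
    have hc : Nat.card P = p ^ (Nat.card H).factorization p := P.card_eq_multiplicity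
    have hcomm : ∀ a b : P, a * b = b * a := by
      rw [hfac] at hc
      interval_cases hv : (n !).factorization p
      · rw [pow_zero] at hc
        haveI : Subsingleton P := (Nat.card_eq_one_iff_unique.1 hc).1
        intro a b
        exact Subsingleton.elim _ _
      · rw [pow_one] at hc
        haveI : IsCyclic P := isCyclic_of_prime_card hc
        intro a b
        exact (IsCyclic.commGroup (α := P)).mul_comm a b
      · exact IsPGroup.commutative_of_card_eq_prime_sq hc
    exact congrArg Subtype.val (hcomm ⟨x, hx⟩ ⟨y, hy⟩)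
  · have h9 : 9 ≤ n := by omega
    have h3 := many H hH hp h2 h9
    have h4 := num hp h2 h
    rw [hfac]
    set q := p ^ (n !).factorization p with hq
    have hq0 : 0 < q := pow_pos hp.pos _
    have h5 : Nat.card H / q * q ≤ n ! := by
      refine (Nat.div_mul_le_self _ _).trans ?_
      exact Nat.le_of_dvd (Nat.factorial_pos _) (card_H H hH (by omega)).1
    set R := regs H p with hR
    set m := Nat.card H / q with hm
    -- `(p + 1) m q ≤ (p + 1) n! ≤ (p + 1) 2 n R ≤ 2 q R`
    have h6 : ((p + 1) * m) * q ≤ (2 * R) * q := by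
      calc ((p + 1) * m) * q = (p + 1) * (m * q) := by ring
        _ ≤ (p + 1) * n ! := Nat.mul_le_mul_left _ h5
        _ ≤ (p + 1) * (2 * n * R) := Nat.mul_le_mul_left _ h3
        _ = (2 * R) * (n * (p + 1)) := by ring
        _ ≤ (2 * R) * q := Nat.mul_le_mul_left _ h4
    exact Nat.le_of_mul_le_mul_right h6 hq0

end

end Pool.Agent.Y536.OP.SA
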