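import Pool.Agent.Y536.OP.SA1
import Pool.Agent.Y536.OP.Cls

/-! Project OP: extensions by solvable normal subgroups. -/

set_option autoImplicit false
set_option linter.unusedSectionVars false
set_option linter.style.haveILetI false

namespace Pool.Agent.Y536.OP.SA

open Finset

/-- The inequality for all weights. -/
def Good (G : Type) [Group G] : Prop := ∀ (σ : Finset ℕ) (δ : ℕ → ℝ),
  (∀ p ∈ σ, p.Prime) → (∀ p ∈ σ, 0 ≤ δ p ∧ δ p ≤ 1 / p) →
    Sm σ δ G ≤ Nat.card G * Bd σ δ (Nat.card G)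

/-- The strict inequality. -/
def SGood (G : Type) [Group G] : Prop := ∀ (σ : Finset ℕ) (δ : ℕ → ℝ),
  (∀ p ∈ σ, p.Prime) → (∀ p ∈ σ, 0 < δ p ∧ δ p ≤ 1 / p) →
    (∀ p : ℕ, p.Prime → p ∣ Nat.card G → p ∈ σ) →
    Sm σ δ G < Nat.card G * Bd σ δ (Nat.card G)

theorem Sm_congr {G H : Type} [Group G] [Group H] (e : G ≃* H) (σ : Finset ℕ) (δ : ℕ → ℝ) :
    Sm σ δ G = Sm σ δ H := by
  unfold Sm
  rw [← finsum_comp_equiv e.toEquiv]
  apply finsum_congr
  intro x
  unfold phi
  have : orderOf (e.toEquiv x) = orderOf x := MulEquiv.orderOf_eq e x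
  rw [this]

theorem Good.congr {G H : Type} [Group G] [Group H] (e : G ≃* H) (h : Good G) : Good H := by
  intro σ δ hσ hδ
  rw [← Sm_congr e, ← Nat.card_congr e.toEquiv]
  exact h σ δ hσ hδ

theorem SGood.congr {G H : Type} [Group G] [Group H] (e : G ≃* H) (h : SGood G) : SGood H := by
  intro σ δ hσ hδ hall
  rw [← Sm_congr e, ← Nat.card_congr e.toEquiv]
  refine h σ δ hσ hδ fun p hp hpd => hall p hp ?_
  rwa [← Nat.card_congr e.toEquiv]

section
variable {G : Type} [Group G] [Finite G] {r : ℕ} (N : Subgroup G) [N.Normal]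

/-- the changed weight -/
noncomputable def dd (δ : ℕ → ℝ) (r : ℕ) (N : Subgroup G) (p : ℕ) : ℝ :=
  if p = r then δ p / Nat.card N else δ p

theorem dvd_iff {p : ℕ} (hp : p.Prime) (hr : r.Prime) (hpr : p ≠ r)
    (hN : ∃ a, Nat.card N = r ^ a) (x : G) : p ∣ orderOf x ↔ p ∣ orderOf (x : G ⧸ N) := by
  obtain ⟨a, ha⟩ := hN
  symm
  apply QUO1.reg_iff hp N
  rw [ha]
  exact fun h => hpr ((Nat.prime_dvd_prime_iff_eq hp hr).1 (hp.dvd_of_dvd_pow h))

theorem card_fiber [Fintype G] (c : G ⧸ N) :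
    (open Classical in (univ.filter fun x : G => (x : G ⧸ N) = c).card) = Nat.card N := by
  classical
  have h := QuotientGroup.card_preimage_mk N {c}
  have h1 : Nat.card ({c} : Set (G ⧸ N)) = 1 := Nat.card_unique
  rw [h1, mul_one] at h
  rw [← h, ← AINT.nc_eq]
  rfl

theorem ext_le (hr : r.Prime) (hN : ∃ a, Nat.card N = r ^ a) {σ : Finset ℕ} {δ : ℕ → ℝ}
    (hσ : ∀ p ∈ σ, p.Prime) (hδ : ∀ p ∈ σ, 0 ≤ δ p ∧ δ p ≤ 1 / p) :
    Sm σ δ G ≤ Nat.card N * Sm σ (dd δ r N) (G ⧸ N) := by
  classical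
  haveI := Fintype.ofFinite G
  haveI := Fintype.ofFinite (G ⧸ N)
  have hN0 : (0 : ℝ) < Nat.card N := by exact_mod_cast Nat.card_pos
  have hhalf : ∀ p ∈ σ, 0 ≤ 1 - δ p ∧ 1 - δ p ≤ 1 := fun p hp =>
    ⟨by linarith [le_half (hσ p hp) (hδ p hp)], by linarith [(hδ p hp).1]⟩
  unfold Sm
  rw [finsum_eq_sum_of_fintype, finsum_eq_sum_of_fintype, Finset.mul_sum,
    ← Finset.sum_fiberwise_of_maps_to (t := (univ : Finset (G ⧸ N)))
      (g := fun x : G => (x : G ⧸ N)) (fun _ _ => Finset.mem_univ _)]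
  apply Finset.sum_le_sum
  intro c _
  by_cases hrσ : r ∈ σ
  · -- the common factor
    set rest : ℝ := ∏ p ∈ σ.erase r, (if p ∣ orderOf c then 1 else 1 - δ p) with hrest
    have hrest0 : 0 ≤ rest := by
      apply Finset.prod_nonneg
      intro p hp
      split_ifs
      · exact zero_le_one
      · exact (hhalf p (Finset.mem_of_mem_erase hp)).1
    have h1 : ∀ x ∈ univ.filter (fun x : G => (x : G ⧸ N) = c),
        phi σ δ x = (if r ∣ orderOf x then 1 else 1 - δ r) * rest := by
      intro x hx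
      have hxc := (Finset.mem_filter.1 hx).2
      unfold phi
      rw [← Finset.mul_prod_erase σ _ hrσ]
      congr 1
      apply Finset.prod_congr rfl
      intro p hp
      have := dvd_iff N (hσ p (Finset.mem_of_mem_erase hp)) hr (Finset.ne_of_mem_erase hp) hN x
      rw [hxc] at this
      simp only [this]
    have h2 : phi σ (dd δ r N) c = (if r ∣ orderOf c then 1 else 1 - δ r / Nat.card N) * rest := by
      unfold phi
      rw [← Finset.mul_prod_erase σ _ hrσ]
      congr 1
      · simp [dd]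
      · apply Finset.prod_congr rfl
        intro p hp
        simp only [dd, if_neg (Finset.ne_of_mem_erase hp)]
    rw [Finset.sum_congr rfl h1, ← Finset.sum_mul, h2, ← mul_assoc]
    apply mul_le_mul_of_nonneg_right _ hrest0
    have hle1 : ∀ x : G, (if r ∣ orderOf x then (1 : ℝ) else 1 - δ r) ≤ 1 := by
      intro x
      split_ifs
      · exact le_rfl
      · exact (hhalf r hrσ).2
    by_cases hrc : r ∣ orderOf c
    · rw [if_pos hrc, mul_one, ← card_fiber N c]
      calc _ ≤ ∑ x ∈ univ.filter (fun x : G => (x : G ⧸ N) = c), (1 : ℝ) :=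
            Finset.sum_le_sum fun x _ => hle1 x
        _ = _ := by rw [Finset.sum_const, nsmul_eq_mul, mul_one]
    · rw [if_neg hrc]
      obtain ⟨x0, hx0, hx0r⟩ := QUO2.exists_lift hr N c hrc
      have hmem : x0 ∈ univ.filter (fun x : G => (x : G ⧸ N) = c) :=
        Finset.mem_filter.2 ⟨Finset.mem_univ _, hx0⟩
      rw [← Finset.add_sum_erase _ _ hmem, if_neg hx0r]
      have h3 : ∑ x ∈ (univ.filter (fun x : G => (x : G ⧸ N) = c)).erase x0,
          (if r ∣ orderOf x then (1 : ℝ) else 1 - δ r) ≤ Nat.card N - 1 := by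
        calc _ ≤ ∑ x ∈ (univ.filter (fun x : G => (x : G ⧸ N) = c)).erase x0, (1 : ℝ) :=
              Finset.sum_le_sum fun x _ => hle1 x
          _ = _ := by
            rw [Finset.sum_const, nsmul_eq_mul, mul_one, Finset.card_erase_of_mem hmem,
              card_fiber N c, Nat.cast_sub Nat.card_pos]
            norm_num
      have h4 : (Nat.card N : ℝ) * (1 - δ r / Nat.card N) = Nat.card N - δ r := by
        field_simp
      rw [h4]
      linarith
  · have h1 : ∀ x ∈ univ.filter (fun x : G => (x : G ⧸ N) = c),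
        phi σ δ x = phi σ (dd δ r N) c := by
      intro x hx
      have hxc := (Finset.mem_filter.1 hx).2
      unfold phi
      apply Finset.prod_congr rfl
      intro p hp
      have hpr : p ≠ r := fun h => hrσ (h ▸ hp)
      have := dvd_iff N (hσ p hp) hr hpr hN x
      rw [hxc] at this
      simp only [this, dd, if_neg hpr]
    rw [Finset.sum_congr rfl h1, Finset.sum_const, nsmul_eq_mul, card_fiber N c]

theorem ext_eq (hr : r.Prime) (hN : ∃ a, Nat.card N = r ^ a) {σ : Finset ℕ} (δ : ℕ → ℝ)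
    (hσ : ∀ p ∈ σ, p.Prime) :
    (Nat.card N : ℝ) * (Nat.card (G ⧸ N) * Bd σ (dd δ r N) (Nat.card (G ⧸ N))) =
      Nat.card G * Bd σ δ (Nat.card G) := by
  obtain ⟨a, ha⟩ := hN
  have hB : Bd σ (dd δ r N) (Nat.card (G ⧸ N)) = Bd σ δ (Nat.card G) := by
    unfold Bd
    apply Finset.prod_congr rfl
    intro p hp
    rw [QUO1.card_mul N, Nat.factorization_mul Nat.card_pos.ne' Nat.card_pos.ne',
      Finsupp.add_apply, ha]
    by_cases hpr : p = r
    · subst hpr
      rw [hr.factorization_pow, Finsupp.single_eq_same]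
      simp only [dd, if_true, ha]
      rw [pow_add]
      push_cast
      rw [div_div, mul_comm]
    · have : (r ^ a).factorization p = 0 := by
        apply Nat.factorization_eq_zero_of_not_dvd
        exact fun h => hpr ((Nat.prime_dvd_prime_iff_eq (hσ p hp) hr).1
          ((hσ p hp).dvd_of_dvd_pow h))
      rw [this, add_zero]
      simp only [dd, if_neg hpr]
  rw [hB, ← mul_assoc]
  congr 1
  rw [QUO1.card_mul N]
  push_cast
  ring

theorem dd_mem {p : ℕ} {δ : ℕ → ℝ} (h : 0 ≤ δ p ∧ δ p ≤ 1 / p) :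
    0 ≤ dd δ r N p ∧ dd δ r N p ≤ 1 / p := by
  have hN1 : (1 : ℝ) ≤ Nat.card N := by exact_mod_cast Nat.card_pos
  unfold dd
  split_ifs
  · refine ⟨div_nonneg h.1 (by linarith), (div_le_self h.1 hN1).trans h.2⟩
  · exact h

theorem dd_pos {p : ℕ} {δ : ℕ → ℝ} (h : 0 < δ p) : 0 < dd δ r N p := by
  have hN1 : (0 : ℝ) < Nat.card N := by exact_mod_cast Nat.card_pos
  unfold dd
  split_ifs
  · exact div_pos h hN1
  · exact h

theorem Good.ext (hr : r.Prime) (hN : ∃ a, Nat.card N = r ^ a) (h : Good (G ⧸ N)) : Good G := by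
  intro σ δ hσ hδ
  rw [← ext_eq N hr hN δ hσ]
  refine (ext_le N hr hN hσ hδ).trans (mul_le_mul_of_nonneg_left ?_ (Nat.cast_nonneg _))
  exact h σ _ hσ fun p hp => dd_mem N (hδ p hp)

theorem SGood.ext (hr : r.Prime) (hN : ∃ a, Nat.card N = r ^ a) (h : SGood (G ⧸ N)) :
    SGood G := by
  intro σ δ hσ hδ hall
  have hN1 : (0 : ℝ) < Nat.card N := by exact_mod_cast Nat.card_pos
  rw [← ext_eq N hr hN δ hσ]
  refine lt_of_le_of_lt (ext_le N hr hN hσ fun p hp => ⟨(hδ p hp).1.le, (hδ p hp).2⟩)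
    (mul_lt_mul_of_pos_left ?_ hN1)
  refine h σ _ hσ (fun p hp => ⟨dd_pos N (hδ p hp).1,
    (dd_mem N ⟨(hδ p hp).1.le, (hδ p hp).2⟩).2⟩) fun p hp hpd => hall p hp ?_
  rw [QUO1.card_mul N]
  exact hpd.mul_right _

end

/-- extensions by solvable normal subgroups -/
theorem sol_ext (Q : (G : Type) → [Group G] → Prop)
    (hcongr : ∀ (G H : Type) [Group G] [Group H], G ≃* H → Q G → Q H)
    (hext : ∀ (G : Type) [Group G] [Finite G] (r : ℕ) (N : Subgroup G) [N.Normal], r.Prime →
      (∃ a, Nat.card N = r ^ a) → Q (G ⧸ N) → Q G) (n : ℕ) :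
    ∀ (G : Type) [Group G] [Finite G] (N : Subgroup G) [N.Normal], Nat.card G ≤ n →
      Group.IsSolvable N → Q (G ⧸ N) → Q G := by
  classical
  induction n with
  | zero =>
    intro G _ _ _ _ h
    have := Nat.card_pos (α := G)
    omega
  | succ n ih =>
    intro G _ _ N _ hG hs ha
    by_cases hNb : N = ⊥
    · subst hNb
      exact hcongr _ _ QuotientGroup.quotientBot ha
    · haveI : Nontrivial N := (Subgroup.nontrivial_iff_ne_bot N).2 hNb
      obtain ⟨A', hA1, hA2, hA3⟩ := exists_char N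
      set A : Subgroup G := A'.map N.subtype with hA
      haveI hAn : A.Normal := ConjAct.normal_of_characteristic_of_normal
      have hAN : A ≤ N := Subgroup.map_subtype_le A'
      have hAb : A ≠ ⊥ := by
        intro h
        apply hA2
        rw [hA, Subgroup.map_eq_bot_iff_of_injective _ N.subtype_injective] at h
        exact h
      have hAc : ∀ x ∈ A, ∀ y ∈ A, x * y = y * x := by
        rintro _ ⟨x, hx, rfl⟩ _ ⟨y, hy, rfl⟩
        exact congrArg Subtype.val (hA3 x hx y hy)
      obtain ⟨r, hr, hrA⟩ := Nat.exists_prime_and_dvd (n := Nat.card A)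
        (fun h => hAb (Subgroup.card_eq_one.1 h))
      haveI : Fact r.Prime := ⟨hr⟩
      let M : Subgroup G :=
        { carrier := {x | x ∈ A ∧ x ^ r = 1}
          mul_mem' := by
            rintro a b ⟨ha, ha'⟩ ⟨hb, hb'⟩
            have hc : Commute a b := hAc a ha b hb
            exact ⟨A.mul_mem ha hb, by rw [hc.mul_pow, ha', hb', one_mul]⟩
          one_mem' := ⟨A.one_mem, one_pow _⟩
          inv_mem' := by
            rintro a ⟨ha, ha'⟩
            exact ⟨A.inv_mem ha, by rw [inv_pow, ha', inv_one]⟩ }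
      have hMmem : ∀ x, x ∈ M ↔ x ∈ A ∧ x ^ r = 1 := fun _ => Iff.rfl
      haveI hMn : M.Normal := by
        constructor
        intro x hx g
        rw [hMmem] at hx ⊢
        exact ⟨hAn.conj_mem x hx.1 g, by rw [conj_pow, hx.2, mul_one, mul_inv_cancel]⟩
      have hMN : M ≤ N := fun x hx => hAN hx.1
      have hMb : M ≠ ⊥ := by
        intro hMb
        obtain ⟨x, hx⟩ := exists_prime_orderOf_dvd_card' r hrA
        have hx1 : (x : G) ∈ M := by
          rw [hMmem]
          refine ⟨x.2, ?_⟩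
          have := pow_orderOf_eq_one (x : G)
          rwa [Subgroup.orderOf_coe, hx] at this
        rw [hMb, Subgroup.mem_bot] at hx1
        have : x = 1 := Subtype.ext hx1
        rw [this, orderOf_one] at hx
        exact hr.one_lt.ne hx
      have hlt : Nat.card (G ⧸ M) ≤ n := by
        have e1 := Subgroup.card_eq_card_quotient_mul_card_subgroup M
        have e2 : Nat.card M ≠ 1 := fun h => hMb (Subgroup.card_eq_one.1 h)
        have e3 : 0 < Nat.card M := Nat.card_pos
        have e4 : 0 < Nat.card (G ⧸ M) := Nat.card_pos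
        have e5 : 2 ≤ Nat.card M := by omega
        have e6 : Nat.card (G ⧸ M) * 2 ≤ Nat.card (G ⧸ M) * Nat.card M :=
          Nat.mul_le_mul_left _ e5
        omega
      have hcard : ∃ a, Nat.card M = r ^ a := by
        apply IsPGroup.iff_card.1
        intro x
        refine ⟨1, ?_⟩
        apply Subtype.ext
        have := ((hMmem _).1 x.2).2
        rw [pow_one]
        exact this
      have hs' : Group.IsSolvable (N.map (QuotientGroup.mk' M)) :=
        Group.isSolvable_of_surjective (f := (QuotientGroup.mk' M).subgroupMap N)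
          (MonoidHom.subgroupMap_surjective _ _)
      refine hext G r M hr hcard (ih (G ⧸ M) (N.map (QuotientGroup.mk' M)) hlt hs' ?_)
      exact hcongr _ _ (QuotientGroup.quotientQuotientEquivQuotient M N hMN).symm ha

end Pool.Agent.Y536.OP.SA
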