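import Pool.Agent.Y536.OP.SA2

/-! Project OP: groups with a solvable normal subgroup and symmetric or alternating quotient. -/

set_option autoImplicit false
set_option linter.unusedSectionVars false
set_option linter.style.haveILetI false

namespace Pool.Agent.Y536.OP.SA

open Finset

section
variable {m : ℕ} (H : Subgroup (Equiv.Perm (Fin m))) (hH : alternatingGroup (Fin m) ≤ H)
include hH

theorem le_of_dvd (hm : 5 ≤ m) {p : ℕ} (hp : p.Prime) (h : p ∣ Nat.card H) : p ≤ m :=
  (Nat.Prime.dvd_factorial hp).1 (h.trans (card_H H hH (by omega)).1)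

theorem dvd_card (hm : 5 ≤ m) : 2 ∣ Nat.card H ∧ 3 ∣ Nat.card H := by
  have h := (card_H H hH (by omega)).2
  have h5 : Nat.factorial 5 ∣ Nat.factorial m := Nat.factorial_dvd_factorial hm
  have h6 : 120 ∣ 2 * Nat.card H := by
    have : Nat.factorial 5 = 120 := rfl
    rw [this] at h5
    exact h5.trans h
  omega

theorem good_H (hm : 5 ≤ m) : Good H := by
  classical
  intro σ δ hσ hδ
  rw [Sm_filter, Bd_filter]
  set n := Nat.card H with hn
  have hpr : 0 ≤ ∏ p ∈ σ.filter fun p => ¬ p ∣ n, (1 - δ p) := by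
    apply Finset.prod_nonneg
    intro p hp
    have hp' := (Finset.mem_filter.1 hp).1
    linarith [le_half (hσ p hp') (hδ p hp')]
  have := (caseB2 (G := H) (σ := σ.filter fun p => p ∣ n) (δ := δ)
    (fun p hp => hσ p (Finset.mem_filter.1 hp).1) (fun p hp => hδ p (Finset.mem_filter.1 hp).1)
    (fun p hp hp2 => by
      obtain ⟨h1, h2⟩ := Finset.mem_filter.1 hp
      exact bound H hH hm (hσ p h1) hp2 (le_of_dvd H hH hm (hσ p h1) h2))).1
  have h2 := mul_le_mul_of_nonneg_left this hpr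
  calc _ ≤ _ := h2
    _ = _ := by ring

theorem sgood_H (hm : 5 ≤ m) : SGood H := by
  classical
  intro σ δ hσ hδ hall
  have hδ' : ∀ q ∈ σ, 0 ≤ δ q ∧ δ q ≤ 1 / q := fun q hq => ⟨(hδ q hq).1.le, (hδ q hq).2⟩
  rw [Sm_filter, Bd_filter]
  set n := Nat.card H with hn
  have hpr : 0 < ∏ p ∈ σ.filter fun p => ¬ p ∣ n, (1 - δ p) := by
    apply Finset.prod_pos
    intro p hp
    have hp' := (Finset.mem_filter.1 hp).1
    linarith [le_half (hσ p hp') (hδ' p hp')]
  have hcard2 : 2 ≤ (σ.filter fun p => p ∣ n).card := by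
    obtain ⟨h2, h3⟩ := dvd_card H hH hm
    have hsub : ({2, 3} : Finset ℕ) ⊆ σ.filter fun p => p ∣ n := by
      intro p hp
      rw [Finset.mem_insert, Finset.mem_singleton] at hp
      rcases hp with rfl | rfl
      · exact Finset.mem_filter.2 ⟨hall 2 Nat.prime_two h2, h2⟩
      · exact Finset.mem_filter.2 ⟨hall 3 Nat.prime_three h3, h3⟩
    exact (Finset.card_le_card hsub)
  have := (caseB2 (G := H) (σ := σ.filter fun p => p ∣ n) (δ := δ)
    (fun p hp => hσ p (Finset.mem_filter.1 hp).1) (fun p hp => hδ' p (Finset.mem_filter.1 hp).1)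
    (fun p hp hp2 => by
      obtain ⟨h1, h2⟩ := Finset.mem_filter.1 hp
      exact bound H hH hm (hσ p h1) hp2 (le_of_dvd H hH hm (hσ p h1) h2))).2
    (fun p hp => (hδ p (Finset.mem_filter.1 hp).1).1) hcard2
  have h2 := mul_lt_mul_of_pos_left this hpr
  calc _ < _ := h2
    _ = _ := by ring

end

/-- **Groups with a solvable normal subgroup and symmetric or alternating quotient.** -/
theorem final5 (G : Type) [Group G] [Fintype G] (N : Subgroup G) [N.Normal]
    (hN : Group.IsSolvable N) (m : ℕ) (hm : 5 ≤ m) (H : Subgroup (Equiv.Perm (Fin m)))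
    (hH : alternatingGroup (Fin m) ≤ H) (e : G ⧸ N ≃* H) (Z : Type) [Group Z] [Fintype Z]
    (hZ : ∀ x y : Z, x * y = y * x) (hc : Nat.card G = Nat.card Z) (r : ℝ) (hr : 0 < r)
    (hr1 : r ≤ 1) :
    ∑ g : G, ((orderOf g : ℝ) / (Nat.totient (orderOf g) : ℝ)) ^ r <
        ∑ z : Z, ((orderOf z : ℝ) / (Nat.totient (orderOf z) : ℝ)) ^ r := by
  have hG : SGood G := sol_ext (fun G _ => SGood G) (fun G H _ _ e h => h.congr e)
    (fun G _ _ r N _ hr hN h => h.ext N hr hN) _ G N le_rfl hN ((sgood_H H hH hm).congr e.symm)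
  have hσ : ∀ p ∈ (Nat.card G).primeFactors, p.Prime := fun p hp => Nat.prime_of_mem_primeFactors hp
  have hδ : ∀ p ∈ (Nat.card G).primeFactors, 0 < dl r p ∧ dl r p ≤ 1 / p := fun p hp =>
    dl_bd hr hr1 (hσ p hp)
  have hF := F_pos (n := Nat.card G) r
  have hZe := Sm_comm (Nat.card Z).primeFactors (dl r)
    (fun p hp => Nat.prime_of_mem_primeFactors hp) Z hZ
  rw [sum_eq, sum_eq, hZe, ← hc]
  exact mul_lt_mul_of_pos_left (hG _ _ hσ hδ
    (fun p hp hpd => Nat.mem_primeFactors.2 ⟨hp, hpd, Nat.card_pos.ne'⟩)) hF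

end Pool.Agent.Y536.OP.SA
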