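import Pool.Agent.Y536.OP.SA3
import Pool.Agent.Y536.OP.Cls4

/-! Project OP: direct products. -/

set_option autoImplicit false
set_option linter.unusedSectionVars false
set_option linter.style.haveILetI false

namespace Pool.Agent.Y536.OP.SA

open Finset

section
variable {A B : Type} [Group A] [Group B] [Finite A] [Finite B]

theorem dvd_prod {p : ℕ} (hp : p.Prime) (x : A × B) :
    p ∣ orderOf x ↔ p ∣ orderOf x.1 ∨ p ∣ orderOf x.2 := by
  rw [Prod.orderOf]
  constructor
  · intro h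
    exact hp.dvd_mul.1 (h.trans (Nat.lcm_dvd_mul _ _))
  · rintro (h | h)
    · exact h.trans (Nat.dvd_lcm_left _ _)
    · exact h.trans (Nat.dvd_lcm_right _ _)

/-- the changed weight -/
noncomputable def da (A : Type) [Group A] (δ : ℕ → ℝ) (p : ℕ) : ℝ :=
  δ p / (p ^ (Nat.card A).factorization p : ℕ)

theorem da_mem {σ : Finset ℕ} {δ : ℕ → ℝ} (hσ : ∀ p ∈ σ, p.Prime)
    (hδ : ∀ p ∈ σ, 0 ≤ δ p ∧ δ p ≤ 1 / p) : ∀ p ∈ σ, 0 ≤ da A δ p ∧ da A δ p ≤ 1 / p := by
  intro p hp
  have h := pow_fac_pos (n := Nat.card A) (hσ p hp)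
  exact ⟨div_nonneg (hδ p hp).1 (by linarith), (div_le_self (hδ p hp).1 h).trans (hδ p hp).2⟩

/-- the weight of an element of a direct product -/
theorem phi_prod {σ : Finset ℕ} {δ : ℕ → ℝ} (hσ : ∀ p ∈ σ, p.Prime) (x : A × B) :
    (open Classical in phi σ δ x = phi (σ.filter fun p => ¬ p ∣ orderOf x.2) δ x.1) := by
  classical
  unfold phi
  rw [Finset.prod_filter]
  apply Finset.prod_congr rfl
  intro p hp
  have h := dvd_prod (hσ p hp) x
  by_cases h2 : p ∣ orderOf x.2
  · rw [if_pos (h.2 (Or.inr h2)), if_neg (not_not.2 h2)]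
  · rw [if_pos h2]
    by_cases h1 : p ∣ orderOf x.1
    · rw [if_pos (h.2 (Or.inl h1)), if_pos h1]
    · rw [if_neg (fun h3 => (h.1 h3).elim h1 h2), if_neg h1]

theorem phi_da {σ : Finset ℕ} {δ : ℕ → ℝ} (b : B) :
    (open Classical in Bd (σ.filter fun p => ¬ p ∣ orderOf b) δ (Nat.card A)) =
      phi σ (da A δ) b := by
  classical
  unfold phi Bd
  rw [Finset.prod_filter]
  apply Finset.prod_congr rfl
  intro p hp
  by_cases h2 : p ∣ orderOf b
  · rw [if_neg (not_not.2 h2), if_pos h2]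
  · rw [if_pos h2, if_neg h2]
    rfl

theorem Bd_prod {σ : Finset ℕ} {δ : ℕ → ℝ} :
    (Nat.card A : ℝ) * (Nat.card B * Bd σ (da A δ) (Nat.card B)) =
      Nat.card (A × B) * Bd σ δ (Nat.card (A × B)) := by
  have h : Bd σ (da A δ) (Nat.card B) = Bd σ δ (Nat.card (A × B)) := by
    unfold Bd
    apply Finset.prod_congr rfl
    intro p hp
    rw [Nat.card_prod, Nat.factorization_mul Nat.card_pos.ne' Nat.card_pos.ne', Finsupp.add_apply,
      pow_add]
    unfold da
    push_cast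
    rw [div_div]
  rw [h, Nat.card_prod]
  push_cast
  ring

theorem Sm_prod [Fintype A] [Fintype B] (σ : Finset ℕ) (δ : ℕ → ℝ) (hσ : ∀ p ∈ σ, p.Prime) :
    (open Classical in Sm σ δ (A × B) =
      ∑ b : B, Sm (σ.filter fun p => ¬ p ∣ orderOf b) δ A) := by
  classical
  unfold Sm
  rw [finsum_eq_sum_of_fintype, Fintype.sum_prod_type_right]
  apply Finset.sum_congr rfl
  intro b _
  rw [finsum_eq_sum_of_fintype]
  exact Finset.sum_congr rfl fun a _ => phi_prod hσ (a, b)

theorem Good.prod (hA : Good A) (hB : Good B) : Good (A × B) := by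
  classical
  intro σ δ hσ hδ
  haveI := Fintype.ofFinite A
  haveI := Fintype.ofFinite B
  rw [Sm_prod σ δ hσ, ← Bd_prod]
  have h1 : ∀ b : B, Sm (σ.filter fun p => ¬ p ∣ orderOf b) δ A ≤
      Nat.card A * phi σ (da A δ) b := by
    intro b
    rw [← phi_da]
    exact hA _ δ (fun p hp => hσ p (Finset.mem_filter.1 hp).1)
      (fun p hp => hδ p (Finset.mem_filter.1 hp).1)
  refine (Finset.sum_le_sum fun b _ => h1 b).trans ?_
  rw [← Finset.mul_sum]
  apply mul_le_mul_of_nonneg_left _ (Nat.cast_nonneg _)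
  have h2 := hB σ (da A δ) hσ (da_mem hσ hδ)
  unfold Sm at h2
  rwa [finsum_eq_sum_of_fintype] at h2

theorem SGood.prod (hA : SGood A) (hA' : Good A) (hB : Good B) : SGood (A × B) := by
  classical
  intro σ δ hσ hδ hall
  have hδ' : ∀ p ∈ σ, 0 ≤ δ p ∧ δ p ≤ 1 / p := fun p hp => ⟨(hδ p hp).1.le, (hδ p hp).2⟩
  haveI := Fintype.ofFinite A
  haveI := Fintype.ofFinite B
  rw [Sm_prod σ δ hσ, ← Bd_prod]
  have h1 : ∀ b : B, Sm (σ.filter fun p => ¬ p ∣ orderOf b) δ A ≤
      Nat.card A * phi σ (da A δ) b := by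
    intro b
    rw [← phi_da]
    exact hA' _ δ (fun p hp => hσ p (Finset.mem_filter.1 hp).1)
      (fun p hp => hδ' p (Finset.mem_filter.1 hp).1)
  have h1' : Sm (σ.filter fun p => ¬ p ∣ orderOf (1 : B)) δ A <
      Nat.card A * phi σ (da A δ) (1 : B) := by
    rw [← phi_da]
    refine hA _ δ (fun p hp => hσ p (Finset.mem_filter.1 hp).1)
      (fun p hp => hδ p (Finset.mem_filter.1 hp).1) fun p hp hpd => ?_
    refine Finset.mem_filter.2 ⟨hall p hp ?_, ?_⟩
    · rw [Nat.card_prod]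
      exact hpd.mul_right _
    · rw [orderOf_one]
      exact fun h => hp.one_lt.ne' (Nat.dvd_one.1 h)
  refine lt_of_lt_of_le (Finset.sum_lt_sum (fun b _ => h1 b) ⟨1, Finset.mem_univ _, h1'⟩) ?_
  rw [← Finset.mul_sum]
  apply mul_le_mul_of_nonneg_left _ (Nat.cast_nonneg _)
  have h2 := hB σ (da A δ) hσ (da_mem hσ hδ')
  unfold Sm at h2
  rwa [finsum_eq_sum_of_fintype] at h2

end

theorem good_subsingleton (A : Type) [Group A] [Subsingleton A] : Good A := by
  intro σ δ hσ hδ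
  have h := Sm_comm σ δ hσ A (fun x y => Subsingleton.elim _ _)
  rw [h]

/-- the direct product of a family -/
def consE {k : ℕ} (H : Fin (k + 1) → Type) [∀ i, Group (H i)] :
    (∀ i, H i) ≃* H 0 × (∀ i : Fin k, H i.succ) :=
  { toFun := fun f => (f 0, fun i => f i.succ)
    invFun := fun x => Fin.cons x.1 x.2
    left_inv := fun f => by
      funext i
      refine Fin.cases ?_ (fun j => ?_) i
      · rfl
      · rfl
    right_inv := fun x => rfl
    map_mul' := fun f g => rfl }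

theorem good_pi {k : ℕ} : ∀ (H : Fin k → Type) [∀ i, Group (H i)] [∀ i, Finite (H i)],
    (∀ i, Good (H i)) → Good (∀ i, H i) := by
  induction k with
  | zero =>
    intro H _ _ _
    haveI : Subsingleton (∀ i, H i) := ⟨fun f g => funext fun i => i.elim0⟩
    exact good_subsingleton _
  | succ k ih =>
    intro H _ _ h
    exact ((h 0).prod (ih (fun i => H i.succ) fun i => h i.succ)).congr (consE H).symm

theorem sgood_pi {k : ℕ} : ∀ (H : Fin k → Type) [∀ i, Group (H i)] [∀ i, Finite (H i)],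
    (∀ i, Good (H i)) → (∃ i, SGood (H i)) → SGood (∀ i, H i) := by
  induction k with
  | zero =>
    rintro H _ _ _ ⟨i, _⟩
    exact i.elim0
  | succ k ih =>
    rintro H _ _ h ⟨i, hi⟩
    refine SGood.congr (consE H).symm ?_
    revert hi
    refine Fin.cases ?_ (fun j => ?_) i
    · intro hi
      exact hi.prod (h 0) (good_pi (fun i => H i.succ) fun i => h i.succ)
    · intro hi
      have h1 := ih (fun i => H i.succ) (fun i => h i.succ) ⟨j, hi⟩
      exact (h1.prod (good_pi (fun i => H i.succ) fun i => h i.succ) (h 0)).congr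
        MulEquiv.prodComm

/-- groups in the class `Cls4` -/
theorem Cls4.good {G : Type} [Group G] [Finite G] (h : Cls4 G) : Good G := fun σ δ hσ hδ =>
  main2 (fun G _ => Cls4 G) (fun G _ H hG => hG.sub G H)
    (fun G _ _ p hp hp2 hG => hG.dich G p hp hp2) _ G le_rfl h σ δ hσ hδ

/-- **The inequality.** -/
theorem good_final (G : Type) [Group G] [Fintype G] (hG : Good G) (Z : Type) [Group Z] [Fintype Z]
    (hZ : ∀ x y : Z, x * y = y * x) (hc : Nat.card G = Nat.card Z) (r : ℝ) (hr : 0 < r)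
    (hr1 : r ≤ 1) :
    ∑ g : G, ((orderOf g : ℝ) / (Nat.totient (orderOf g) : ℝ)) ^ r ≤
        ∑ z : Z, ((orderOf z : ℝ) / (Nat.totient (orderOf z) : ℝ)) ^ r := by
  have hσ : ∀ p ∈ (Nat.card G).primeFactors, p.Prime := fun p hp => Nat.prime_of_mem_primeFactors hp
  have hδ : ∀ p ∈ (Nat.card G).primeFactors, 0 ≤ dl r p ∧ dl r p ≤ 1 / p := fun p hp =>
    ⟨(dl_bd hr hr1 (hσ p hp)).1.le, (dl_bd hr hr1 (hσ p hp)).2⟩
  have hF := F_pos (n := Nat.card G) r
  have hZe := Sm_comm (Nat.card Z).primeFactors (dl r)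
    (fun p hp => Nat.prime_of_mem_primeFactors hp) Z hZ
  rw [sum_eq, sum_eq, hZe, ← hc]
  exact mul_le_mul_of_nonneg_left (hG _ _ hσ hδ) hF.le

/-- **The strict inequality.** -/
theorem sgood_final (G : Type) [Group G] [Fintype G] (hG : SGood G) (Z : Type) [Group Z]
    [Fintype Z] (hZ : ∀ x y : Z, x * y = y * x) (hc : Nat.card G = Nat.card Z) (r : ℝ) (hr : 0 < r)
    (hr1 : r ≤ 1) :
    ∑ g : G, ((orderOf g : ℝ) / (Nat.totient (orderOf g) : ℝ)) ^ r <
        ∑ z : Z, ((orderOf z : ℝ) / (Nat.totient (orderOf z) : ℝ)) ^ r := by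
  have hσ : ∀ p ∈ (Nat.card G).primeFactors, p.Prime := fun p hp => Nat.prime_of_mem_primeFactors hp
  have hδ : ∀ p ∈ (Nat.card G).primeFactors, 0 < dl r p ∧ dl r p ≤ 1 / p := fun p hp =>
    dl_bd hr hr1 (hσ p hp)
  have hF := F_pos (n := Nat.card G) r
  have hZe := Sm_comm (Nat.card Z).primeFactors (dl r)
    (fun p hp => Nat.prime_of_mem_primeFactors hp) Z hZ
  rw [sum_eq, sum_eq, hZe, ← hc]
  exact mul_lt_mul_of_pos_left (hG _ _ hσ hδ
    (fun p hp hpd => Nat.mem_primeFactors.2 ⟨hp, hpd, Nat.card_pos.ne'⟩)) hF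

end Pool.Agent.Y536.OP.SA
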