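import Pool.Agent.Y536.OP.SA4

/-! Project OP: direct products of symmetric and alternating groups and groups of the class `Cls4`,
extended by solvable groups. -/

set_option autoImplicit false
set_option linter.unusedSectionVars false
set_option linter.style.haveILetI false

namespace Pool.Agent.Y536.OP.SA

open Finset

/-- the quotient by a solvable normal subgroup is a direct product -/
theorem sgood_prod_ext (G : Type) [Group G] [Finite G] (N : Subgroup G) [N.Normal]
    (hN : Group.IsSolvable N) (k : ℕ) (H : Fin k → Type) [∀ i, Group (H i)] [∀ i, Finite (H i)]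
    (hH : ∀ i, Good (H i)) (hS : ∃ i, SGood (H i)) (e : G ⧸ N ≃* ∀ i, H i) : SGood G :=
  sol_ext (fun G _ => SGood G) (fun G H _ _ e h => h.congr e)
    (fun G _ _ r N _ hr hN h => h.ext N hr hN) _ G N le_rfl hN
    ((sgood_pi H hH hS).congr e.symm)

theorem sgood_of_equiv {H : Type} [Group H] {m : ℕ} (hm : 5 ≤ m)
    (S : Subgroup (Equiv.Perm (Fin m))) (hS : alternatingGroup (Fin m) ≤ S) (e : H ≃* S) :
    SGood H ∧ Good H :=
  ⟨(sgood_H S hS hm).congr e.symm, (good_H S hS hm).congr e.symm⟩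

theorem good_of_series {H : Type} [Group H] [Finite H] (n : ℕ) (N : ℕ → Subgroup H)
    (hN : ∀ i, (N i).Normal) (h0 : N 0 = ⊥) (hn : N n = ⊤) (hle : ∀ i, N i ≤ N (i + 1))
    (ha : ∀ i < n, ∀ p : ℕ, p.Prime → p ≠ 2 →
      ∀ P : Sylow p (N (i + 1) ⧸ (N i).subgroupOf (N (i + 1))), ∀ x ∈ P, ∀ y ∈ P,
        x * y = y * x) : Good H :=
  Cls4.good ⟨n, N, hN, h0, hn, hle, fun i hi => ASo_of (N i) (N (i + 1)) (ha i hi)⟩

end Pool.Agent.Y536.OP.SA
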