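import Pool.Agent.Y536.OP.SA5

/-! Project OP: a criterion in terms of the numbers of elements of order prime to `p`. -/

set_option autoImplicit false
set_option linter.unusedSectionVars false
set_option linter.style.haveILetI false

namespace Pool.Agent.Y536.OP.SA

open Finset

section
variable {H : Type} [Group H] [Finite H]

theorem good_crit (h : ∀ p : ℕ, p.Prime → p ≠ 2 → p ∣ Nat.card H →
    (p + 1) * (Nat.card H / p ^ (Nat.card H).factorization p) ≤ 2 * regs H p) : Good H := by
  classical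
  intro σ δ hσ hδ
  rw [Sm_filter, Bd_filter]
  set n := Nat.card H with hn
  have hpr : 0 ≤ ∏ p ∈ σ.filter fun p => ¬ p ∣ n, (1 - δ p) := by
    apply Finset.prod_nonneg
    intro p hp
    have hp' := (Finset.mem_filter.1 hp).1
    linarith [le_half (hσ p hp') (hδ p hp')]
  have := (caseB2 (G := H) (σ := σ.filter fun p => p ∣ n) (δ := δ)
    (fun p hp => hσ p (Finset.mem_filter.1 hp).1) (fun p hp => hδ p (Finset.mem_filter.1 hp).1)
    (fun p hp hp2 => by
      obtain ⟨h1, h2⟩ := Finset.mem_filter.1 hp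
      exact h p (hσ p h1) hp2 h2)).1
  have h2 := mul_le_mul_of_nonneg_left this hpr
  calc _ ≤ _ := h2
    _ = _ := by ring

theorem sgood_crit (h : ∀ p : ℕ, p.Prime → p ≠ 2 → p ∣ Nat.card H →
    (p + 1) * (Nat.card H / p ^ (Nat.card H).factorization p) ≤ 2 * regs H p)
    (hne : ∃ p : ℕ, p.Prime ∧ p ≠ 2 ∧ p ∣ Nat.card H) : SGood H := by
  classical
  intro σ δ hσ hδ hall
  have hδ' : ∀ q ∈ σ, 0 ≤ δ q ∧ δ q ≤ 1 / q := fun q hq => ⟨(hδ q hq).1.le, (hδ q hq).2⟩
  rw [Sm_filter, Bd_filter]
  set n := Nat.card H with hn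
  have hpr : 0 < ∏ p ∈ σ.filter fun p => ¬ p ∣ n, (1 - δ p) := by
    apply Finset.prod_pos
    intro p hp
    have hp' := (Finset.mem_filter.1 hp).1
    linarith [le_half (hσ p hp') (hδ' p hp')]
  have hcard2 : 2 ≤ (σ.filter fun p => p ∣ n).card := by
    by_contra hlt2
    obtain ⟨q, hq, hq2, hqn⟩ := hne
    have hqm : q ∈ σ.filter fun p => p ∣ n := Finset.mem_filter.2 ⟨hall q hq hqn, hqn⟩
    have hone : (σ.filter fun p => p ∣ n).card ≤ 1 := by omega
    have honly : ∀ p : ℕ, p.Prime → p ∣ Nat.card H → p = q := fun p hp hpn =>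
      Finset.card_le_one.1 hone p (Finset.mem_filter.2 ⟨hall p hp hpn, hpn⟩) q hqm
    -- the elements of order prime to `q`
    have htriv : ∀ g : H, ¬ q ∣ orderOf g → g = 1 := by
      intro g hg
      by_contra hne
      have h1 : orderOf g ≠ 1 := fun h => hne (orderOf_eq_one_iff.1 h)
      obtain ⟨p, hp, hpd⟩ := Nat.exists_prime_and_dvd h1
      rw [← honly p hp (hpd.trans (orderOf_dvd_natCard g))] at hg
      exact hg hpd
    have hr : regs H q ≤ 1 := by
      unfold regs
      haveI : Subsingleton {g : H // ¬ q ∣ orderOf g} :=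
        ⟨fun a b => Subtype.ext ((htriv a a.2).trans (htriv b b.2).symm)⟩
      exact Finite.card_le_one_iff_subsingleton.2 this
    have h1 := h q hq hq2 hqn
    have h2 : 0 < n / q ^ n.factorization q := Nat.ordCompl_pos q Nat.card_pos.ne'
    have h3 := hq.two_le
    have h4 : (q + 1) * 1 ≤ (q + 1) * (n / q ^ n.factorization q) := Nat.mul_le_mul_left _ h2
    omega
  have := (caseB2 (G := H) (σ := σ.filter fun p => p ∣ n) (δ := δ)
    (fun p hp => hσ p (Finset.mem_filter.1 hp).1) (fun p hp => hδ' p (Finset.mem_filter.1 hp).1)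
    (fun p hp hp2 => by
      obtain ⟨h1, h2⟩ := Finset.mem_filter.1 hp
      exact h p (hσ p h1) hp2 h2)).2
    (fun p hp => (hδ p (Finset.mem_filter.1 hp).1).1) hcard2
  have h2 := mul_lt_mul_of_pos_left this hpr
  calc _ < _ := h2
    _ = _ := by ring

end

end Pool.Agent.Y536.OP.SA
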