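import Pool.Agent.Y536.OP.SA6

/-! Project OP: perfect groups. -/

set_option autoImplicit false
set_option linter.unusedSectionVars false
set_option linter.style.haveILetI false

namespace Pool.Agent.Y536.OP.SA

open Finset

/-- in a perfect group of order divisible by `p`, the elements of order prime to `p` do not form a
subgroup -/
theorem perf_not_nc {H : Type} [Group H] [Finite H] [Group.IsPerfect H] {p : ℕ} (hp : p.Prime)
    (hd : p ∣ Nat.card H) : ¬ NC H p := by
  haveI : Fact p.Prime := ⟨hp⟩
  rintro ⟨K, hK⟩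
  haveI : K.Normal := by
    constructor
    intro x hx g
    rw [hK] at hx ⊢
    have : orderOf (g * x * g⁻¹) = orderOf x := MulEquiv.orderOf_eq (MulAut.conj g) x
    rwa [this]
  have hKne : K ≠ ⊤ := by
    intro hKt
    obtain ⟨x, hx⟩ := exists_prime_orderOf_dvd_card' p hd
    have hxK : x ∈ K := hKt ▸ Subgroup.mem_top x
    exact (hK x).1 hxK (by rw [hx])
  haveI : Nontrivial (H ⧸ K) := by
    rw [← not_subsingleton_iff_nontrivial]
    intro h
    exact hKne (QuotientGroup.subgroup_eq_top_of_subsingleton K h)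
  have hpg : IsPGroup p (H ⧸ K) := by
    intro x
    obtain ⟨x, rfl⟩ := QuotientGroup.mk_surjective x
    refine ⟨(orderOf x).factorization p, ?_⟩
    rw [← QuotientGroup.mk_pow, QuotientGroup.eq_one_iff, hK,
      orderOf_pow_of_dvd (pow_pos hp.pos _).ne' (Nat.ordProj_dvd _ _)]
    exact Nat.not_dvd_ordCompl hp (orderOf_pos x).ne'
  exact Group.IsPerfect.not_isNilpotent (H ⧸ K) hpg.isNilpotent

theorem perf {H : Type} [Group H] [Finite H] [Nontrivial H] [Group.IsPerfect H]
    (h : ∀ p : ℕ, p.Prime → p ≠ 2 →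
      (∀ P : Sylow p H, ∀ x ∈ P, ∀ y ∈ P, x * y = y * x) ∨
      (p + 1) * Nat.card H ≤
        2 * p ^ (Nat.card H).factorization p * Nat.card {x : H // ¬ p ∣ orderOf x}) :
    Good H ∧ SGood H := by
  have hb : ∀ p : ℕ, p.Prime → p ≠ 2 → p ∣ Nat.card H →
      (p + 1) * (Nat.card H / p ^ (Nat.card H).factorization p) ≤ 2 * regs H p := by
    intro p hp hp2 hd
    rcases h p hp hp2 with h1 | h1
    · exact (ABL.done (AINT.done AEQ.done) H p hp h1).resolve_left (perf_not_nc hp hd)
    · set q := p ^ (Nat.card H).factorization p with hq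
      have hq0 : 0 < q := pow_pos hp.pos _
      have h5 : Nat.card H / q * q ≤ Nat.card H := Nat.div_mul_le_self _ _
      have h6 : ((p + 1) * (Nat.card H / q)) * q ≤ (2 * regs H p) * q := by
        calc ((p + 1) * (Nat.card H / q)) * q = (p + 1) * (Nat.card H / q * q) := by ring
          _ ≤ (p + 1) * Nat.card H := Nat.mul_le_mul_left _ h5
          _ ≤ 2 * q * regs H p := h1
          _ = (2 * regs H p) * q := by ring
      exact Nat.le_of_mul_le_mul_right h6 hq0
  refine ⟨good_crit hb, sgood_crit hb ?_⟩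
  by_contra hno
  push Not at hno
  have h2 : ∀ p : ℕ, p.Prime → p ∣ Nat.card H → p = 2 := fun p hp hpd => by
    by_contra hne
    exact hno p hp hne hpd
  haveI : Fact (Nat.Prime 2) := ⟨Nat.prime_two⟩
  have hpg : IsPGroup 2 H := IsPGroup.of_card
    (Nat.eq_prime_pow_of_unique_prime_dvd Nat.card_pos.ne' fun {d} hd hdd => h2 d hd hdd)
  exact Group.IsPerfect.not_isNilpotent H hpg.isNilpotent

end Pool.Agent.Y536.OP.SA
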