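import Mathlib

/-! Project OP: elements of order prime to `p` in a finite group. Definitions and statements. -/

set_option autoImplicit false

namespace Pool.Agent.Y536.OP

/-- The number of the elements of order prime to `p` (of order not divisible by the prime `p`). -/
noncomputable def regs (G : Type) [Group G] (p : ℕ) : ℕ := Nat.card {g : G // ¬ p ∣ orderOf g}

/-- The elements of order not divisible by the prime `p` form a subgroup. -/
def NC (G : Type) [Group G] (p : ℕ) : Prop :=
  ∃ K : Subgroup G, ∀ g : G, g ∈ K ↔ ¬ p ∣ orderOf g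

/-- The elements of order not divisible by the prime `p` form a subgroup, or there are at least
`(p + 1) / 2 * n'` of them, where `n'` is the largest divisor of the order of `G` prime to `p`. -/
def Dich (G : Type) [Group G] (p : ℕ) : Prop :=
  NC G p ∨ (p + 1) * (Nat.card G / p ^ (Nat.card G).factorization p) ≤ 2 * regs G p

/-- NUM: an inequality for finite sets of primes. -/
def S_NUM : Prop := ∀ (S : Finset ℕ) (δ : ℕ → ℝ), (∀ p ∈ S, p.Prime) →
  ((∀ p ∈ S, 0 ≤ δ p ∧ δ p ≤ 1 / p) →
    ∑ p ∈ S, 2 * δ p / (p + 1) ≤ 1 - ∏ p ∈ S, (1 - δ p)) ∧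
  ((∀ p ∈ S, 0 < δ p ∧ δ p ≤ 1 / p) → S.Nonempty →
    ∑ p ∈ S, 2 * δ p / (p + 1) < 1 - ∏ p ∈ S, (1 - δ p))

/-- QUO1: normal subgroups of order prime to `p`. -/
def S_QUO1 : Prop := ∀ (G : Type) [Group G] [Finite G] (p : ℕ), p.Prime →
  ∀ (N : Subgroup G) [N.Normal], ¬ p ∣ Nat.card N → Dich (G ⧸ N) p → Dich G p

/-- QUO2: normal abelian subgroups of order a power of `p`. -/
def S_QUO2 : Prop := ∀ (G : Type) [Group G] [Finite G] (p : ℕ), p.Prime →
  ∀ (N : Subgroup G) [N.Normal], (∃ a, Nat.card N = p ^ a) → (∀ x ∈ N, ∀ y ∈ N, x * y = y * x) →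
    Dich (G ⧸ N) p → Dich G p

/-- SOL: solvable groups. -/
def S_SOL : Prop := ∀ (G : Type) [Group G] [Finite G] [Group.IsSolvable G] (p : ℕ), p.Prime → Dich G p

/-- ABL: groups with abelian Sylow `p`-subgroups. -/
def S_ABL : Prop := ∀ (G : Type) [Group G] [Finite G] (p : ℕ), p.Prime →
  (∀ P : Sylow p G, ∀ x ∈ P, ∀ y ∈ P, x * y = y * x) → Dich G p

/-- AEQ: counting the elements of `G` by their `p`-parts, `P` abelian: the elements of `P` conjugate
in `G` to `v` are conjugate in the normalizer of `P`. -/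
def S_AEQ : Prop := ∀ (G : Type) [Group G] [Finite G] (p : ℕ) [Fact p.Prime] (P : Sylow p G),
  (∀ x ∈ P, ∀ y ∈ P, x * y = y * x) →
    (Nat.card (Subgroup.normalizer (P : Set G)) : ℚ) =
      ∑ᶠ v : {v : G // v ∈ P}, (regs (Subgroup.centralizer {(v : G)}) p : ℚ) *
        Nat.card {x : G // x ∈ Subgroup.normalizer (P : Set G) ∧ x * v = v * x} /
          Nat.card (Subgroup.centralizer {(v : G)})

/-- AINT: the number of `p`-regular elements in groups with an abelian Sylow `p`-subgroup `P`:
`|N_G(P) : C_G(P)| * (number of p-regular elements)` is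
`n * ∑ over the automorphisms of P induced by N_G(P) of 1 / |fixed points|`. It is stated in the
following form without quotients: `|N_G(P)| * r = n * ∑_{x ∈ N_G(P)} 1 / |C_P(x)|`. -/
def S_AINT : Prop := ∀ (G : Type) [Group G] [Finite G] (p : ℕ) [Fact p.Prime] (P : Sylow p G),
  (∀ x ∈ P, ∀ y ∈ P, x * y = y * x) →
    (Nat.card (Subgroup.normalizer (P : Set G)) : ℚ) * regs G p =
      (Nat.card G : ℚ) * ∑ᶠ x : Subgroup.normalizer (P : Set G),
        1 / (Nat.card {u : G // u ∈ P ∧ (x : G) * u = u * x} : ℚ)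

end Pool.Agent.Y536.OP
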